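import Pool.Agent.H42R3.TwoSided

set_option autoImplicit false

namespace Pool.Agent.H42R3.TwoSided

lemma Low.mul {k : ℕ} {f g : FreeGroup ℕ} (hf : Low k f) (hg : Low k g) : Low k (f * g) := by
  intro p hp
  have h := (FreeGroup.toWord_mul_sublist f g).subset hp
  rcases List.mem_append.1 h with h | h
  · exact hf p h
  · exact hg p h

lemma Low.inv {k : ℕ} {f : FreeGroup ℕ} (hf : Low k f) : Low k f⁻¹ := by
  intro p hp
  rw [FreeGroup.toWord_inv, FreeGroup.invRev, List.mem_reverse, List.mem_map] at hp
  obtain ⟨q, hq, rfl⟩ := hp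
  exact hf q hq

lemma Low.one (k : ℕ) : Low k 1 := by
  intro p hp
  rw [FreeGroup.toWord_one] at hp
  cases hp

lemma Low.of {k i : ℕ} (h : i < k) : Low k (FreeGroup.of i) := by
  intro p hp
  rw [FreeGroup.toWord_of, List.mem_singleton] at hp
  rw [hp]; exact h

lemma Low.mono {k k' : ℕ} (h : k ≤ k') {f : FreeGroup ℕ} (hf : Low k f) : Low k' f :=
  fun p hp => (hf p hp).trans_le h

lemma low_mul_iff {k : ℕ} {f : FreeGroup ℕ} (hf : Low k f) (y : FreeGroup ℕ) :
    Low k (f * y) ↔ Low k y := by
  constructor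
  · intro h
    have := hf.inv.mul h
    rwa [inv_mul_cancel_left] at this
  · intro h
    exact hf.mul h

/-- exponent sum of the generator `k` -/
noncomputable def ex (k : ℕ) : FreeGroup ℕ →* Multiplicative ℤ :=
  FreeGroup.lift (fun i => if i = k then Multiplicative.ofAdd 1 else 1)

lemma ex_low {k : ℕ} {f : FreeGroup ℕ} (hf : Low k f) : ex k f = 1 := by
  have h : ∀ L : List (ℕ × Bool), (∀ p ∈ L, p.1 < k) → ex k (FreeGroup.mk L) = 1 := by
    intro L
    induction L with
    | nil =>
      intro _
      have : (FreeGroup.mk [] : FreeGroup ℕ) = 1 := rfl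
      rw [this, map_one]
    | cons l L ih =>
      intro hL
      have h1 : (FreeGroup.mk (l :: L) : FreeGroup ℕ) = FreeGroup.mk [l] * FreeGroup.mk L := by
        rw [FreeGroup.mul_mk]; rfl
      rw [h1, map_mul, ih (fun p hp => hL p (List.mem_cons_of_mem _ hp)), mul_one]
      have h2 : l.1 ≠ k := (hL l List.mem_cons_self).ne
      obtain ⟨a, b⟩ := l
      have h3 : ex k (FreeGroup.of a) = 1 := by
        unfold ex
        rw [FreeGroup.lift_apply_of, if_neg h2]
      cases b
      · have : (FreeGroup.mk [(a, false)] : FreeGroup ℕ) = (FreeGroup.of a)⁻¹ := by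
          rw [FreeGroup.of, FreeGroup.inv_mk]; rfl
        rw [this, map_inv, h3, inv_one]
      · exact h3
  have := h f.toWord hf
  rwa [FreeGroup.mk_toWord] at this

lemma ex_of (k : ℕ) : ex k (FreeGroup.of k) = Multiplicative.ofAdd 1 := by
  unfold ex
  rw [FreeGroup.lift_apply_of, if_pos rfl]

/-- all vertices touched by a finite set of edges -/
noncomputable def touched (X Y : ℕ → Finset (FreeGroup ℕ)) (E : Finset (FreeGroup ℕ × ℕ)) :
    Finset (FreeGroup ℕ) := by
  classical
  exact E.biUnion (fun e => (X e.2).image (fun f => f * (FreeGroup.of e.2 * e.1))) ∪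
        E.biUnion (fun e => (Y e.2).image (fun f => f * e.1))

lemma mem_touched (X Y : ℕ → Finset (FreeGroup ℕ)) (E : Finset (FreeGroup ℕ × ℕ)) :
    ∀ e ∈ E, (∀ f ∈ X e.2, f * (FreeGroup.of e.2 * e.1) ∈ touched X Y E) ∧
      ∀ f ∈ Y e.2, f * e.1 ∈ touched X Y E := by
  classical
  intro e he
  refine ⟨?_, ?_⟩
  · intro f hf
    apply Finset.mem_union_left
    rw [Finset.mem_biUnion]
    exact ⟨e, he, Finset.mem_image_of_mem (fun f => f * (FreeGroup.of e.2 * e.1)) hf⟩
  · intro f hf
    apply Finset.mem_union_right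
    rw [Finset.mem_biUnion]
    exact ⟨e, he, Finset.mem_image_of_mem (fun f => f * e.1) hf⟩

section
variable (col : ℕ → Fin 11) (X Y : ℕ → Finset (FreeGroup ℕ))
    (hXc : ∀ k, (X k).card ≤ 11) (hYc : ∀ k, (Y k).card ≤ 11)
    (hX : ∀ k, ∀ f ∈ X k, Low k f) (hY : ∀ k, ∀ f ∈ Y k, Low k f)

include hXc hYc hX hY

/-- colouring with one colour forbidden on a small set -/
theorem one_forbidden (E : Finset (FreeGroup ℕ × ℕ)) (i : Fin 11) (Z : Finset (FreeGroup ℕ))
    (hZ : Z.card ≤ 11) :
    ∃ c : FreeGroup ℕ → Fin 11, (∀ x ∈ Z, c x ≠ i) ∧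
        ∀ e ∈ E, ∀ x ∈ X e.2, ∀ y ∈ Y e.2,
          ¬ (c (x * (FreeGroup.of e.2 * e.1)) = col e.2 ∧ c (y * e.1) = col e.2) := by
  classical
  obtain ⟨c, h1, h2⟩ := main_aux col X Y hXc hYc hX hY _ E (touched X Y E ∪ Z)
    (fun x => if x ∈ Z then {i} else ∅) rfl (by
      calc ∑ x ∈ touched X Y E ∪ Z, phi (if x ∈ Z then ({i} : Finset (Fin 11)) else ∅).card
          = ∑ x ∈ touched X Y E ∪ Z, (if x ∈ Z then 1024 else 0) := by
            apply Finset.sum_congr rfl
            intro x _
            split_ifs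
            · rw [Finset.card_singleton]; rfl
            · rfl
        _ ≤ 11264 := by
            rw [← Finset.sum_filter, Finset.sum_const, smul_eq_mul]
            have : ((touched X Y E ∪ Z).filter (fun x => x ∈ Z)).card ≤ Z.card := by
              apply Finset.card_le_card
              intro x hx
              exact (Finset.mem_filter.1 hx).2
            omega
        _ < 59049 := by norm_num) (by
      intro x hx
      rw [if_neg (fun h => hx (Finset.mem_union_right _ h))])
    (fun e he => ⟨fun f hf => Finset.mem_union_left _ ((mem_touched X Y E e he).1 f hf),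
      fun f hf => Finset.mem_union_left _ ((mem_touched X Y E e he).2 f hf)⟩)
  refine ⟨c, ?_, h2⟩
  intro x hx h
  have := h1 x
  rw [if_pos hx, Finset.mem_singleton] at this
  exact this h

/-- colouring with one precoloured vertex -/
theorem one_pre (E : Finset (FreeGroup ℕ × ℕ)) (i : Fin 11) (z : FreeGroup ℕ) :
    ∃ c : FreeGroup ℕ → Fin 11, c z = i ∧
        ∀ e ∈ E, ∀ x ∈ X e.2, ∀ y ∈ Y e.2,
          ¬ (c (x * (FreeGroup.of e.2 * e.1)) = col e.2 ∧ c (y * e.1) = col e.2) := by
  classical
  obtain ⟨c, h1, h2⟩ := main_aux col X Y hXc hYc hX hY _ E (insert z (touched X Y E))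
    (fun x => if x = z then Finset.univ.erase i else ∅) rfl (by
      rw [Finset.sum_eq_single z]
      · rw [if_pos rfl, Finset.card_erase_of_mem (Finset.mem_univ _), Finset.card_univ,
          Fintype.card_fin]
        decide
      · intro b _ hb
        rw [if_neg hb]; rfl
      · intro h
        exact absurd (Finset.mem_insert_self _ _) h) (by
      intro x hx
      rw [if_neg]
      rintro rfl
      exact hx (Finset.mem_insert_self _ _))
    (fun e he => ⟨fun f hf => Finset.mem_insert_of_mem ((mem_touched X Y E e he).1 f hf),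
      fun f hf => Finset.mem_insert_of_mem ((mem_touched X Y E e he).2 f hf)⟩)
  refine ⟨c, ?_, h2⟩
  have := h1 z
  rw [if_pos rfl, Finset.mem_erase, not_and_or, not_not] at this
  rcases this with h | h
  · exact h
  · exact absurd (Finset.mem_univ _) h

open Classical in
theorem rooted (gg : ℕ → FreeGroup ℕ) (ia ja : ℕ → Fin 11) (n : ℕ) :
    ∀ (E : Finset (FreeGroup ℕ × ℕ)) (M : Finset ℕ), E.card + M.card = n →
      (∀ k ∈ M, X k = ∅) → (∀ k ∈ M, Low k (gg k)) →
      ∃ c : FreeGroup ℕ → Fin 11,
        (∀ k ∈ M, c (FreeGroup.of k) = ia k ∧ c ((FreeGroup.of k)⁻¹ * gg k) = ja k) ∧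
        ∀ e ∈ E, ∀ x ∈ X e.2, ∀ y ∈ Y e.2,
          ¬ (c (x * (FreeGroup.of e.2 * e.1)) = col e.2 ∧ c (y * e.1) = col e.2) := by
  induction n using Nat.strong_induction_on with
  | _ n ih =>
  intro E M hn hM hgg
  by_cases hcase : ∃ k ∈ M, (∀ e ∈ E, e.2 ≤ k) ∧ ∀ k' ∈ M, k' ≤ k
  · -- the highest level is a task
    obtain ⟨k, hk, hkE, hkM⟩ := hcase
    obtain ⟨c0, h01, h02⟩ := ih (E.card + (M.erase k).card) (by
        rw [← hn, Finset.card_erase_of_mem hk]
        have := Finset.card_pos.2 ⟨k, hk⟩
        omega) E (M.erase k) rfl (fun k' hk' => hM k' (Finset.mem_of_mem_erase hk'))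
        (fun k' hk' => hgg k' (Finset.mem_of_mem_erase hk'))
    obtain ⟨c1, h11, h12⟩ := one_pre col X Y hXc hYc hX hY E (ia k) (FreeGroup.of k)
    obtain ⟨c2, h21, h22⟩ := one_pre col X Y hXc hYc hX hY E (ja k) ((FreeGroup.of k)⁻¹ * gg k)
    set P1 : FreeGroup ℕ → Prop := fun y => Low k (y * (FreeGroup.of k)⁻¹) with hP1
    set P2 : FreeGroup ℕ → Prop := fun y => Low k (y * ((FreeGroup.of k)⁻¹ * gg k)⁻¹) with hP2
    have hP1' : ∀ f y, Low k f → (P1 (f * y) ↔ P1 y) := by
      intro f y hf
      simp only [hP1, mul_assoc]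
      exact low_mul_iff hf _
    have hP2' : ∀ f y, Low k f → (P2 (f * y) ↔ P2 y) := by
      intro f y hf
      simp only [hP2, mul_assoc]
      exact low_mul_iff hf _
    have hlow1 : ∀ y, Low k y → ¬ P1 y := by
      intro y hy h
      have h1 := ex_low h
      rw [map_mul, map_inv, ex_low hy, ex_of, one_mul] at h1
      have := congrArg Multiplicative.toAdd h1
      simp at this
    have hlow2 : ∀ y, Low k y → ¬ P2 y := by
      intro y hy h
      have h1 := ex_low h
      rw [map_mul, map_inv, map_mul, map_inv, ex_low hy, ex_of, ex_low (hgg k hk)] at h1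
      have := congrArg Multiplicative.toAdd h1
      simp at this
    refine ⟨fun y => if P1 y then c1 y else if P2 y then c2 y else c0 y, ?_, ?_⟩
    · intro k' hk'
      by_cases hkk : k' = k
      · subst hkk
        refine ⟨?_, ?_⟩
        · have : P1 (FreeGroup.of k') := by
            simp only [hP1, mul_inv_cancel]; exact Low.one _
          simp only [if_pos this]
          exact h11
        · have h1 : ¬ P1 ((FreeGroup.of k')⁻¹ * gg k') := by
            intro h
            have h1 := ex_low h
            rw [map_mul, map_mul, map_inv, ex_low (hgg k' hk'), ex_of] at h1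
            have := congrArg Multiplicative.toAdd h1
            simp at this
          have h2 : P2 ((FreeGroup.of k')⁻¹ * gg k') := by
            simp only [hP2, mul_inv_cancel]; exact Low.one _
          simp only [if_neg h1, if_pos h2]
          exact h21
      · have hlt : k' < k := lt_of_le_of_ne (hkM k' hk') hkk
        have ha : Low k (FreeGroup.of k') := Low.of hlt
        have hb : Low k ((FreeGroup.of k')⁻¹ * gg k') := ha.inv.mul ((hgg k' hk').mono hlt.le)
        simp only [if_neg (hlow1 _ ha), if_neg (hlow2 _ ha), if_neg (hlow1 _ hb),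
          if_neg (hlow2 _ hb)]
        exact h01 k' (Finset.mem_erase.2 ⟨hkk, hk'⟩)
    · intro e he x hx y hy
      have hek : e.2 < k := by
        apply lt_of_le_of_ne (hkE e he)
        intro h
        rw [h, hM k hk] at hx
        exact absurd hx (Finset.notMem_empty x)
      have hx' : Low k x := (hX _ x hx).mono hek.le
      have hy' : Low k y := (hY _ y hy).mono hek.le
      have hof : Low k (FreeGroup.of e.2) := Low.of hek
      have e1 : P1 (x * (FreeGroup.of e.2 * e.1)) ↔ P1 e.1 := by
        rw [hP1' _ _ hx', hP1' _ _ hof]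
      have e2 : P2 (x * (FreeGroup.of e.2 * e.1)) ↔ P2 e.1 := by
        rw [hP2' _ _ hx', hP2' _ _ hof]
      have e3 : P1 (y * e.1) ↔ P1 e.1 := hP1' _ _ hy'
      have e4 : P2 (y * e.1) ↔ P2 e.1 := hP2' _ _ hy'
      by_cases g1 : P1 e.1
      · simp only [if_pos (e1.2 g1), if_pos (e3.2 g1)]
        exact h12 e he x hx y hy
      · by_cases g2 : P2 e.1
        · simp only [if_neg (fun h => g1 (e1.1 h)), if_neg (fun h => g1 (e3.1 h)),
            if_pos (e2.2 g2), if_pos (e4.2 g2)]
          exact h22 e he x hx y hy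
        · simp only [if_neg (fun h => g1 (e1.1 h)), if_neg (fun h => g1 (e3.1 h)),
            if_neg (fun h => g2 (e2.1 h)), if_neg (fun h => g2 (e4.1 h))]
          exact h02 e he x hx y hy
  · rcases E.eq_empty_or_nonempty with hE0 | hne
    · rcases M.eq_empty_or_nonempty with hM0 | hMne
      · refine ⟨fun _ => 0, ?_, ?_⟩
        · rw [hM0]; intro k hk; exact absurd hk (Finset.notMem_empty k)
        · rw [hE0]; intro e he; exact absurd he (Finset.notMem_empty e)
      · exfalso
        apply hcase
        obtain ⟨k, hk, hmax⟩ := Finset.exists_max_image M (fun e => e) hMne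
        refine ⟨k, hk, ?_, hmax⟩
        rw [hE0]; intro e he; exact absurd he (Finset.notMem_empty e)
    · obtain ⟨e, he, hmax⟩ := Finset.exists_max_image E (fun e => e.2) hne
      obtain ⟨g, k⟩ := e
      have hMlt : ∀ k' ∈ M, k' < k := by
        by_contra hcon
        push Not at hcon
        obtain ⟨k', hk', hkk⟩ := hcon
        apply hcase
        obtain ⟨k0, hk0, hmax0⟩ := Finset.exists_max_image M (fun e => e) ⟨k', hk'⟩
        exact ⟨k0, hk0, fun e he => (hmax e he).trans (hkk.trans (hmax0 k' hk')), hmax0⟩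
      set i := col k with hi
      set S : FreeGroup ℕ → Prop := fun x => Last k (x * g⁻¹) with hS
      have S_head : ∀ f ∈ X k, S (f * (FreeGroup.of k * g)) := by
        intro f hf
        have h1 : f * (FreeGroup.of k * g) * g⁻¹ = f * FreeGroup.of k := by group
        simp only [hS, h1]
        rw [last_low_mul k f _ (hX k f hf)]
        exact last_of k
      have S_tail : ∀ f ∈ Y k, ¬ S (f * g) := by
        intro f hf h
        simp only [hS, mul_inv_cancel_right] at h
        rw [← mul_one f, last_low_mul k f 1 (hY k f hf)] at h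
        exact not_last_one k h
      have S_other_tail : ∀ e' ∈ E, ∀ f ∈ Y e'.2, (S (f * e'.1) ↔ S e'.1) := by
        intro e' he' f hf
        simp only [hS, mul_assoc]
        apply last_low_mul
        intro p hp
        exact lt_of_lt_of_le (hY _ f hf p hp) (hmax e' he')
      have S_other_head : ∀ e' ∈ E, e' ≠ (g, k) → ∀ f ∈ X e'.2,
          (S (f * (FreeGroup.of e'.2 * e'.1)) ↔ S e'.1) := by
        intro e' he' hne' f hf
        simp only [hS, mul_assoc]
        rw [last_low_mul]
        swap
        · intro p hp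
          exact lt_of_lt_of_le (hX _ f hf p hp) (hmax e' he')
        have : (FreeGroup.of e'.2 : FreeGroup ℕ) = FreeGroup.mk [(e'.2, true)] := rfl
        rw [this]
        apply last_mul_letter
        by_cases hk : e'.2 = k
        · right
          refine ⟨?_, by rw [hk]⟩
          intro h1
          apply hne'
          have h2 : e'.1 = g := by
            rwa [mul_inv_eq_one] at h1
          exact Prod.ext h2 hk
        · left; exact hk
      have S_low : ∀ f, Low k f → (S f ↔ S 1) := by
        intro f hf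
        simp only [hS]
        rw [last_low_mul k f _ hf, one_mul]
      have hE1c : (E.filter (fun e' => e' ≠ (g, k))).card + M.card < n := by
        rw [← hn]
        apply Nat.add_lt_add_right
        apply Finset.card_lt_card
        refine ⟨Finset.filter_subset _ _, ?_⟩
        intro hsub
        have := hsub he
        rw [Finset.mem_filter] at this
        exact this.2 rfl
      set E1 := E.filter (fun e' => e' ≠ (g, k)) with hE1
      obtain ⟨c0, h01, h02⟩ := ih _ hE1c E1 M rfl hM hgg
      set Y' : Finset (FreeGroup ℕ) := (Y k).image (fun f => f * g) with hY'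
      have hY'c : Y'.card ≤ 11 := Finset.card_image_le.trans (hYc k)
      set X' : Finset (FreeGroup ℕ) := (X k).image (fun f => f * (FreeGroup.of k * g)) with hX'
      have hX'c : X'.card ≤ 11 := Finset.card_image_le.trans (hXc k)
      -- gluing
      have glue : ∀ c1 c2 : FreeGroup ℕ → Fin 11,
          (∀ e ∈ E1, ∀ x ∈ X e.2, ∀ y ∈ Y e.2,
            ¬ (c1 (x * (FreeGroup.of e.2 * e.1)) = col e.2 ∧ c1 (y * e.1) = col e.2)) →
          (∀ e ∈ E1, ∀ x ∈ X e.2, ∀ y ∈ Y e.2,
            ¬ (c2 (x * (FreeGroup.of e.2 * e.1)) = col e.2 ∧ c2 (y * e.1) = col e.2)) →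
          ((∀ f ∈ X k, c2 (f * (FreeGroup.of k * g)) ≠ i) ∨ ∀ f ∈ Y k, c1 (f * g) ≠ i) →
          ∀ e ∈ E, ∀ x ∈ X e.2, ∀ y ∈ Y e.2,
              ¬ ((if S (x * (FreeGroup.of e.2 * e.1)) then c2 (x * (FreeGroup.of e.2 * e.1))
                else c1 (x * (FreeGroup.of e.2 * e.1))) = col e.2 ∧
                (if S (y * e.1) then c2 (y * e.1) else c1 (y * e.1)) = col e.2) := by
        intro c1 c2 hc1 hc2 hlast e' he' x hx y hy
        by_cases hee : e' = (g, k)
        · subst hee
          rintro ⟨h3, h4⟩
          simp only [if_pos (S_head x hx)] at h3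
          simp only [if_neg (S_tail y hy)] at h4
          rcases hlast with h5 | h5
          · exact h5 x hx h3
          · exact h5 y hy h4
        · have hmem : e' ∈ E1 := Finset.mem_filter.2 ⟨he', hee⟩
          by_cases hSe : S e'.1
          · have ha := (S_other_head e' he' hee x hx).2 hSe
            have hb := (S_other_tail e' he' y hy).2 hSe
            simp only [if_pos ha, if_pos hb]
            exact hc2 e' hmem x hx y hy
          · have ha := fun h => hSe ((S_other_head e' he' hee x hx).1 h)
            have hb := fun h => hSe ((S_other_tail e' he' y hy).1 h)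
            simp only [if_neg ha, if_neg hb]
            exact hc1 e' hmem x hx y hy
      by_cases h1S : S 1
      · obtain ⟨c1, h11, h12⟩ := one_forbidden col X Y hXc hYc hX hY E1 i Y' hY'c
        refine ⟨fun y => if S y then c0 y else c1 y, ?_, ?_⟩
        · intro k' hk'
          have ha : Low k (FreeGroup.of k') := Low.of (hMlt k' hk')
          have hb : Low k ((FreeGroup.of k')⁻¹ * gg k') :=
            ha.inv.mul ((hgg k' hk').mono (hMlt k' hk').le)
          simp only [if_pos ((S_low _ ha).2 h1S), if_pos ((S_low _ hb).2 h1S)]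
          exact h01 k' hk'
        · refine glue c1 c0 h12 h02 (Or.inr ?_)
          intro f hf
          exact h11 _ (Finset.mem_image_of_mem (fun f => f * g) hf)
      · obtain ⟨c2, h21, h22⟩ := one_forbidden col X Y hXc hYc hX hY E1 i X' hX'c
        refine ⟨fun y => if S y then c2 y else c0 y, ?_, ?_⟩
        · intro k' hk'
          have ha : Low k (FreeGroup.of k') := Low.of (hMlt k' hk')
          have hb : Low k ((FreeGroup.of k')⁻¹ * gg k') :=
            ha.inv.mul ((hgg k' hk').mono (hMlt k' hk').le)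
          simp only [if_neg (fun h => h1S ((S_low _ ha).1 h)),
            if_neg (fun h => h1S ((S_low _ hb).1 h))]
          exact h01 k' hk'
        · refine glue c0 c2 h02 h22 (Or.inl ?_)
          intro f hf
          exact h21 _ (Finset.mem_image_of_mem (fun f => f * (FreeGroup.of k * g)) hf)

theorem exists_coloring2 (gg : ℕ → FreeGroup ℕ) (ia ja : ℕ → Fin 11) (M : Set ℕ)
    (hM : ∀ k ∈ M, X k = ∅) (hgg : ∀ k ∈ M, Low k (gg k)) :
    ∃ c : FreeGroup ℕ → Fin 11,
      (∀ k ∈ M, c (FreeGroup.of k) = ia k ∧ c ((FreeGroup.of k)⁻¹ * gg k) = ja k) ∧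
      ∀ (g : FreeGroup ℕ) (k : ℕ), ∀ x ∈ X k, ∀ y ∈ Y k,
      ¬ (c (x * (FreeGroup.of k * g)) = col k ∧ c (y * g) = col k) := by
  classical
  set t : (FreeGroup ℕ × ℕ) ⊕ ℕ → Set (FreeGroup ℕ → Fin 11) := fun s => Sum.elim (fun e =>
    {c | ∀ x ∈ X e.2, ∀ y ∈ Y e.2,
      ¬ (c (x * (FreeGroup.of e.2 * e.1)) = col e.2 ∧ c (y * e.1) = col e.2)})
    (fun k => {c | k ∈ M → c (FreeGroup.of k) = ia k ∧ c ((FreeGroup.of k)⁻¹ * gg k) = ja k}) s
    with ht
  have h0 : ∀ (x : FreeGroup ℕ) (i : Fin 11), IsClopen {c : FreeGroup ℕ → Fin 11 | c x = i} := by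
    intro x i
    have hx : Continuous (fun c : FreeGroup ℕ → Fin 11 => c x) := continuous_apply x
    exact (isClopen_discrete ({i} : Set (Fin 11))).preimage hx
  have hclosed : ∀ e, IsClosed (t e) := by
    rintro (e | k)
    · have : t (Sum.inl e) = ⋂ x ∈ X e.2, ⋂ y ∈ Y e.2, {c : FreeGroup ℕ → Fin 11 |
          ¬ (c (x * (FreeGroup.of e.2 * e.1)) = col e.2 ∧ c (y * e.1) = col e.2)} := by
        ext c
        simp only [ht, Sum.elim_inl, Set.mem_ofPred_eq, Set.mem_iInter]
      rw [this]
      apply isClosed_biInter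
      intro x _
      apply isClosed_biInter
      intro y _
      apply isClosed_compl_iff.2
      exact (h0 (x * (FreeGroup.of e.2 * e.1)) _).2.inter (h0 (y * e.1) _).2
    · by_cases hk : k ∈ M
      · have : t (Sum.inr k) = {c : FreeGroup ℕ → Fin 11 | c (FreeGroup.of k) = ia k} ∩
            {c : FreeGroup ℕ → Fin 11 | c ((FreeGroup.of k)⁻¹ * gg k) = ja k} := by
          ext c
          simp only [ht, Sum.elim_inr, Set.mem_ofPred_eq, Set.mem_inter_iff]
          exact ⟨fun h => h hk, fun h _ => h⟩
        rw [this]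
        exact (h0 _ _).1.inter (h0 _ _).1
      · have : t (Sum.inr k) = Set.univ := by
          ext c
          simp only [ht, Sum.elim_inr, Set.mem_ofPred_eq, Set.mem_univ, iff_true]
          exact fun h => absurd h hk
        rw [this]
        exact isClosed_univ
  have hne := isCompact_univ.inter_iInter_nonempty (X := FreeGroup ℕ → Fin 11) t hclosed (by
    intro E
    obtain ⟨c, hc1, hc2⟩ := rooted col X Y hXc hYc hX hY gg ia ja _
      (E.toLeft) (E.toRight.filter (fun k => k ∈ M)) rfl
      (fun k hk => hM k (Finset.mem_filter.1 hk).2) (fun k hk => hgg k (Finset.mem_filter.1 hk).2)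
    refine ⟨c, Set.mem_univ _, ?_⟩
    simp only [Set.mem_iInter]
    rintro (e | k) he
    · exact hc2 e (Finset.mem_toLeft.2 he)
    · intro hk
      exact hc1 k (Finset.mem_filter.2 ⟨Finset.mem_toRight.2 he, hk⟩))
  obtain ⟨c, _, hc⟩ := hne
  refine ⟨c, ?_, ?_⟩
  · intro k hk
    exact (Set.mem_iInter.1 hc (Sum.inr k)) hk
  · intro g k x hx y hy
    exact (Set.mem_iInter.1 hc (Sum.inl (g, k))) x hx y hy
end

/-- the bookkeeping type -/
abbrev Bk := (Fin 11 × Finset (FreeGroup ℕ) × Finset (FreeGroup ℕ)) ⊕ (FreeGroup ℕ × Fin 11 × Fin 11)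

/-- There is a colouring of the free group with eleven colours with the separation property, in
which moreover the product of any two colour classes is the whole group. -/
theorem exists_good2 : ∃ c : FreeGroup ℕ → Fin 11, (∀ (i : Fin 11) (X Y : Finset (FreeGroup ℕ)),
    X.card ≤ 11 → Y.card ≤ 11 →
    ∃ t : FreeGroup ℕ, ∀ g, ∀ x ∈ X, ∀ y ∈ Y, ¬ (c (x * (t * g)) = i ∧ c (y * g) = i)) ∧
    ∀ (i j : Fin 11) (g : FreeGroup ℕ), ∃ a, c a = i ∧ c (a⁻¹ * g) = j := by
  classical
  have : Encodable Bk := Encodable.ofCountable _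
  set ν : ℕ → Option Bk := fun k => Encodable.decode (Nat.unpair k).1 with hν
  set v1 : ℕ → Fin 11 × Finset (FreeGroup ℕ) × Finset (FreeGroup ℕ) := fun k =>
    ((ν k).getD (Sum.inl (0, ∅, ∅))).elim (fun a => a) (fun _ => (0, ∅, ∅)) with hv1
  set v2 : ℕ → FreeGroup ℕ × Fin 11 × Fin 11 := fun k =>
    ((ν k).getD (Sum.inl (0, ∅, ∅))).elim (fun _ => (1, 0, 0)) (fun a => a) with hv2
  set X : ℕ → Finset (FreeGroup ℕ) := fun k =>
    if (v1 k).2.1.card ≤ 11 ∧ ∀ f ∈ (v1 k).2.1, Low k f then (v1 k).2.1 else ∅ with hX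
  set Y : ℕ → Finset (FreeGroup ℕ) := fun k =>
    if (v1 k).2.2.card ≤ 11 ∧ ∀ f ∈ (v1 k).2.2, Low k f then (v1 k).2.2 else ∅ with hY
  set M : Set ℕ := {k | X k = ∅ ∧ Low k (v2 k).1} with hM
  obtain ⟨c, hcM, hc⟩ := exists_coloring2 (fun k => (v1 k).1) X Y
    (by
      intro k
      simp only [hX]
      split_ifs with h
      · exact h.1
      · simp)
    (by
      intro k
      simp only [hY]
      split_ifs with h
      · exact h.1
      · simp)
    (by
      intro k f hf
      simp only [hX] at hf
      split_ifs at hf with h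
      · exact h.2 f hf
      · exact absurd hf (Finset.notMem_empty f))
    (by
      intro k f hf
      simp only [hY] at hf
      split_ifs at hf with h
      · exact h.2 f hf
      · exact absurd hf (Finset.notMem_empty f))
    (fun k => (v2 k).1) (fun k => (v2 k).2.1) (fun k => (v2 k).2.2) M
    (fun k hk => hk.1) (fun k hk => hk.2)
  refine ⟨c, ?_, ?_⟩
  · intro i A B hA hB
    obtain ⟨K1, hK1⟩ := exists_low_bound A
    obtain ⟨K2, hK2⟩ := exists_low_bound B
    set K := max K1 K2 with hK
    set k := Nat.pair (Encodable.encode (Sum.inl (i, A, B) : Bk)) K with hk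
    have hkK : K ≤ k := Nat.right_le_pair _ _
    have hνk : ν k = some (Sum.inl (i, A, B)) := by
      simp only [hν, hk, Nat.unpair_pair, Encodable.encodek]
    have hv1k : v1 k = (i, A, B) := by simp only [hv1, hνk, Option.getD_some, Sum.elim_inl]
    have hXk : X k = A := by
      simp only [hX, hv1k]
      rw [if_pos]
      exact ⟨hA, hK1 k ((le_max_left _ _).trans hkK)⟩
    have hYk : Y k = B := by
      simp only [hY, hv1k]
      rw [if_pos]
      exact ⟨hB, hK2 k ((le_max_right _ _).trans hkK)⟩
    refine ⟨FreeGroup.of k, ?_⟩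
    intro g x hx y hy
    have := hc g k x (by rw [hXk]; exact hx) y (by rw [hYk]; exact hy)
    simp only [hv1k] at this
    exact this
  · intro i j g
    obtain ⟨K, hK⟩ := exists_low_bound {g}
    set k := Nat.pair (Encodable.encode (Sum.inr (g, i, j) : Bk)) K with hk
    have hkK : K ≤ k := Nat.right_le_pair _ _
    have hνk : ν k = some (Sum.inr (g, i, j)) := by
      simp only [hν, hk, Nat.unpair_pair, Encodable.encodek]
    have hv1k : v1 k = (0, ∅, ∅) := by simp only [hv1, hνk, Option.getD_some, Sum.elim_inr]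
    have hv2k : v2 k = (g, i, j) := by simp only [hv2, hνk, Option.getD_some, Sum.elim_inr]
    have hkM : k ∈ M := by
      refine ⟨?_, ?_⟩
      · simp only [hX, hv1k]
        simp
      · rw [hv2k]
        exact hK k hkK g (Finset.mem_singleton_self g)
    have := hcM k hkM
    simp only [hv2k] at this
    exact ⟨FreeGroup.of k, this.1, this.2⟩

end Pool.Agent.H42R3.TwoSided
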