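import Mathlib

set_option autoImplicit false

namespace Pool.Agent.H42R3.FS
open MvPolynomial

/-! ### The `p⁻¹`-linear projection of a polynomial ring over `ZMod p` -/

section poly
variable {ι : Type} (p : ℕ)

/-- The additive map which sends `X^(pβ)` to `X^β` and the other monomials to `0`. -/
noncomputable def pr (f : MvPolynomial ι (ZMod p)) : MvPolynomial ι (ZMod p) := by
  classical
  exact ∑ α ∈ f.support, if ∀ i, p ∣ α i then
    monomial (α.mapRange (fun n => n / p) (Nat.zero_div p)) (coeff α f) else 0

lemma coeff_pr (hp : 0 < p) (f : MvPolynomial ι (ZMod p)) (β : ι →₀ ℕ) :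
    coeff β (pr p f) = coeff (p • β) f := by
  classical
  unfold pr
  rw [coeff_sum]
  by_cases hβ : p • β ∈ f.support
  · rw [Finset.sum_eq_single (p • β)]
    · have h1 : ∀ i, p ∣ (p • β) i := fun i => ⟨β i, by simp⟩
      rw [if_pos h1, coeff_monomial, if_pos]
      ext i
      simp [Nat.mul_div_cancel_left _ hp]
    · intro α _ hα
      split_ifs with h1
      · rw [coeff_monomial, if_neg]
        intro h2
        apply hα
        ext i
        rw [← h2]
        simp only [Finsupp.mapRange_apply, Finsupp.smul_apply, smul_eq_mul]
        exact (Nat.mul_div_cancel' (h1 i)).symm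
      · simp
    · intro h; exact absurd hβ h
  · rw [notMem_support_iff.1 hβ]
    apply Finset.sum_eq_zero
    intro α hα
    split_ifs with h1
    · rw [coeff_monomial, if_neg]
      intro h2
      apply hβ
      have : α = p • β := by
        ext i
        rw [← h2]
        simp only [Finsupp.mapRange_apply, Finsupp.smul_apply, smul_eq_mul]
        exact (Nat.mul_div_cancel' (h1 i)).symm
      rw [← this]; exact hα
    · simp

lemma pr_add (hp : 0 < p) (f g : MvPolynomial ι (ZMod p)) : pr p (f + g) = pr p f + pr p g := by
  ext β
  simp only [coeff_pr p hp, coeff_add]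

lemma pr_zero : pr p (0 : MvPolynomial ι (ZMod p)) = 0 := by
  classical
  unfold pr
  simp

lemma pr_pow_mul [hp : Fact p.Prime] (a b : MvPolynomial ι (ZMod p)) :
    pr p (a ^ p * b) = a * pr p b := by
  have hp0 : 0 < p := hp.out.pos
  induction a using MvPolynomial.induction_on'' with
  | C c =>
    ext β
    rw [coeff_pr p hp0, ← C_pow, ZMod.pow_card, coeff_C_mul, coeff_C_mul, coeff_pr p hp0]
  | monomial_add s c f _ _ h1 h2 =>
    rw [add_pow_char, add_mul, pr_add p hp0, h1, h2, add_mul]
  | mul_X f i h =>
    have key : ∀ g : MvPolynomial ι (ZMod p), pr p (X i ^ p * g) = X i * pr p g := by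
      intro g
      ext β
      have e1 : (X i : MvPolynomial ι (ZMod p)) ^ p = monomial (p • Finsupp.single i 1) 1 := by
        rw [X_pow_eq_monomial]; simp
      have e2 : (X i : MvPolynomial ι (ZMod p)) = monomial (Finsupp.single i 1) 1 := rfl
      rw [coeff_pr p hp0, e1, coeff_monomial_mul', e2, coeff_monomial_mul', one_mul, one_mul]
      have hiff : (p • Finsupp.single i 1 ≤ p • β) ↔ (Finsupp.single i 1 ≤ β) := by
        constructor
        · intro h j
          have := h j
          simp only [Finsupp.smul_apply, smul_eq_mul] at this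
          exact Nat.le_of_mul_le_mul_left this hp0
        · intro h j
          simp only [Finsupp.smul_apply, smul_eq_mul]
          exact Nat.mul_le_mul_left p (h j)
      by_cases hle : Finsupp.single i 1 ≤ β
      · rw [if_pos hle, if_pos (hiff.2 hle), coeff_pr p hp0]
        congr 1
        ext j
        simp only [Finsupp.coe_tsub, Pi.sub_apply, Finsupp.smul_apply, smul_eq_mul]
        rw [Nat.mul_sub]
      · rw [if_neg hle, if_neg (fun h => hle (hiff.1 h))]
    rw [mul_pow, mul_assoc, mul_comm (f ^ p), mul_assoc, key, mul_comm b, h]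
    ring

end poly

end Pool.Agent.H42R3.FS
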