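import Pool.Agent.H42R3.FS1

set_option autoImplicit false

namespace Pool.Agent.H42R3.FS
open MvPolynomial

variable (p : ℕ) [hp : Fact p.Prime]

/-- The polynomial ring. -/
abbrev A := MvPolynomial (ℕ ⊕ ℕ) (ZMod p)

/-- The fraction field. -/
abbrev L := FractionRing (A p)

/-- The two families of variables. -/
noncomputable def u (j : ℕ) : A p := X (Sum.inl j)
noncomputable def z (j : ℕ) : A p := X (Sum.inr j)

instance : CharP (L p) p := charP_of_injective_algebraMap
  (IsFractionRing.injective (A p) (L p)) p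

/-- the involution on polynomials -/
noncomputable def sA : A p →ₐ[ZMod p] A p :=
  aeval (Sum.elim (fun j => z p j ^ p - u p j) (fun j => z p j))

lemma sA_u (j : ℕ) : sA p (u p j) = z p j ^ p - u p j := by simp [sA, u]
lemma sA_z (j : ℕ) : sA p (z p j) = z p j := by simp [sA, z]

lemma sA_sA (f : A p) : sA p (sA p f) = f := by
  have : (sA p).comp (sA p) = AlgHom.id _ _ := by
    apply MvPolynomial.algHom_ext
    rintro (j | j)
    · change sA p (sA p (u p j)) = u p j
      rw [sA_u, map_sub, map_pow, sA_z, sA_u]; ring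
    · change sA p (sA p (z p j)) = z p j
      rw [sA_z, sA_z]
  exact DFunLike.congr_fun this f

/-- the involution as a ring equivalence -/
noncomputable def sE : A p ≃+* A p where
  toFun := sA p
  invFun := sA p
  left_inv := sA_sA p
  right_inv := sA_sA p
  map_mul' := map_mul _
  map_add' := map_add _

/-- the involution on the field -/
noncomputable def sg : L p ≃+* L p := IsFractionRing.ringEquivOfRingEquiv (sE p)

lemma sg_algebraMap (f : A p) : sg p (algebraMap (A p) (L p) f) = algebraMap (A p) (L p) (sA p f) := by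
  unfold sg
  rw [IsFractionRing.ringEquivOfRingEquiv_algebraMap]
  rfl

lemma sg_sg (x : L p) : sg p (sg p x) = x := by
  obtain ⟨a, b, _, rfl⟩ := IsFractionRing.div_surjective (A := A p) x
  simp only [map_div₀, sg_algebraMap, sA_sA]

/-- the `p⁻¹`-linear map on the fraction field -/
noncomputable def psi0 (x : L p) : L p :=
  algebraMap (A p) (L p) (pr p ((IsLocalization.sec (nonZeroDivisors (A p)) x).1 *
    ((IsLocalization.sec (nonZeroDivisors (A p)) x).2 : A p) ^ (p - 1))) /
      algebraMap (A p) (L p) ((IsLocalization.sec (nonZeroDivisors (A p)) x).2 : A p)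

lemma psi0_div (a b : A p) (hb : b ≠ 0) :
    psi0 p (algebraMap (A p) (L p) a / algebraMap (A p) (L p) b) =
      algebraMap (A p) (L p) (pr p (a * b ^ (p - 1))) / algebraMap (A p) (L p) b := by
  set x := algebraMap (A p) (L p) a / algebraMap (A p) (L p) b with hx
  unfold psi0
  set c := (IsLocalization.sec (nonZeroDivisors (A p)) x).1 with hc
  set d : A p := ((IsLocalization.sec (nonZeroDivisors (A p)) x).2 : A p) with hd
  have hd0 : d ≠ 0 := nonZeroDivisors.ne_zero (IsLocalization.sec (nonZeroDivisors (A p)) x).2.2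
  have hbL : algebraMap (A p) (L p) b ≠ 0 := by
    rwa [Ne, IsFractionRing.to_map_eq_zero_iff]
  have hdL : algebraMap (A p) (L p) d ≠ 0 := by
    rwa [Ne, IsFractionRing.to_map_eq_zero_iff]
  have h1 : x * algebraMap (A p) (L p) d = algebraMap (A p) (L p) c :=
    IsLocalization.sec_spec (nonZeroDivisors (A p)) x
  have h2 : a * d = c * b := by
    apply IsFractionRing.injective (A p) (L p)
    rw [map_mul, map_mul, ← h1, hx]
    field_simp
  rw [div_eq_div_iff hdL hbL, ← map_mul, ← map_mul]
  congr 1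
  have hp1 : p - 1 + 1 = p := Nat.sub_add_cancel hp.out.one_lt.le
  calc pr p (c * d ^ (p - 1)) * b = b * pr p (c * d ^ (p - 1)) := mul_comm _ _
    _ = pr p (b ^ p * (c * d ^ (p - 1))) := (pr_pow_mul p _ _).symm
    _ = pr p (d ^ p * (a * b ^ (p - 1))) := by
        congr 1
        have e1 : b ^ p = b ^ (p - 1) * b := by rw [← pow_succ, hp1]
        have e2 : d ^ p = d ^ (p - 1) * d := by rw [← pow_succ, hp1]
        rw [e1, e2]
        calc b ^ (p - 1) * b * (c * d ^ (p - 1)) = (c * b) * (b ^ (p - 1) * d ^ (p - 1)) := by ring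
          _ = (a * d) * (b ^ (p - 1) * d ^ (p - 1)) := by rw [h2]
          _ = _ := by ring
    _ = d * pr p (a * b ^ (p - 1)) := pr_pow_mul p _ _
    _ = _ := mul_comm _ _

lemma psi0_algebraMap (a : A p) :
    psi0 p (algebraMap (A p) (L p) a) = algebraMap (A p) (L p) (pr p a) := by
  have := psi0_div p a 1 one_ne_zero
  simpa using this

lemma psi0_add (x y : L p) : psi0 p (x + y) = psi0 p x + psi0 p y := by
  obtain ⟨a, b, hb, rfl⟩ := IsFractionRing.div_surjective (A := A p) x
  obtain ⟨c, d, hd, rfl⟩ := IsFractionRing.div_surjective (A := A p) y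
  have hb0 : b ≠ 0 := nonZeroDivisors.ne_zero hb
  have hd0 : d ≠ 0 := nonZeroDivisors.ne_zero hd
  have hbL : algebraMap (A p) (L p) b ≠ 0 := by
    rwa [Ne, IsFractionRing.to_map_eq_zero_iff]
  have hdL : algebraMap (A p) (L p) d ≠ 0 := by
    rwa [Ne, IsFractionRing.to_map_eq_zero_iff]
  have hp1 : p - 1 + 1 = p := Nat.sub_add_cancel hp.out.one_lt.le
  have h1 : algebraMap (A p) (L p) a / algebraMap (A p) (L p) b +
      algebraMap (A p) (L p) c / algebraMap (A p) (L p) d =
      algebraMap (A p) (L p) (a * d + b * c) / algebraMap (A p) (L p) (b * d) := by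
    rw [div_add_div _ _ hbL hdL, map_add, map_mul, map_mul, map_mul]
  rw [h1, psi0_div p _ _ (mul_ne_zero hb0 hd0), psi0_div p _ _ hb0, psi0_div p _ _ hd0,
    div_add_div _ _ hbL hdL, ← map_mul, ← map_mul, ← map_mul, ← map_add]
  congr 2
  have e1 : b ^ p = b ^ (p - 1) * b := by rw [← pow_succ, hp1]
  have e2 : d ^ p = d ^ (p - 1) * d := by rw [← pow_succ, hp1]
  have h3 : (a * d + b * c) * (b * d) ^ (p - 1) =
      d ^ p * (a * b ^ (p - 1)) + b ^ p * (c * d ^ (p - 1)) := by
    rw [e1, e2, mul_pow]; ring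
  rw [h3, pr_add p hp.out.pos, pr_pow_mul, pr_pow_mul]
  ring

lemma psi0_pow_mul (x y : L p) : psi0 p (x ^ p * y) = x * psi0 p y := by
  obtain ⟨a, b, hb, rfl⟩ := IsFractionRing.div_surjective (A := A p) x
  obtain ⟨c, d, hd, rfl⟩ := IsFractionRing.div_surjective (A := A p) y
  have hb0 : b ≠ 0 := nonZeroDivisors.ne_zero hb
  have hd0 : d ≠ 0 := nonZeroDivisors.ne_zero hd
  have hbL : algebraMap (A p) (L p) b ≠ 0 := by
    rwa [Ne, IsFractionRing.to_map_eq_zero_iff]
  have hdL : algebraMap (A p) (L p) d ≠ 0 := by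
    rwa [Ne, IsFractionRing.to_map_eq_zero_iff]
  have hp1 : p - 1 + 1 = p := Nat.sub_add_cancel hp.out.one_lt.le
  have h1 : (algebraMap (A p) (L p) a / algebraMap (A p) (L p) b) ^ p *
      (algebraMap (A p) (L p) c / algebraMap (A p) (L p) d) =
      algebraMap (A p) (L p) (a ^ p * c) / algebraMap (A p) (L p) (b ^ p * d) := by
    rw [div_pow, div_mul_div_comm, map_mul, map_mul, map_pow, map_pow]
  rw [h1, psi0_div p _ _ (mul_ne_zero (pow_ne_zero _ hb0) hd0), psi0_div p _ _ hd0]
  have h3 : a ^ p * c * (b ^ p * d) ^ (p - 1) =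
      (a * b ^ (p - 1)) ^ p * (c * d ^ (p - 1)) := by
    rw [mul_pow, mul_pow, ← pow_mul, ← pow_mul, mul_comm p (p - 1)]; ring
  rw [h3, pr_pow_mul, div_mul_div_comm, ← map_mul, ← map_mul]
  have e1 : b ^ p = b ^ (p - 1) * b := by rw [← pow_succ, hp1]
  rw [e1, div_eq_div_iff, ← map_mul, ← map_mul]
  · congr 1; ring
  · rw [Ne, IsFractionRing.to_map_eq_zero_iff]
    exact mul_ne_zero (mul_ne_zero (pow_ne_zero _ hb0) hb0) hd0
  · rw [Ne, IsFractionRing.to_map_eq_zero_iff]
    exact mul_ne_zero hb0 hd0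

lemma pr_one : pr p (1 : A p) = 1 := by
  ext β
  rw [coeff_pr p hp.out.pos]
  by_cases h : β = 0
  · subst h; simp
  · have h0 : ¬ (0 : (ℕ ⊕ ℕ) →₀ ℕ) = p • β := by
      intro h'
      apply h
      ext i
      have := DFunLike.congr_fun h' i
      simp only [Finsupp.coe_zero, Pi.zero_apply, Finsupp.smul_apply, smul_eq_mul] at this
      rcases Nat.mul_eq_zero.1 this.symm with h1 | h1
      · exact absurd h1 hp.out.ne_zero
      · simpa using h1
    have h0' : ¬ (0 : (ℕ ⊕ ℕ) →₀ ℕ) = β := fun h' => h h'.symm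
    rw [coeff_one, coeff_one, if_neg h0, if_neg h0']


lemma psi0_one : psi0 p (1 : L p) = 1 := by
  have := psi0_algebraMap p 1
  rw [map_one, pr_one, map_one] at this
  exact this

end Pool.Agent.H42R3.FS
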