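import Pool.Agent.H42R3.FS2

set_option autoImplicit false

namespace Pool.Agent.H42R3.FS
open MvPolynomial

variable (p : ℕ) [hp : Fact p.Prime]

/-- The subfield of quotients of elements of a subalgebra. -/
noncomputable def fr (S : Subalgebra (ZMod p) (A p)) : Subfield (L p) where
  carrier := {x | ∃ f ∈ S, ∃ g ∈ S, g ≠ 0 ∧ x = algebraMap (A p) (L p) f / algebraMap (A p) (L p) g}
  mul_mem' := by
    rintro x y ⟨f, hf, g, hg, hg0, rfl⟩ ⟨f', hf', g', hg', hg0', rfl⟩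
    exact ⟨f * f', S.mul_mem hf hf', g * g', S.mul_mem hg hg', mul_ne_zero hg0 hg0', by
      rw [div_mul_div_comm, map_mul, map_mul]⟩
  one_mem' := ⟨1, S.one_mem, 1, S.one_mem, one_ne_zero, by simp⟩
  add_mem' := by
    rintro x y ⟨f, hf, g, hg, hg0, rfl⟩ ⟨f', hf', g', hg', hg0', rfl⟩
    refine ⟨f * g' + g * f', S.add_mem (S.mul_mem hf hg') (S.mul_mem hg hf'), g * g',
      S.mul_mem hg hg', mul_ne_zero hg0 hg0', ?_⟩
    rw [div_add_div, map_add, map_mul, map_mul, map_mul]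
    · rwa [Ne, IsFractionRing.to_map_eq_zero_iff]
    · rwa [Ne, IsFractionRing.to_map_eq_zero_iff]
  zero_mem' := ⟨0, S.zero_mem, 1, S.one_mem, one_ne_zero, by simp⟩
  neg_mem' := by
    rintro x ⟨f, hf, g, hg, hg0, rfl⟩
    exact ⟨-f, S.neg_mem hf, g, hg, hg0, by rw [map_neg, neg_div]⟩
  inv_mem' := by
    rintro x ⟨f, hf, g, hg, hg0, rfl⟩
    by_cases h : f = 0
    · exact ⟨0, S.zero_mem, 1, S.one_mem, one_ne_zero, by simp [h]⟩
    · exact ⟨g, hg, f, hf, h, by rw [inv_div]⟩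

lemma mem_fr {S : Subalgebra (ZMod p) (A p)} {x : L p} : x ∈ fr p S ↔
    ∃ f ∈ S, ∃ g ∈ S, g ≠ 0 ∧ x = algebraMap (A p) (L p) f / algebraMap (A p) (L p) g := Iff.rfl

lemma algebraMap_mem_fr {S : Subalgebra (ZMod p) (A p)} {f : A p} (hf : f ∈ S) :
    algebraMap (A p) (L p) f ∈ fr p S := ⟨f, hf, 1, S.one_mem, one_ne_zero, by simp⟩

lemma fr_mono {S T : Subalgebra (ZMod p) (A p)} (h : S ≤ T) : fr p S ≤ fr p T := by
  rintro x ⟨f, hf, g, hg, hg0, rfl⟩
  exact ⟨f, h hf, g, h hg, hg0, rfl⟩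

/-- the index set of the variables generating `L_n` -/
def idx (n : ℕ) : Set (ℕ ⊕ ℕ) := {i | ∀ j, i = Sum.inr j → j < n}

lemma idx_mono {m n : ℕ} (h : m ≤ n) : idx m ⊆ idx n := fun _ hi j hj => (hi j hj).trans_le h

/-- the subfields -/
noncomputable def Ln (n : ℕ) : Subfield (L p) := fr p (supported (ZMod p) (idx n))

lemma Ln_mono : Monotone (Ln p) := fun _ _ h => fr_mono p (supported_mono (idx_mono h))

lemma exists_idx (f : A p) : ∃ n, f ∈ supported (ZMod p) (idx n) := by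
  classical
  refine ⟨(f.vars.sup fun i => Sum.elim (fun _ => 0) (fun j => j) i) + 1, ?_⟩
  rw [mem_supported]
  intro i hi j hj
  have := Finset.le_sup (f := fun i : ℕ ⊕ ℕ => Sum.elim (fun _ => 0) (fun j => j) i) hi
  subst hj
  simp only [Sum.elim_inr] at this
  exact Nat.lt_succ_of_le this

lemma exists_mem_Ln (x : L p) : ∃ n, x ∈ Ln p n := by
  obtain ⟨a, b, hb, rfl⟩ := IsFractionRing.div_surjective (A := A p) x
  obtain ⟨m, hm⟩ := exists_idx p a
  obtain ⟨n, hn⟩ := exists_idx p b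
  exact ⟨max m n, a, supported_mono (idx_mono (le_max_left _ _)) hm, b,
    supported_mono (idx_mono (le_max_right _ _)) hn, nonZeroDivisors.ne_zero hb, rfl⟩

lemma pr_mem {s : Set (ℕ ⊕ ℕ)} {f : A p} (hf : f ∈ supported (ZMod p) s) :
    pr p f ∈ supported (ZMod p) s := by
  classical
  rw [mem_supported] at hf ⊢
  intro i hi
  apply hf
  rw [Finset.mem_coe, mem_vars] at hi ⊢
  obtain ⟨d, hd, hid⟩ := hi
  refine ⟨p • d, ?_, ?_⟩
  · rw [mem_support_iff] at hd ⊢
    rwa [← coeff_pr p hp.out.pos]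
  · rw [Finsupp.mem_support_iff] at hid ⊢
    simp only [Finsupp.smul_apply, smul_eq_mul]
    exact mul_ne_zero hp.out.ne_zero hid

lemma psi0_mem {n : ℕ} {x : L p} (hx : x ∈ Ln p n) : psi0 p x ∈ Ln p n := by
  obtain ⟨f, hf, g, hg, hg0, rfl⟩ := hx
  rw [psi0_div p _ _ hg0]
  exact ⟨_, pr_mem p (Subalgebra.mul_mem _ hf (Subalgebra.pow_mem _ hg _)), g, hg, hg0, rfl⟩

/-- polynomials in which all exponents of `z_m` are divisible by `p` -/
noncomputable def Dm (m : ℕ) : Subalgebra (ZMod p) (A p) where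
  carrier := {f | ∀ α, coeff α f ≠ 0 → p ∣ α (Sum.inr m)}
  mul_mem' := by
    classical
    intro f g hf hg α hα
    have h1 : α ∈ (f * g).support := mem_support_iff.2 hα
    have h2 := support_mul f g h1
    rw [Finset.mem_add] at h2
    obtain ⟨a, ha, b, hb, rfl⟩ := h2
    rw [Finsupp.add_apply]
    exact dvd_add (hf a (mem_support_iff.1 ha)) (hg b (mem_support_iff.1 hb))
  add_mem' := by
    intro f g hf hg α hα
    rw [coeff_add] at hα
    by_cases h : coeff α f = 0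
    · apply hg; rw [h, zero_add] at hα; exact hα
    · exact hf α h
  algebraMap_mem' := by
    classical
    intro r α hα
    rw [algebraMap_eq, coeff_C] at hα
    split_ifs at hα with h
    · rw [← h]; simp
    · exact absurd rfl hα

lemma X_mem_Dm {m : ℕ} {i : ℕ ⊕ ℕ} (hi : i ≠ Sum.inr m) : (X i : A p) ∈ Dm p m := by
  classical
  intro α hα
  rw [coeff_X'] at hα
  split_ifs at hα with h
  · rw [← h, Finsupp.single_apply, if_neg hi]; exact dvd_zero p
  · exact absurd rfl hα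

lemma zpow_mem_Dm {m : ℕ} (j : ℕ) : (z p j ^ p : A p) ∈ Dm p m := by
  classical
  intro α hα
  unfold z at hα
  rw [X_pow_eq_monomial, coeff_monomial] at hα
  split_ifs at hα with h
  · rw [← h, Finsupp.single_apply]; split_ifs <;> simp
  · exact absurd rfl hα

lemma supp_le_Dm (m : ℕ) : supported (ZMod p) (idx m) ≤ Dm p m := by
  apply Algebra.adjoin_le
  rintro _ ⟨i, hi, rfl⟩
  apply X_mem_Dm
  rintro rfl
  exact lt_irrefl _ (hi m rfl)

lemma sA_mem_Dm {m : ℕ} {f : A p} (hf : f ∈ supported (ZMod p) (idx m)) : sA p f ∈ Dm p m := by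
  have h : supported (ZMod p) (idx m) ≤ (Dm p m).comap (sA p) := by
    apply Algebra.adjoin_le
    rintro _ ⟨i, hi, rfl⟩
    change sA p (X i) ∈ Dm p m
    rcases i with j | j
    · change sA p (u p j) ∈ _
      rw [sA_u]
      exact Subalgebra.sub_mem _ (zpow_mem_Dm p j) (X_mem_Dm p (by simp))
    · change sA p (z p j) ∈ _
      rw [sA_z]
      apply X_mem_Dm
      rintro ⟨rfl⟩
      exact lt_irrefl _ (hi m rfl)
  exact h hf

lemma sg_mem_Dm {m : ℕ} {x : L p} (hx : x ∈ Ln p m) : sg p x ∈ fr p (Dm p m) := by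
  obtain ⟨f, hf, g, hg, hg0, rfl⟩ := hx
  rw [map_div₀, sg_algebraMap, sg_algebraMap]
  refine ⟨_, sA_mem_Dm p hf, _, sA_mem_Dm p hg, ?_, rfl⟩
  intro h
  apply hg0
  rw [← sA_sA p g, h, map_zero]

lemma z_not_mem (m : ℕ) : algebraMap (A p) (L p) (z p m) ∉ fr p (Dm p m) := by
  classical
  rintro ⟨f, hf, g, hg, hg0, h⟩
  have hgL : algebraMap (A p) (L p) g ≠ 0 := by
    rwa [Ne, IsFractionRing.to_map_eq_zero_iff]
  have h2 : g * z p m = f := by
    apply IsFractionRing.injective (A p) (L p)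
    rw [map_mul, h]
    field_simp
  obtain ⟨α, hα⟩ := ne_zero_iff.1 hg0
  have h3 : coeff (α + Finsupp.single (Sum.inr m) 1) f = coeff α g := by
    rw [← h2]; unfold z; rw [coeff_mul_X]
  have h4 := hf (α + Finsupp.single (Sum.inr m) 1) (by rw [h3]; exact hα)
  have h5 := hg α hα
  rw [Finsupp.add_apply, Finsupp.single_eq_same] at h4
  have h6 : p ∣ 1 := (Nat.dvd_add_right h5).1 h4
  exact hp.out.one_lt.ne' (Nat.dvd_one.1 h6)

lemma key (m : ℕ) (a : L p) (ha : a ∈ Ln p m) :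
    a + sg p a ≠ algebraMap (A p) (L p) (z p m) := by
  intro h
  apply z_not_mem p m
  rw [← h]
  exact (fr p (Dm p m)).add_mem (fr_mono p (supp_le_Dm p m) ha) (sg_mem_Dm p ha)

lemma u_mem (m : ℕ) : algebraMap (A p) (L p) (u p m) ∈ Ln p 0 := by
  apply algebraMap_mem_fr
  apply Algebra.subset_adjoin
  exact ⟨Sum.inl m, (by intro j hj; cases hj), rfl⟩

lemma z_ne_zero (m : ℕ) : algebraMap (A p) (L p) (z p m) ≠ 0 := by
  rw [Ne, IsFractionRing.to_map_eq_zero_iff]
  exact X_ne_zero _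

lemma sg_u (m : ℕ) : sg p (algebraMap (A p) (L p) (u p m)) =
    algebraMap (A p) (L p) (z p m) ^ p - algebraMap (A p) (L p) (u p m) := by
  rw [sg_algebraMap, sA_u, map_sub, map_pow]

lemma sg_z (m : ℕ) : sg p (algebraMap (A p) (L p) (z p m)) = algebraMap (A p) (L p) (z p m) := by
  rw [sg_algebraMap, sA_z]

lemma sg_theta : sg p (algebraMap (A p) (L p) (u p 0)) ≠ algebraMap (A p) (L p) (u p 0) := by
  intro h
  rw [sg_algebraMap] at h
  have h1 := IsFractionRing.injective (A p) (L p) h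
  rw [sA_u] at h1
  have h2 := congrArg (aeval (Sum.elim (fun _ => (0 : ZMod p)) (fun _ => 1))) h1
  simp [u, z] at h2

/-- all the data used in the construction -/
structure Dat (p : ℕ) where
  L : Type
  fld : Field L
  ch : CharP L p
  Ln : ℕ → Subfield L
  mono : Monotone Ln
  union : ∀ x, ∃ n, x ∈ Ln n
  σ : L →+* L
  invol : ∀ x, σ (σ x) = x
  θ : L
  hθ : σ θ ≠ θ
  ψ : L → L
  ψ_add : ∀ x y, ψ (x + y) = ψ x + ψ y
  ψ_pow : ∀ x y, ψ (x ^ p * y) = x * ψ y
  ψ_one : ψ 1 = 1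
  ψ_mem : ∀ n, ∀ x ∈ Ln n, ψ x ∈ Ln n
  v : L
  hv : v + σ v = 1
  key : ∀ m, ∃ w ∈ Ln 0, ∃ z, w + σ w = z ^ p ∧ ∀ a ∈ Ln m, a + σ a ≠ z

/-- the data exist -/
noncomputable def dat : Dat p where
  L := L p
  fld := inferInstance
  ch := inferInstance
  Ln := Ln p
  mono := Ln_mono p
  union := exists_mem_Ln p
  σ := (sg p : L p →+* L p)
  invol := sg_sg p
  θ := algebraMap (A p) (L p) (u p 0)
  hθ := sg_theta p
  ψ := psi0 p
  ψ_add := psi0_add p
  ψ_pow := psi0_pow_mul p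
  ψ_one := psi0_one p
  ψ_mem := fun _ _ h => psi0_mem p h
  v := algebraMap (A p) (L p) (u p 0) / algebraMap (A p) (L p) (z p 0) ^ p
  hv := by
    change _ + sg p _ = _
    rw [map_div₀, map_pow, sg_z, sg_u]
    have := z_ne_zero p 0
    field_simp
    ring
  key := fun m => ⟨_, u_mem p m, algebraMap (A p) (L p) (z p m), by
    change _ + sg p _ = _
    rw [sg_u]; ring, fun a ha => key p m a ha⟩

end Pool.Agent.H42R3.FS
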