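import Pool.Agent.H42R3.FS3

set_option autoImplicit false
set_option linter.unusedSectionVars false

namespace Pool.Agent.H42R3.FS
open PowerSeries

variable {p : ℕ} [hp : Fact p.Prime] (D : Dat p)

instance : Field D.L := D.fld
instance : CharP D.L p := D.ch

/-- The discrete valuation ring `V`. -/
def V : Subring (PowerSeries D.L) where
  carrier := {f | ∃ n, ∀ i, coeff i f ∈ D.Ln n}
  mul_mem' := by
    rintro f g ⟨m, hm⟩ ⟨n, hn⟩
    refine ⟨max m n, fun i => ?_⟩
    rw [coeff_mul]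
    exact sum_mem fun x _ => mul_mem (D.mono (le_max_left m n) (hm _))
      (D.mono (le_max_right m n) (hn _))
  one_mem' := ⟨0, fun i => by
    rw [coeff_one]; split_ifs
    · exact one_mem _
    · exact zero_mem _⟩
  add_mem' := by
    rintro f g ⟨m, hm⟩ ⟨n, hn⟩
    refine ⟨max m n, fun i => ?_⟩
    rw [map_add]
    exact add_mem (D.mono (le_max_left m n) (hm _)) (D.mono (le_max_right m n) (hn _))
  zero_mem' := ⟨0, fun i => by rw [map_zero]; exact zero_mem _⟩
  neg_mem' := by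
    rintro f ⟨n, hn⟩
    exact ⟨n, fun i => by rw [map_neg]; exact neg_mem (hn i)⟩

lemma mem_V {f : PowerSeries D.L} : f ∈ V D ↔ ∃ n, ∀ i, coeff i f ∈ D.Ln n := Iff.rfl

/-- The ring `R`. -/
def RR : Subring (PowerSeries D.L) where
  carrier := {f | f ∈ V D ∧ D.σ (coeff 0 f) = coeff 0 f}
  mul_mem' := by
    rintro f g ⟨h1, h2⟩ ⟨h3, h4⟩
    refine ⟨mul_mem h1 h3, ?_⟩
    rw [coeff_mul, Finset.Nat.antidiagonal_zero, Finset.sum_singleton, map_mul, h2, h4]
  one_mem' := ⟨one_mem _, by simp⟩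
  add_mem' := by
    rintro f g ⟨h1, h2⟩ ⟨h3, h4⟩
    refine ⟨add_mem h1 h3, ?_⟩
    rw [map_add, map_add, h2, h4]
  zero_mem' := ⟨zero_mem _, by simp⟩
  neg_mem' := by
    rintro f ⟨h1, h2⟩
    refine ⟨neg_mem h1, ?_⟩
    rw [map_neg, map_neg, h2]

variable {D}

lemma mem_RR {f : PowerSeries D.L} : f ∈ RR D ↔ f ∈ V D ∧ D.σ (coeff 0 f) = coeff 0 f := Iff.rfl

lemma RR_le_V : RR D ≤ V D := fun _ h => h.1

lemma C_mem_V (a : D.L) : (C a : PowerSeries D.L) ∈ V D := by
  obtain ⟨n, hn⟩ := D.union a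
  refine ⟨n, fun i => ?_⟩
  rw [coeff_C]; split_ifs
  · exact hn
  · exact zero_mem _

lemma X_mem_V : (X : PowerSeries D.L) ∈ V D := by
  refine ⟨0, fun i => ?_⟩
  rw [coeff_X]; split_ifs
  · exact one_mem _
  · exact zero_mem _

lemma X_mul_mem {f : PowerSeries D.L} (hf : f ∈ V D) : X * f ∈ RR D :=
  ⟨mul_mem X_mem_V hf, by simp⟩

lemma C_mem_RR {a : D.L} (ha : D.σ a = a) : (C a : PowerSeries D.L) ∈ RR D :=
  ⟨C_mem_V a, by simpa using ha⟩

lemma X_mem_RR : (X : PowerSeries D.L) ∈ RR D := by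
  simpa using X_mul_mem (D := D) (one_mem _)

lemma Xpow_mul_mem {f : PowerSeries D.L} (hf : f ∈ V D) {n : ℕ} (hn : n ≠ 0) : X ^ n * f ∈ RR D := by
  obtain ⟨m, rfl⟩ := Nat.exists_eq_succ_of_ne_zero hn
  rw [pow_succ', mul_assoc]
  exact X_mul_mem (mul_mem (pow_mem X_mem_V _) hf)

lemma inv_mem_V {f : PowerSeries D.L} (hf : f ∈ V D) : f⁻¹ ∈ V D := by
  obtain ⟨n, hn⟩ := hf
  refine ⟨n, fun i => ?_⟩
  induction i using Nat.strong_induction_on with
  | _ i ih =>
    rw [coeff_inv]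
    have h0 : (constantCoeff f)⁻¹ ∈ D.Ln n := inv_mem (by simpa using hn 0)
    split_ifs with h
    · exact h0
    · refine mul_mem (neg_mem h0) (sum_mem fun x hx => ?_)
      split_ifs with h1
      · exact mul_mem (hn _) (ih _ h1)
      · exact zero_mem _

lemma inv_mem_RR {f : PowerSeries D.L} (hf : f ∈ RR D) : f⁻¹ ∈ RR D := by
  refine ⟨inv_mem_V hf.1, ?_⟩
  have h := hf.2
  simp only [coeff_zero_eq_constantCoeff, constantCoeff_inv, map_inv₀] at h ⊢
  rw [h]

lemma coeff_pow_p (f : PowerSeries D.L) (n : ℕ) :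
    coeff n (f ^ p) = if p ∣ n then (coeff (n / p) f) ^ p else 0 := by
  have h1 : PowerSeries.map (frobenius D.L p) (PowerSeries.expand p hp.out.ne_zero f) = f ^ p :=
    MvPowerSeries.map_frobenius_expand p hp.out.ne_zero
  rw [← h1, coeff_map, PowerSeries.coeff_expand]
  split_ifs with h
  · rfl
  · simp

/-- the extension of a `p⁻¹`-linear map to power series -/
noncomputable def ext (ψ : D.L → D.L) (f : PowerSeries D.L) : PowerSeries D.L :=
  PowerSeries.mk fun i => ψ (coeff (p * i) f)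

lemma coeff_ext (ψ : D.L → D.L) (f : PowerSeries D.L) (i : ℕ) :
    coeff i (ext ψ f) = ψ (coeff (p * i) f) := by simp [ext]

/-- being `p⁻¹`-linear on the field -/
structure PLin (p : ℕ) {F : Type} [Field F] (ψ : F → F) : Prop where
  add : ∀ x y, ψ (x + y) = ψ x + ψ y
  pow : ∀ x y, ψ (x ^ p * y) = x * ψ y

lemma PLin.zero {F : Type} [Field F] {ψ : F → F} (h : PLin p ψ) : ψ 0 = 0 := by
  have := h.add 0 0
  simpa using this

lemma PLin.sum {F : Type} [Field F] {ψ : F → F} (h : PLin p ψ) {ι : Type} (s : Finset ι) (f : ι → F) :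
    ψ (∑ i ∈ s, f i) = ∑ i ∈ s, ψ (f i) := by
  classical
  induction s using Finset.induction_on with
  | empty => simp [h.zero]
  | insert a s ha ih => rw [Finset.sum_insert ha, h.add, ih, Finset.sum_insert ha]

lemma ext_add {ψ : D.L → D.L} (h : PLin p ψ) (f g : PowerSeries D.L) :
    ext ψ (f + g) = ext ψ f + ext ψ g := by
  ext i; simp only [coeff_ext, map_add, h.add]

lemma ext_pow_mul {ψ : D.L → D.L} (h : PLin p ψ) (r f : PowerSeries D.L) :
    ext ψ (r ^ p * f) = r * ext ψ f := by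
  have hp0 : 0 < p := hp.out.pos
  ext i
  rw [coeff_ext, coeff_mul, coeff_mul, h.sum]
  symm
  apply Finset.sum_of_injOn (fun x : ℕ × ℕ => (p * x.1, p * x.2))
  · rintro ⟨a, b⟩ _ ⟨c, d⟩ _ hh
    simp only [Prod.mk.injEq] at hh
    exact Prod.ext (Nat.eq_of_mul_eq_mul_left hp0 hh.1) (Nat.eq_of_mul_eq_mul_left hp0 hh.2)
  · rintro ⟨a, b⟩ hab
    simp only [Finset.mem_coe, Finset.HasAntidiagonal.mem_antidiagonal] at hab ⊢
    rw [← hab, mul_add]
  · rintro ⟨a, b⟩ hab hn
    simp only [Finset.HasAntidiagonal.mem_antidiagonal] at hab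
    rw [coeff_pow_p]
    dsimp only
    split_ifs with hd
    · exfalso
      apply hn
      obtain ⟨a', rfl⟩ := hd
      have hb : p ∣ b := by
        have : p ∣ p * a' + b := ⟨i, hab⟩
        exact (Nat.dvd_add_right ⟨a', rfl⟩).1 this
      obtain ⟨b', rfl⟩ := hb
      refine ⟨(a', b'), ?_, rfl⟩
      simp only [Finset.mem_coe, Finset.HasAntidiagonal.mem_antidiagonal]
      apply Nat.eq_of_mul_eq_mul_left hp0
      rw [mul_add, hab]
    · rw [zero_mul, h.zero]
  · rintro ⟨a, b⟩ _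
    dsimp only
    rw [coeff_pow_p, if_pos ⟨a, rfl⟩, Nat.mul_div_cancel_left _ hp0, h.pow, coeff_ext]

/-! ### ring theoretic properties of `R` -/

instance : CharP (PowerSeries D.L) p :=
  charP_of_injective_ringHom (f := (C : D.L →+* PowerSeries D.L)) PowerSeries.C_injective p

instance : CharP (RR D) p := CharP.subring _ p _

lemma isUnit_iff (f : RR D) : IsUnit f ↔ coeff 0 (f : PowerSeries D.L) ≠ 0 := by
  constructor
  · rintro ⟨u, rfl⟩ h
    have h1 : ((u : RR D) : PowerSeries D.L) * ((u⁻¹ : (RR D)ˣ) : RR D) = 1 := by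
      rw [← Subring.coe_mul, Units.mul_inv, Subring.coe_one]
    have h2 := congrArg (coeff 0) h1
    rw [coeff_mul, Finset.Nat.antidiagonal_zero, Finset.sum_singleton] at h2
    simp only at h2
    rw [h, zero_mul] at h2
    simp at h2
  · intro h
    have h0 : constantCoeff (f : PowerSeries D.L) ≠ 0 := by simpa using h
    refine IsUnit.of_mul_eq_one ⟨(f : PowerSeries D.L)⁻¹, inv_mem_RR f.2⟩ ?_
    apply Subtype.ext
    exact PowerSeries.mul_inv_cancel _ h0

instance : IsLocalRing (RR D) := by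
  apply IsLocalRing.of_nonunits_add
  intro a b ha hb
  rw [mem_nonunits_iff, isUnit_iff, not_not] at ha hb ⊢
  rw [Subring.coe_add, map_add, ha, hb, add_zero]

lemma mem_max_iff (f : RR D) : f ∈ IsLocalRing.maximalIdeal (RR D) ↔
    coeff 0 (f : PowerSeries D.L) = 0 := by
  rw [IsLocalRing.mem_maximalIdeal, mem_nonunits_iff, isUnit_iff, not_not]

lemma exists_shift {f : PowerSeries D.L} (hf : f ∈ V D) (h0 : coeff 0 f = 0) :
    ∃ g ∈ V D, f = X * g := by
  obtain ⟨n, hn⟩ := hf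
  refine ⟨PowerSeries.mk fun i => coeff (i + 1) f, ⟨n, fun i => by
    rw [coeff_mk]; exact hn _⟩, ?_⟩
  ext i
  rcases i with _ | i
  · rw [h0]; simp
  · rw [coeff_succ_X_mul, coeff_mk]

/-- a nonzero element of `V` is a power of `X` times a unit -/
lemma exists_pow {f : PowerSeries D.L} (hf : f ∈ V D) (h : f ≠ 0) :
    ∃ d, ∃ g ∈ V D, constantCoeff g ≠ 0 ∧ f = X ^ d * g := by
  obtain ⟨n, hn⟩ := hf
  have h1 := (Classical.em (∃ i, coeff i f ≠ 0)).resolve_right (by
    intro h'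
    push Not at h'
    exact h (PowerSeries.ext (by simpa using h')))
  classical
  set d := Nat.find h1 with hd
  have hd1 : coeff d f ≠ 0 := Nat.find_spec h1
  have hd2 : ∀ i < d, coeff i f = 0 := fun i hi => not_not.1 (Nat.find_min h1 hi)
  refine ⟨d, PowerSeries.mk fun i => coeff (i + d) f, ⟨n, fun i => by
    rw [coeff_mk]; exact hn _⟩, ?_, ?_⟩
  · rw [← coeff_zero_eq_constantCoeff_apply, coeff_mk, zero_add]; exact hd1
  · ext i
    rw [coeff_X_pow_mul']
    split_ifs with hi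
    · rw [coeff_mk, Nat.sub_add_cancel hi]
    · exact hd2 i (not_le.1 hi)

/-- every element of `L` is `a + b θ ^ q` -/
lemma decomp (t : D.L) (ht : D.σ t ≠ t) (x : D.L) : ∃ a b, D.σ a = a ∧ D.σ b = b ∧ x = a + b * t := by
  have h1 : t - D.σ t ≠ 0 := sub_ne_zero.2 (Ne.symm ht)
  have h2 : D.σ t - t ≠ 0 := sub_ne_zero.2 ht
  refine ⟨x - (x - D.σ x) / (t - D.σ t) * t, (x - D.σ x) / (t - D.σ t), ?_, ?_, by ring⟩
  · rw [map_sub, map_mul, map_div₀, map_sub, map_sub, D.invol, D.invol]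
    field_simp
    ring
  · rw [map_div₀, map_sub, map_sub, D.invol, D.invol, div_eq_div_iff h2 h1]
    ring

/-- the element `θ X` of `R` -/
noncomputable def thX : RR D := ⟨X * C D.θ, X_mul_mem (C_mem_V _)⟩
noncomputable def xX : RR D := ⟨X, X_mem_RR⟩

lemma max_eq : IsLocalRing.maximalIdeal (RR D) = Ideal.span {xX, thX} := by
  apply le_antisymm
  · intro f hf
    rw [mem_max_iff] at hf
    obtain ⟨g, hg, hfg⟩ := exists_shift f.2.1 hf
    obtain ⟨a, b, ha, hb, hab⟩ := decomp D.θ D.hθ (coeff 0 g)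
    obtain ⟨g', hg', hgg⟩ := exists_shift (f := g - C (coeff 0 g)) (sub_mem hg (C_mem_V _))
      (by simp)
    rw [Ideal.mem_span_pair]
    refine ⟨⟨C a + X * g', add_mem (C_mem_RR ha) (X_mul_mem hg')⟩, ⟨C b, C_mem_RR hb⟩, ?_⟩
    apply Subtype.ext
    change (C a + X * g') * X + C b * (X * C D.θ) = (f : PowerSeries D.L)
    rw [hfg, ← sub_add_cancel g (C (coeff 0 g)), hgg]
    conv_rhs => rw [hab]
    rw [map_add, map_mul]
    ring
  · rw [Ideal.span_le]
    rintro x (rfl | rfl)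
    · rw [SetLike.mem_coe, mem_max_iff]; simp [xX]
    · rw [SetLike.mem_coe, mem_max_iff]; simp [thX]

lemma max_le_radical (x : RR D) (hx : x ≠ 0) :
    IsLocalRing.maximalIdeal (RR D) ≤ Ideal.radical (Ideal.span {x}) := by
  intro f hf
  rw [mem_max_iff] at hf
  obtain ⟨g, hg, hfg⟩ := exists_shift f.2.1 hf
  have hx' : (x : PowerSeries D.L) ≠ 0 := fun h => hx (Subtype.ext h)
  obtain ⟨d, w, hw, hw0, hxw⟩ := exists_pow x.2.1 hx'
  refine ⟨d + 1, ?_⟩
  rw [Ideal.mem_span_singleton']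
  refine ⟨⟨X * (w⁻¹ * g ^ (d + 1)), X_mul_mem (mul_mem (inv_mem_V hw) (pow_mem hg _))⟩, ?_⟩
  apply Subtype.ext
  change X * (w⁻¹ * g ^ (d + 1)) * (x : PowerSeries D.L) = (f : PowerSeries D.L) ^ (d + 1)
  rw [hxw, hfg, mul_pow, pow_succ X d]
  calc X * (w⁻¹ * g ^ (d + 1)) * (X ^ d * w) = (w * w⁻¹) * (X ^ d * X * g ^ (d + 1)) := by ring
    _ = _ := by rw [PowerSeries.mul_inv_cancel _ hw0, one_mul]

lemma not_isField : ¬ IsField (RR D) := by
  intro h
  have h1 : (xX : RR D) ≠ 0 := by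
    intro h'
    have := congrArg (Subtype.val) h'
    exact PowerSeries.X_ne_zero this
  obtain ⟨b, hb⟩ := h.mul_inv_cancel h1
  have h2 : IsUnit (xX : RR D) := IsUnit.of_mul_eq_one b hb
  rw [isUnit_iff] at h2
  exact h2 (by simp [xX])

instance : IsNoetherianRing (RR D) := by
  apply IsNoetherianRing.of_prime_ne_bot
  intro I hI hI0
  have h1 : IsLocalRing.maximalIdeal (RR D) ≤ I := by
    obtain ⟨x, hxI, hx⟩ := Submodule.exists_mem_ne_zero_of_ne_bot hI0
    exact (max_le_radical x hx).trans ((Ideal.IsRadical.radical_le_iff hI.isRadical).mpr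
        ((Ideal.span_singleton_le_iff_mem I).mpr hxI))
  have h2 := Ideal.IsMaximal.eq_of_le (IsLocalRing.maximalIdeal.isMaximal (RR D)) hI.ne_top h1
  rw [← h2, max_eq]
  exact Submodule.fg_span (Set.toFinite _)

lemma dim_one : ringKrullDim (RR D) = 1 :=
  ringKrullDim_eq_one_iff_of_isLocalRing_isDomain.2 ⟨not_isField, max_le_radical⟩

end Pool.Agent.H42R3.FS
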