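import Mathlib

set_option autoImplicit false

namespace Pool.Agent.H42R3.FS
open TensorProduct

universe v

/-- `F_* R`: the additive group of `R`, on which `r : R` acts by multiplication by `r ^ p`. -/
def Fs (_p : ℕ) (R : Type) : Type := R

instance (p : ℕ) (R : Type) [CommRing R] : CommRing (Fs p R) := inferInstanceAs (CommRing R)

instance (p : ℕ) [Fact p.Prime] (R : Type) [CommRing R] [CharP R p] : Module R (Fs p R) :=
  Module.compHom R (frobenius R p)

/-- `R` is `F`-pure: for every `R`-module `M` the map `M → M ⊗[R] F_* R`, `m ↦ m ⊗ 1`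
is injective. -/
def IsFPure (p : ℕ) [Fact p.Prime] (R : Type) [CommRing R] [CharP R p] : Prop :=
  ∀ (M : Type v) [AddCommGroup M] [Module R M],
    Function.Injective (fun m : M => (m ⊗ₜ[R] (1 : Fs p R) : M ⊗[R] Fs p R))

end Pool.Agent.H42R3.FS
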