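import Pool.Agent.H42R3.FS4
import Pool.Agent.H42R3.FSDef

set_option autoImplicit false
set_option linter.unusedSectionVars false

namespace Pool.Agent.H42R3.FS
open PowerSeries TensorProduct

universe v

variable {p : ℕ} [hp : Fact p.Prime]

section gen
variable {R : Type} [CommRing R] [CharP R p]

lemma Fs_smul_def (r : R) (s : Fs p R) : r • s = ((r ^ p * (show R from s) : R) : Fs p R) := rfl

theorem pure_of_approx [IsNoetherianRing R] [IsLocalRing R]
    (T : ∀ n : ℕ, Fs p R →ₗ[R] (R ⧸ (IsLocalRing.maximalIdeal R) ^ n)) (hT : ∀ n, T n 1 = 1) :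
    IsFPure.{v} p R := by
  intro M _ _ m m' hmm
  dsimp only at hmm
  rw [← sub_eq_zero] at hmm ⊢
  rw [← TensorProduct.sub_tmul] at hmm
  set x := m - m' with hx
  have hP : (Submodule.span R {x}).FG := Submodule.fg_span (Set.finite_singleton x)
  obtain ⟨Q, hPQ, hQ, h⟩ := TensorProduct.eq_zero_of_fg_of_subtype_eq_zero (N := Fs p R) hP
    (t := (⟨x, Submodule.mem_span_singleton_self x⟩ : Submodule.span R {x}) ⊗ₜ[R] (1 : Fs p R))
    (by rw [LinearMap.rTensor_tmul]; exact hmm)
  rw [LinearMap.rTensor_tmul] at h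
  have hfin : Module.Finite R Q := Module.Finite.iff_fg.2 hQ
  set y : Q := (Submodule.inclusion hPQ) ⟨x, Submodule.mem_span_singleton_self x⟩ with hy
  have h1 : y ∈ (⨅ i : ℕ, (IsLocalRing.maximalIdeal R) ^ i • ⊤ : Submodule R Q) := by
    rw [Submodule.mem_iInf]
    intro n
    have h2 := congrArg (LinearMap.lTensor Q (T n)) h
    rw [LinearMap.lTensor_tmul, map_zero, hT] at h2
    have h3 := congrArg (TensorProduct.tensorQuotEquivQuotSMul Q ((IsLocalRing.maximalIdeal R) ^ n)) h2
    rw [map_zero] at h3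
    have h4 : (TensorProduct.tensorQuotEquivQuotSMul Q ((IsLocalRing.maximalIdeal R) ^ n))
        (y ⊗ₜ[R] (1 : R ⧸ (IsLocalRing.maximalIdeal R) ^ n)) = Submodule.Quotient.mk y := by
      have := TensorProduct.tensorQuotEquivQuotSMul_tmul_mk (I := (IsLocalRing.maximalIdeal R) ^ n) y 1
      rw [one_smul] at this
      exact this
    rw [h4, Submodule.Quotient.mk_eq_zero] at h3
    exact h3
  rw [Ideal.iInf_pow_smul_eq_bot_of_isLocalRing _ (IsLocalRing.maximalIdeal.isMaximal R).ne_top,
    Submodule.mem_bot] at h1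
  exact congrArg Subtype.val h1

end gen

variable {D : Dat p}

lemma psi_plin : PLin p D.ψ := ⟨D.ψ_add, D.ψ_pow⟩

/-- the modified map preserving the fixed field -/
noncomputable def psi1 (D : Dat p) (a : D.L) : D.L := D.v * D.ψ a + D.σ (D.v * D.ψ (D.σ a))

lemma psi1_plin : PLin p (psi1 D) := by
  constructor
  · intro x y
    unfold psi1
    rw [map_add D.σ x y, D.ψ_add, D.ψ_add, mul_add, mul_add, map_add]
    ring
  · intro x y
    unfold psi1
    rw [map_mul D.σ (x ^ p) y, map_pow, D.ψ_pow, D.ψ_pow, map_mul, map_mul, map_mul, D.invol]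
    ring

lemma psi1_one : psi1 D 1 = 1 := by
  unfold psi1
  rw [map_one D.σ, D.ψ_one, mul_one, D.hv]

lemma psi1_fix {a : D.L} (ha : D.σ a = a) : D.σ (psi1 D a) = psi1 D a := by
  unfold psi1
  rw [map_add, D.invol, ha, add_comm]

lemma coeff_ext_one {ψ : D.L → D.L} (h : PLin p ψ) (h1 : ψ 1 = 1) : ext ψ (1 : PowerSeries D.L) = 1 := by
  ext i
  rw [coeff_ext, coeff_one, coeff_one]
  rcases Nat.eq_zero_or_pos i with rfl | hi
  · simp [h1]
  · have : p * i ≠ 0 := mul_ne_zero hp.out.ne_zero hi.ne'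
    rw [if_neg this, if_neg hi.ne', h.zero]

/-- truncation -/
noncomputable def tr (n : ℕ) (g : PowerSeries D.L) : PowerSeries D.L :=
  PowerSeries.mk fun i => if i < n then coeff i g else 0

lemma coeff_tr (n i : ℕ) (g : PowerSeries D.L) : coeff i (tr n g) = if i < n then coeff i g else 0 := by
  simp [tr]

lemma tr_mem_V (n : ℕ) (g : PowerSeries D.L) : tr n g ∈ V D := by
  have h : ∀ n, ∃ N, ∀ i < n, coeff i g ∈ D.Ln N := by
    intro n
    induction n with
    | zero => exact ⟨0, fun i hi => absurd hi (Nat.not_lt_zero i)⟩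
    | succ n ih =>
      obtain ⟨N, hN⟩ := ih
      obtain ⟨M, hM⟩ := D.union (coeff n g)
      refine ⟨max N M, fun i hi => ?_⟩
      rcases Nat.lt_succ_iff_lt_or_eq.1 hi with h | rfl
      · exact D.mono (le_max_left _ _) (hN i h)
      · exact D.mono (le_max_right _ _) hM
  obtain ⟨N, hN⟩ := h n
  refine ⟨N, fun i => ?_⟩
  rw [coeff_tr]
  split_ifs with hi
  · exact hN i hi
  · exact zero_mem _

lemma tr_ext_mem (n : ℕ) (f : RR D) : tr n (ext (psi1 D) f) ∈ RR D := by
  refine ⟨tr_mem_V _ _, ?_⟩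
  rw [coeff_tr]
  split_ifs
  · rw [coeff_ext, mul_zero]
    exact psi1_fix f.2.2
  · exact map_zero _

lemma mem_max_pow {n : ℕ} {f : RR D} (h : ∀ i < n, coeff i (f : PowerSeries D.L) = 0) :
    f ∈ (IsLocalRing.maximalIdeal (RR D)) ^ n := by
  rcases n with _ | n
  · simp
  · obtain ⟨N, hN⟩ := f.2.1
    set g : PowerSeries D.L := PowerSeries.mk fun i => coeff (i + (n + 1)) (f : PowerSeries D.L) with hg
    have hgV : g ∈ V D := ⟨N, fun i => by rw [hg, coeff_mk]; exact hN _⟩
    have hf : (f : PowerSeries D.L) = X ^ n * (X * g) := by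
      rw [← mul_assoc, ← pow_succ]
      ext i
      rw [coeff_X_pow_mul']
      split_ifs with hi
      · rw [hg, coeff_mk, Nat.sub_add_cancel hi]
      · exact h i (not_le.1 hi)
    have hf' : f = xX ^ n * ⟨X * g, X_mul_mem hgV⟩ := by
      apply Subtype.ext
      rw [hf]; rfl
    rw [hf', pow_succ]
    apply Ideal.mul_mem_mul
    · apply Ideal.pow_mem_pow
      rw [mem_max_iff]; simp [xX]
    · rw [mem_max_iff]; simp

/-- the approximate splittings -/
noncomputable def TT (D : Dat p) (n : ℕ) :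
    Fs p (RR D) →ₗ[RR D] (RR D ⧸ (IsLocalRing.maximalIdeal (RR D)) ^ n) where
  toFun f := Ideal.Quotient.mk _ ⟨tr n (ext (psi1 D) (show RR D from f)), tr_ext_mem n _⟩
  map_add' f g := by
    rw [← map_add]
    congr 1
    apply Subtype.ext
    change tr n (ext (psi1 D) ((show RR D from f) + (show RR D from g) : PowerSeries D.L)) = _ + _
    rw [ext_add psi1_plin]
    ext i
    rw [map_add, coeff_tr, coeff_tr, coeff_tr, map_add]
    split_ifs <;> simp
  map_smul' r f := by
    rw [RingHom.id_apply, Algebra.smul_def, Ideal.Quotient.algebraMap_eq, ← map_mul,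
      Ideal.Quotient.eq]
    apply mem_max_pow
    intro i hi
    change coeff i (tr n (ext (psi1 D) ((r : PowerSeries D.L) ^ p * (show RR D from f))) -
      (r : PowerSeries D.L) * tr n (ext (psi1 D) (show RR D from f))) = 0
    rw [ext_pow_mul psi1_plin, map_sub, coeff_tr, if_pos hi, sub_eq_zero, coeff_mul, coeff_mul]
    apply Finset.sum_congr rfl
    intro x hx
    rw [Finset.HasAntidiagonal.mem_antidiagonal] at hx
    rw [coeff_tr, if_pos (by omega)]

lemma TT_one (n : ℕ) : TT D n 1 = 1 := by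
  change Ideal.Quotient.mk _ _ = _
  rw [← map_one (Ideal.Quotient.mk _), Ideal.Quotient.eq]
  apply mem_max_pow
  intro i hi
  change coeff i (tr n (ext (psi1 D) (1 : PowerSeries D.L)) - 1) = 0
  rw [coeff_ext_one psi1_plin psi1_one, map_sub, coeff_tr, if_pos hi, sub_self]

theorem isFPure : IsFPure.{v} p (RR D) := pure_of_approx (TT D) TT_one

/-- a nonzero `p⁻¹`-linear map -/
noncomputable def nz (D : Dat p) : Fs p (RR D) →ₗ[RR D] RR D where
  toFun f := ⟨X * ext D.ψ (show RR D from f), X_mul_mem (by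
    obtain ⟨N, hN⟩ := (show RR D from f).2.1
    exact ⟨N, fun i => by rw [coeff_ext]; exact D.ψ_mem _ _ (hN _)⟩)⟩
  map_add' f g := by
    apply Subtype.ext
    change X * ext D.ψ ((show RR D from f) + (show RR D from g) : PowerSeries D.L) = X * _ + X * _
    rw [ext_add psi_plin, mul_add]
  map_smul' r f := by
    apply Subtype.ext
    change X * ext D.ψ ((r : PowerSeries D.L) ^ p * (show RR D from f)) =
      (r : PowerSeries D.L) * (X * ext D.ψ (show RR D from f))
    rw [ext_pow_mul psi_plin]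
    ring

lemma nz_ne : nz D ≠ 0 := by
  intro h
  have h1 : nz D 1 = 0 := by rw [h]; rfl
  have h2 : (X * ext D.ψ (1 : PowerSeries D.L) : PowerSeries D.L) = 0 := congrArg Subtype.val h1
  rw [coeff_ext_one psi_plin D.ψ_one, mul_one] at h2
  exact PowerSeries.X_ne_zero h2

end Pool.Agent.H42R3.FS
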