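import Pool.Agent.H42R3.FS4
import Pool.Agent.H42R3.FSDef

set_option autoImplicit false
set_option linter.unusedSectionVars false

namespace Pool.Agent.H42R3.FS
open PowerSeries

variable {p : ℕ} [hp : Fact p.Prime] {D : Dat p}

/-- a Frobenius splitting of `R`, as a function on power series -/
structure Spl (D : Dat p) (P : PowerSeries D.L → PowerSeries D.L) : Prop where
  mem : ∀ f ∈ RR D, P f ∈ RR D
  add : ∀ f ∈ RR D, ∀ g ∈ RR D, P (f + g) = P f + P g
  pow : ∀ r ∈ RR D, ∀ f ∈ RR D, P (r ^ p * f) = r * P f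
  one : P 1 = 1

variable {P : PowerSeries D.L → PowerSeries D.L} (hP : Spl D P)
include hP

lemma Spl.Cpow (b : D.L) {f : PowerSeries D.L} (hf : f ∈ V D) :
    P (X ^ p * (C b ^ p * f)) = C b * P (X ^ p * f) := by
  have h1 : X ^ p * f ∈ RR D := Xpow_mul_mem hf hp.out.ne_zero
  have h2 : X ^ p * (C b ^ p * f) ∈ RR D :=
    Xpow_mul_mem (mul_mem (pow_mem (C_mem_V b) _) hf) hp.out.ne_zero
  have h3 := hP.pow (X * C b) (X_mul_mem (C_mem_V b)) _ h1
  have h4 := hP.pow X X_mem_RR _ h2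
  have h5 : X ^ p * (X ^ p * (C b ^ p * f)) = (X * C b) ^ p * (X ^ p * f) := by
    rw [mul_pow]; ring
  rw [h5, h3, mul_assoc] at h4
  exact (mul_left_cancel₀ PowerSeries.X_ne_zero h4).symm

lemma Spl.coeff_zero {f : PowerSeries D.L} (hf : f ∈ V D) : coeff 0 (P (X ^ p * f)) = 0 := by
  by_contra h
  have hk : ∀ b : D.L, D.σ (b * coeff 0 (P (X ^ p * f))) = b * coeff 0 (P (X ^ p * f)) := by
    intro b
    have h1 : P (X ^ p * (C b ^ p * f)) ∈ RR D :=
      hP.mem _ (Xpow_mul_mem (mul_mem (pow_mem (C_mem_V b) _) hf) hp.out.ne_zero)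
    have h2 := h1.2
    rw [hP.Cpow b hf, coeff_C_mul] at h2
    exact h2
  have h1 := hk 1
  rw [one_mul] at h1
  have h2 := hk D.θ
  rw [map_mul, h1] at h2
  exact D.hθ (mul_right_cancel₀ h h2)

/-- the induced `p⁻¹`-linear map on `L` -/
noncomputable def psi' (P : PowerSeries D.L → PowerSeries D.L) (s : D.L) : D.L :=
  coeff 1 (P (X ^ p * C s))

lemma Spl.psi'_plin : PLin p (psi' P) := by
  constructor
  · intro x y
    unfold psi'
    rw [map_add, mul_add, hP.add _ (Xpow_mul_mem (C_mem_V x) hp.out.ne_zero) _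
      (Xpow_mul_mem (C_mem_V y) hp.out.ne_zero), map_add]
  · intro x y
    unfold psi'
    rw [map_mul, map_pow, hP.Cpow x (C_mem_V y), coeff_C_mul]

lemma Spl.psi'_of_fix {s : D.L} (hs : D.σ s = s) : D.σ (psi' P s) = psi' P s ∧
    psi' P s = coeff 0 (P (C s)) := by
  have h1 : P (X ^ p * C s) = X * P (C s) := hP.pow _ X_mem_RR _ (C_mem_RR hs)
  have h2 : psi' P s = coeff 0 (P (C s)) := by
    unfold psi'
    rw [h1, show (1 : ℕ) = 0 + 1 from rfl, coeff_succ_X_mul]
  refine ⟨?_, h2⟩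
  rw [h2]
  exact (hP.mem _ (C_mem_RR hs)).2

lemma Spl.psi'_one : psi' P (1 : D.L) = 1 := by
  rw [(hP.psi'_of_fix (map_one _)).2, map_one, hP.one]; simp

lemma Spl.psi'_sigma (x : D.L) : psi' P (D.σ x) = D.σ (psi' P x) := by
  have ht : D.σ (D.θ ^ p) ≠ D.θ ^ p := by
    rw [map_pow]
    intro h
    exact D.hθ (frobenius_inj D.L p h)
  obtain ⟨a, b, ha, hb, rfl⟩ := decomp (D.θ ^ p) ht x
  have h1 := hP.psi'_plin
  rw [map_add, map_mul, map_pow, ha, hb, h1.add, h1.add, mul_comm b, mul_comm b, h1.pow, h1.pow,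
    map_add, map_mul, (hP.psi'_of_fix ha).1, (hP.psi'_of_fix hb).1]

omit hP in
/-- one step of the recursion -/
noncomputable def GG (P : PowerSeries D.L → PowerSeries D.L) (ch : ℕ → D.L → D.L) : ℕ → PowerSeries D.L
  | 0 => 0
  | k + 1 => GG P ch k + X ^ k * P (X ^ p * C (ch k (coeff (k + 1) (GG P ch k))))

omit hP in
/-- the chosen coefficients -/
noncomputable def ss (P : PowerSeries D.L → PowerSeries D.L) (ch : ℕ → D.L → D.L) (k : ℕ) : D.L :=
  ch k (coeff (k + 1) (GG P ch k))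

omit hP in
/-- the tails of the series -/
noncomputable def ff (P : PowerSeries D.L → PowerSeries D.L) (ch : ℕ → D.L → D.L) (k : ℕ) :
    PowerSeries D.L :=
  PowerSeries.mk fun i => if p ∣ i then ss P ch (k + i / p) else 0

omit hP in
lemma ff_succ (ch : ℕ → D.L → D.L) (k : ℕ) :
    ff P ch k = C (ss P ch k) + X ^ p * ff P ch (k + 1) := by
  have hp0 : 0 < p := hp.out.pos
  ext i
  rw [map_add, coeff_X_pow_mul', coeff_C]
  unfold ff
  rw [coeff_mk, coeff_mk]
  rcases Nat.eq_zero_or_pos i with rfl | hi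
  · rw [if_pos (dvd_zero p), if_pos rfl, if_neg (not_le.2 hp0)]
    simp
  · rw [if_neg hi.ne', zero_add]
    by_cases h : p ∣ i
    · obtain ⟨j, rfl⟩ := h
      have hj : 0 < j := Nat.pos_of_mul_pos_left hi |> fun _ => by
        rcases Nat.eq_zero_or_pos j with rfl | h
        · simp at hi
        · exact h
      obtain ⟨j, rfl⟩ := Nat.exists_eq_succ_of_ne_zero hj.ne'
      have e1 : p * (j + 1) - p = p * j := by rw [mul_add, mul_one]; omega
      have e2 : p ≤ p * (j + 1) := Nat.le_mul_of_pos_right p (Nat.succ_pos j)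
      rw [if_pos ⟨j + 1, rfl⟩, if_pos e2]
      simp only [Nat.succ_eq_add_one]
      rw [e1, if_pos ⟨j, rfl⟩, Nat.mul_div_cancel_left _ hp0, Nat.mul_div_cancel_left _ hp0]
      congr 1
      omega
    · rw [if_neg h]
      split_ifs with h1 h2
      · exfalso
        apply h
        have := Nat.dvd_add h2 (dvd_refl p)
        rwa [Nat.sub_add_cancel h1] at this
      · rfl
      · rfl

lemma Spl.bounded : ∃ m, ∀ s ∈ D.Ln 0, psi' P s ∈ D.Ln m := by
  by_contra hcon
  push Not at hcon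
  have hch : ∀ k : ℕ, ∀ c : D.L, ∃ s ∈ D.Ln 0, c + psi' P s ∉ D.Ln k := by
    intro k c
    by_cases hc : c ∈ D.Ln k
    · obtain ⟨s, hs, hs'⟩ := hcon k
      refine ⟨s, hs, fun h => hs' ?_⟩
      have := sub_mem h hc
      rwa [add_sub_cancel_left] at this
    · refine ⟨0, zero_mem _, ?_⟩
      rw [hP.psi'_plin.zero, add_zero]
      exact hc
  choose ch hch0 hch1 using hch
  have hff : ∀ k, ff P ch k ∈ V D := by
    intro k
    refine ⟨0, fun i => ?_⟩
    unfold ff
    rw [coeff_mk]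
    split_ifs
    · exact hch0 _ _
    · exact zero_mem _
  have hstep : ∀ k, P (X ^ p * ff P ch k) = P (X ^ p * C (ss P ch k)) +
      X * P (X ^ p * ff P ch (k + 1)) := by
    intro k
    have h1 : X ^ p * C (ss P ch k) ∈ RR D := Xpow_mul_mem (C_mem_V _) hp.out.ne_zero
    have h2 : X ^ p * ff P ch (k + 1) ∈ RR D := Xpow_mul_mem (hff _) hp.out.ne_zero
    have h3 : X ^ p * (X ^ p * ff P ch (k + 1)) ∈ RR D := Xpow_mul_mem h2.1 hp.out.ne_zero
    rw [ff_succ, mul_add, hP.add _ h1 _ h3, hP.pow _ X_mem_RR _ h2]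
  have hG : ∀ k, P (X ^ p * ff P ch 0) = GG P ch k + X ^ k * P (X ^ p * ff P ch k) := by
    intro k
    induction k with
    | zero => simp [GG]
    | succ k ih =>
      rw [ih, hstep k]
      change _ = GG P ch k + X ^ k * P (X ^ p * C (ss P ch k)) + _
      ring
  have hmem : X ^ p * ff P ch 0 ∈ RR D := Xpow_mul_mem (hff _) hp.out.ne_zero
  obtain ⟨n, hn⟩ := (hP.mem _ hmem).1
  have h1 := hn (n + 1)
  rw [hG n, map_add, coeff_X_pow_mul', if_pos (Nat.le_succ n), Nat.add_sub_cancel_left, hstep n,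
    map_add, show (1 : ℕ) = 0 + 1 from rfl, coeff_succ_X_mul, hP.coeff_zero (hff _), add_zero] at h1
  exact hch1 n _ h1

theorem Spl.false : False := by
  obtain ⟨m, hm⟩ := hP.bounded
  obtain ⟨w, hw, z, hz, ha⟩ := D.key m
  apply ha _ (hm w hw)
  rw [← hP.psi'_sigma, ← hP.psi'_plin.add, hz]
  have := hP.psi'_plin.pow z 1
  rw [mul_one, hP.psi'_one, mul_one] at this
  exact this

omit hP in
theorem no_split (Φ : Fs p (RR D) →ₗ[RR D] RR D) : Φ 1 ≠ 1 := by
  intro h1
  classical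
  let Q : PowerSeries D.L → PowerSeries D.L := fun f =>
    if h : f ∈ RR D then (Φ (show Fs p (RR D) from (⟨f, h⟩ : RR D)) : RR D) else 0
  have hQ : ∀ (f : PowerSeries D.L) (h : f ∈ RR D),
      Q f = (Φ (show Fs p (RR D) from (⟨f, h⟩ : RR D)) : RR D) := fun f h => dif_pos h
  have : Spl D Q := by
    constructor
    · intro f hf
      rw [hQ f hf]; exact Subtype.property _
    · intro f hf g hg
      rw [hQ f hf, hQ g hg, hQ _ (add_mem hf hg), ← Subring.coe_add, ← map_add]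
      rfl
    · intro r hr f hf
      rw [hQ f hf, hQ _ (mul_mem (pow_mem hr _) hf)]
      have := Φ.map_smul (⟨r, hr⟩ : RR D) (show Fs p (RR D) from (⟨f, hf⟩ : RR D))
      exact congrArg Subtype.val this
    · rw [hQ 1 (one_mem _)]
      exact congrArg Subtype.val h1
  exact this.false

end Pool.Agent.H42R3.FS
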