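import Mathlib

/-!
# Two nonsyndetic chains: the combinatorial core

`Synd A`: finitely many translates of `A` cover the group.
-/

namespace Pool.Agent.H42R3.Indep

open Set

variable {G : Type*} [AddCommGroup G]

/-- finitely many translates of `A` cover `G` -/
def Synd (A : Set G) : Prop :=
  ∃ F : Set G, F.Finite ∧ ∀ x : G, ∃ f ∈ F, ∃ a ∈ A, x = f + a

/-- the set of differences -/
def Dif (A : Set G) : Set G := {z | ∃ a ∈ A, ∃ b ∈ A, z = a - b}

/-- the set of sums -/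
def Sm (A B : Set G) : Set G := {z | ∃ a ∈ A, ∃ b ∈ B, z = a + b}

theorem Synd.mono {A B : Set G} (h : A ⊆ B) (hA : Synd A) : Synd B := by
  obtain ⟨F, hF, h1⟩ := hA
  refine ⟨F, hF, fun x => ?_⟩
  obtain ⟨f, hf, a, ha, e⟩ := h1 x
  exact ⟨f, hf, a, h ha, e⟩

theorem synd_univ : Synd (Set.univ : Set G) :=
  ⟨{0}, Set.finite_singleton 0, fun x => ⟨0, rfl, x, trivial, by simp⟩⟩

theorem not_synd_empty : ¬ Synd (∅ : Set G) := by
  rintro ⟨F, _, h⟩
  obtain ⟨f, _, a, ha, _⟩ := h 0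
  exact ha

theorem cover {ι : Type*} (s : Finset ι) (A : ι → Set G) :
    ∀ F : ι → Set G, (∀ j, (F j).Finite) →
      (∀ x : G, ∃ j ∈ s, ∃ f ∈ F j, ∃ a ∈ A j, x = f + a) →
      ∃ j ∈ s, Synd (Dif (A j)) := by
  classical
  induction s using Finset.induction_on with
  | empty =>
    intro F hF h
    obtain ⟨j, hj, _⟩ := h 0
    simp at hj
  | insert r s hr ih =>
    intro F hF h
    by_cases hS : Synd (Dif (A r))
    · exact ⟨r, by simp, hS⟩
    · have hfin : (Set.image2 (fun a b : G => a - b) (F r) (F r)).Finite :=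
        Set.Finite.image2 _ (hF r) (hF r)
      have : ∃ t : G, ∀ f ∈ F r, ∀ f' ∈ F r, ∀ a ∈ A r, ∀ a' ∈ A r,
          t ≠ (f - f') + (a - a') := by
        by_contra hcon
        push Not at hcon
        apply hS
        refine ⟨_, hfin, fun x => ?_⟩
        obtain ⟨f, hf, f', hf', a, ha, a', ha', e⟩ := hcon x
        exact ⟨f - f', ⟨f, hf, f', hf', rfl⟩, a - a', ⟨a, ha, a', ha', rfl⟩, e⟩
      obtain ⟨t, ht⟩ := this
      have key := ih (fun j => F j ∪ (fun f => -t + f) '' (F j))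
        (fun j => (hF j).union ((hF j).image _)) ?_
      · obtain ⟨j, hj, hh⟩ := key
        exact ⟨j, Finset.mem_insert_of_mem hj, hh⟩
      · intro x
        obtain ⟨j, hj, f, hf, a, ha, e⟩ := h x
        rcases Finset.mem_insert.1 hj with rfl | hj
        · obtain ⟨j', hj', f', hf', a', ha', e'⟩ := h (x + t)
          rcases Finset.mem_insert.1 hj' with rfl | hj'
          · exfalso
            apply ht f' hf' f hf a' ha' a ha
            have : t = (x + t) - x := by abel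
            rw [this, e', e]; abel
          · refine ⟨j', hj', -t + f', Or.inr ⟨f', hf', rfl⟩, a', ha', ?_⟩
            have : x = (x + t) - t := by abel
            rw [this, e']; abel
        · exact ⟨j, hj, f, Or.inl hf, a, ha, e⟩

theorem inter_synd {A B : Set G} (hA : Synd A) (hB : Synd B) :
    Synd (Dif A ∩ Dif B) := by
  classical
  obtain ⟨F, hF, hFA⟩ := hA
  obtain ⟨E, hE, hEB⟩ := hB
  let p : G → G → G := fun f e =>
    if h : ∃ z : G, (∃ a ∈ A, z = f + a) ∧ (∃ b ∈ B, z = e + b) then h.choose else 0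
  refine ⟨Set.image2 p F E, Set.Finite.image2 _ hF hE, fun x => ?_⟩
  obtain ⟨f, hf, a, ha, e1⟩ := hFA x
  obtain ⟨e, he, b, hb, e2⟩ := hEB x
  have hex : ∃ z : G, (∃ a ∈ A, z = f + a) ∧ (∃ b ∈ B, z = e + b) :=
    ⟨x, ⟨a, ha, e1⟩, ⟨b, hb, e2⟩⟩
  have hp : p f e = hex.choose := by simp only [p]; rw [dif_pos hex]
  obtain ⟨⟨a0, ha0, h1⟩, ⟨b0, hb0, h2⟩⟩ := hex.choose_spec
  rw [← hp] at h1 h2
  refine ⟨p f e, ⟨f, hf, e, he, rfl⟩, x - p f e, ⟨⟨a, ha, a0, ha0, ?_⟩, ⟨b, hb, b0, hb0, ?_⟩⟩, ?_⟩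
  · rw [h1, e1]; abel
  · rw [h2]; nth_rewrite 1 [e2]; abel
  · abel

/-- a system of neighbourhoods of `0` -/
structure NB (N : Set (Set G)) : Prop where
  univ_mem : Set.univ ∈ N
  inter : ∀ U ∈ N, ∀ V ∈ N, U ∩ V ∈ N
  zero_mem : ∀ U ∈ N, (0 : G) ∈ U
  half : ∀ U ∈ N, ∃ V ∈ N, ∀ a ∈ V, ∀ b ∈ V, ∀ c ∈ V, a - b + c ∈ U

section Main

variable (H : ℕ → AddSubgroup G) (N : Bool → Set (Set G))

/-- mode W -/
def WM (i : Bool) : Prop := ∃ k, ∀ U ∈ N i, Synd (Sm (H k : Set G) U)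

variable {H N}

theorem step (hmono : Monotone H) (hns : ∀ n, ¬ Synd (H n : Set G))
    (hN : ∀ i, NB (N i))
    (hcl : ∀ i n x, x ∉ H (n + 1) → ∃ U ∈ N i, ∀ u ∈ U, ∀ u' ∈ U, x + u - u' ∉ H n)
    (k : ℕ) (hk : ∀ i, WM H N i → ∀ U ∈ N i, Synd (Sm (H k : Set G) U))
    (V : Bool → ℕ → Set G)
    (hV : ∀ i, ¬ WM H N i → ∀ m, V i m ∈ N i ∧ ¬ Synd (Sm (H m : Set G) (Dif (V i m))))
    (n : ℕ) (x : G) (U : Bool → Set G) (hU : ∀ i, U i ∈ N i) :
    ∃ (x' : G) (U' : Bool → Set G), (∀ i, U' i ∈ N i) ∧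
      (∀ i, WM H N i → ∀ h ∈ H k, ∀ u ∈ U' i, ∃ h' ∈ H k, ∃ u' ∈ U i,
        x' + h + u = x + h' + u') ∧
      (∀ i, WM H N i → ∀ h ∈ H k, ∀ u ∈ U' i, ∀ g ∈ H n, ∀ u' ∈ U' i,
        x' + h + u ≠ g + u') ∧
      (∀ i, ¬ WM H N i → ∀ m ≤ n, ∀ g ∈ H m, ∀ v ∈ V i m, x' ≠ g + v) := by
  classical
  choose T hT1 hT2 using fun i => (hN i).half (U i) (hU i)
  set A : Bool → Set G := fun i => if WM H N i then Sm (H k : Set G) (T i) else Set.univ with hA
  have hAs : ∀ i, Synd (A i) := by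
    intro i
    by_cases hi : WM H N i
    · simp only [hA, if_pos hi]; exact hk i hi _ (hT1 i)
    · simp only [hA, if_neg hi]; exact synd_univ
  obtain ⟨F, hF, hFO⟩ := inter_synd (hAs true) (hAs false)
  set M := max n k with hM
  let B : Option (Bool × ℕ) → Set G := fun o =>
    match o with
    | none => (H (M + 1) : Set G)
    | some (i, m) => {z | ¬ WM H N i ∧ z ∈ Sm (H m : Set G) (V i m)}
  have claim : ∃ o ∈ Dif (A true) ∩ Dif (A false), x + o ∉ H (M + 1) ∧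
      ∀ i, ¬ WM H N i → ∀ m ≤ n, x + o ∉ Sm (H m : Set G) (V i m) := by
    by_contra hcon
    push Not at hcon
    obtain ⟨j, hj, hs⟩ := cover
      (Finset.insertNone ((Finset.univ : Finset Bool) ×ˢ Finset.range (n + 1))) B
      (fun _ => (fun f => f - x) '' F) (fun _ => hF.image _) (by
        intro y
        obtain ⟨f, hf, o, ho, e⟩ := hFO y
        by_cases h1 : x + o ∈ H (M + 1)
        · refine ⟨none, by simp, f - x, ⟨f, hf, rfl⟩, x + o, h1, ?_⟩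
          rw [e]; abel
        · obtain ⟨i, hi, m, hm, hz⟩ := hcon o ho h1
          refine ⟨some (i, m), ?_, f - x, ⟨f, hf, rfl⟩, x + o, ⟨hi, hz⟩, ?_⟩
          · simp; omega
          · rw [e]; abel)
    rcases j with _ | ⟨i, m⟩
    · apply hns (M + 1)
      refine hs.mono ?_
      rintro z ⟨a, ha, b, hb, rfl⟩
      exact (H (M + 1)).sub_mem ha hb
    · by_cases hi : WM H N i
      · apply not_synd_empty (G := G)
        refine hs.mono ?_
        rintro z ⟨a, ha, _⟩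
        exact (ha.1 hi).elim
      · apply (hV i hi m).2
        refine hs.mono ?_
        rintro z ⟨a, ⟨_, g, hg, v, hv, rfl⟩, b, ⟨_, g', hg', v', hv', rfl⟩, rfl⟩
        refine ⟨g - g', (H m).sub_mem hg hg', v - v', ⟨v, hv, v', hv', rfl⟩, ?_⟩
        abel
  obtain ⟨o, ho, h1, h2⟩ := claim
  choose U1 hU1 hU1' using fun i => hcl i M (x + o) h1
  refine ⟨x + o, fun i => T i ∩ U1 i, fun i => (hN i).inter _ (hT1 i) _ (hU1 i), ?_, ?_, ?_⟩
  · intro i hi h hh u hu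
    have hoi : o ∈ Dif (A i) := by
      cases i
      · exact ho.2
      · exact ho.1
    simp only [hA, if_pos hi] at hoi
    obtain ⟨_, ⟨g1, hg1, t1, ht1, rfl⟩, _, ⟨g2, hg2, t2, ht2, rfl⟩, e⟩ := hoi
    refine ⟨g1 - g2 + h, (H k).add_mem ((H k).sub_mem hg1 hg2) hh, t1 - t2 + u,
      hT2 i t1 ht1 t2 ht2 u hu.1, ?_⟩
    rw [e]; abel
  · intro i hi h hh u hu g hg u' hu' e
    apply hU1' i u hu.2 u' hu'.2
    have : x + o + u - u' = g - h := by
      have : x + o + u - u' = (x + o + h + u) - h - u' := by abel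
      rw [this, e]; abel
    rw [this]
    exact (H M).sub_mem (hmono (le_max_left _ _) hg) (hmono (le_max_right _ _) hh)
  · intro i hi m hm g hg v hv e
    exact h2 i hi m hm ⟨g, hg, v, hv, e⟩

theorem exists_seq (hmono : Monotone H) (hcov : ∀ x, ∃ n, x ∈ H n)
    (hns : ∀ n, ¬ Synd (H n : Set G))
    (hN : ∀ i, NB (N i))
    (hcl : ∀ i n x, x ∉ H (n + 1) → ∃ U ∈ N i, ∀ u ∈ U, ∀ u' ∈ U, x + u - u' ∉ H n) :
    ∃ x : ℕ → G, ∀ i y, ∃ U ∈ N i, ∃ m, ∀ n ≥ m, x n - y ∉ U := by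
  classical
  -- a common `k`
  have hk : ∃ k, ∀ i, WM H N i → ∀ U ∈ N i, Synd (Sm (H k : Set G) U) := by
    have h1 : ∀ i, ∃ k, WM H N i → ∀ U ∈ N i, Synd (Sm (H k : Set G) U) := by
      intro i
      by_cases hi : WM H N i
      · obtain ⟨k, hk⟩ := hi
        exact ⟨k, fun _ => hk⟩
      · exact ⟨0, fun h => (hi h).elim⟩
    choose k hk using h1
    refine ⟨max (k true) (k false), fun i hi U hU => (hk i hi U hU).mono ?_⟩
    rintro z ⟨a, ha, b, hb, rfl⟩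
    refine ⟨a, hmono ?_ ha, b, hb, rfl⟩
    cases i
    · exact le_max_right _ _
    · exact le_max_left _ _
  obtain ⟨k, hk⟩ := hk
  have hV : ∀ i m, ∃ V : Set G, ¬ WM H N i → V ∈ N i ∧
      ¬ Synd (Sm (H m : Set G) (Dif V)) := by
    intro i m
    by_cases hi : WM H N i
    · exact ⟨∅, fun h => (h hi).elim⟩
    · have : ∃ U ∈ N i, ¬ Synd (Sm (H m : Set G) U) := by
        by_contra hcon
        push Not at hcon
        exact hi ⟨m, hcon⟩
      obtain ⟨U, hU, hS⟩ := this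
      obtain ⟨V, hV, hVU⟩ := (hN i).half U hU
      refine ⟨V, fun _ => ⟨hV, fun h => hS (h.mono ?_)⟩⟩
      rintro z ⟨a, ha, _, ⟨v, hv, v', hv', rfl⟩, rfl⟩
      refine ⟨a, ha, v - v', ?_, rfl⟩
      have := hVU v hv v' hv' 0 ((hN i).zero_mem V hV)
      simpa using this
  choose V hV using hV
  have st := step hmono hns hN hcl k hk V (fun i hi m => hV i m hi)
  -- states
  let S := {p : G × (Bool → Set G) // ∀ i, p.2 i ∈ N i}
  have st' : ∀ (n : ℕ) (p : S), ∃ q : S,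
      (∀ i, WM H N i → ∀ h ∈ H k, ∀ u ∈ q.1.2 i, ∃ h' ∈ H k, ∃ u' ∈ p.1.2 i,
        q.1.1 + h + u = p.1.1 + h' + u') ∧
      (∀ i, WM H N i → ∀ h ∈ H k, ∀ u ∈ q.1.2 i, ∀ g ∈ H n, ∀ u' ∈ q.1.2 i,
        q.1.1 + h + u ≠ g + u') ∧
      (∀ i, ¬ WM H N i → ∀ m ≤ n, ∀ g ∈ H m, ∀ v ∈ V i m, q.1.1 ≠ g + v) := by
    intro n p
    obtain ⟨x', U', h0, h1, h2, h3⟩ := st n p.1.1 p.1.2 p.2
    exact ⟨⟨(x', U'), h0⟩, h1, h2, h3⟩
  choose nx hnx1 hnx2 hnx3 using st'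
  let σ : ℕ → S := fun n => Nat.rec ⟨(0, fun _ => Set.univ), fun i => (hN i).univ_mem⟩
    (fun n p => nx n p) n
  have hσ : ∀ n, σ (n + 1) = nx n (σ n) := fun n => rfl
  refine ⟨fun n => (σ (n + 1)).1.1, ?_⟩
  intro i y
  obtain ⟨m, hm⟩ := hcov y
  by_cases hi : WM H N i
  · refine ⟨(σ (m + 1)).1.2 i, (σ (m + 1)).2 i, m, ?_⟩
    have ind : ∀ n ≥ m, ∀ h ∈ H k, ∀ u ∈ (σ (n + 1)).1.2 i, ∃ h' ∈ H k,
        ∃ u' ∈ (σ (m + 1)).1.2 i, (σ (n + 1)).1.1 + h + u = (σ (m + 1)).1.1 + h' + u' := by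
      intro n hn
      induction n, hn using Nat.le_induction with
      | base => intro h hh u hu; exact ⟨h, hh, u, hu, rfl⟩
      | succ n hn ih =>
        intro h hh u hu
        rw [hσ (n + 1)] at hu ⊢
        obtain ⟨h', hh', u', hu', e⟩ := hnx1 (n + 1) (σ (n + 1)) i hi h hh u hu
        obtain ⟨h'', hh'', u'', hu'', e'⟩ := ih h' hh' u' hu'
        exact ⟨h'', hh'', u'', hu'', e.trans e'⟩
    intro n hn hcon
    obtain ⟨h', hh', u', hu', e⟩ := ind n hn 0 (H k).zero_mem 0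
      ((hN i).zero_mem _ ((σ (n + 1)).2 i))
    have h2 := hnx2 m (σ m) i hi h' hh' u' (by rw [← hσ m]; exact hu') y hm
      ((σ (n + 1)).1.1 - y) (by rw [← hσ m]; exact hcon)
    apply h2
    rw [← hσ m, ← e]; abel
  · refine ⟨V i m, (hV i m hi).1, m, ?_⟩
    intro n hn hcon
    have h3 := hnx3 n (σ n) i hi m hn y hm _ hcon
    apply h3
    rw [← hσ n]; abel

end Main

end Pool.Agent.H42R3.Indep
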