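import Pool.Agent.H42R3.Indep1

/-!
# Two Hausdorff group topologies on a group of singular strong limit cardinality
-/

namespace Pool.Agent.H42R3.Indep

open Set Cardinal Topology

universe u

/-- the closure of a set `S` in a Hausdorff space has at most `2^2^|S|` points -/
theorem mk_closure_le {X : Type u} [TopologicalSpace X] [T2Space X] (S : Set X) :
    #(closure S) ≤ 2 ^ ((2 : Cardinal.{u}) ^ #S) := by
  have h2 : #(Set (Set S)) = 2 ^ ((2 : Cardinal.{u}) ^ #S) := by rw [mk_set, mk_set]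
  rw [← h2]
  refine mk_le_of_injective (f := fun y : closure S =>
    {A : Set S | ∃ U ∈ 𝓝 (y : X), A = {s : S | (s : X) ∈ U}}) ?_
  intro y z h
  by_contra hne
  have hne' : (y : X) ≠ (z : X) := fun e => hne (Subtype.ext e)
  obtain ⟨U, V, hU, hV, hyU, hzV, hUV⟩ := t2_separation hne'
  have h1 : {s : S | (s : X) ∈ U} ∈
      (fun y : closure S => {A : Set S | ∃ U ∈ 𝓝 (y : X), A = {s : S | (s : X) ∈ U}}) y :=
    ⟨U, hU.mem_nhds hyU, rfl⟩
  rw [h] at h1
  obtain ⟨U', hU', e⟩ := h1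
  have h3 : V ∩ U' ∈ 𝓝 (z : X) := Filter.inter_mem (hV.mem_nhds hzV) hU'
  obtain ⟨s, hs, hsS⟩ := mem_closure_iff_nhds.1 z.2 _ h3
  have h4 : (⟨s, hsS⟩ : S) ∈ {s : S | (s : X) ∈ U'} := hs.2
  rw [← e] at h4
  exact Set.disjoint_left.1 hUV h4 hs.1

theorem mk_subgroup_closure_le {G : Type u} [AddCommGroup G] (A : Set G) :
    #(AddSubgroup.closure A) ≤ max #A ℵ₀ := by
  let φ : (A →₀ ℤ) →ₗ[ℤ] G := Finsupp.linearCombination ℤ (Subtype.val : A → G)
  have h1 : (AddSubgroup.closure A : Set G) ⊆ Set.range φ := by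
    have : AddSubgroup.closure A ≤ φ.toAddMonoidHom.range := by
      rw [AddSubgroup.closure_le]
      intro a ha
      refine ⟨Finsupp.single ⟨a, ha⟩ 1, ?_⟩
      change φ _ = a
      simp [φ]
    intro a ha
    obtain ⟨f, hf⟩ := this ha
    exact ⟨f, hf⟩
  have h2 : #(AddSubgroup.closure A) ≤ #(A →₀ ℤ) :=
    (mk_le_mk_of_subset h1).trans mk_range_le
  refine h2.trans ?_
  rcases finite_or_infinite A with hA | hA
  · exact (Cardinal.mk_le_aleph0 (α := A →₀ ℤ)).trans (le_max_right _ _)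
  · rw [mk_finsupp_lift_of_infinite]
    simp

variable {G : Type u} [AddCommGroup G]

/-- the chain of subgroups -/
def chain (t : Bool → TopologicalSpace G) (S : ℕ → Set G) : ℕ → AddSubgroup G
  | 0 => ⊥
  | n + 1 => AddSubgroup.closure ((chain t S n : Set G) ∪ S n ∪
      ((@closure G (t true) (chain t S n)) ∪ (@closure G (t false) (chain t S n))))

theorem chain_mono (t : Bool → TopologicalSpace G) (S : ℕ → Set G) : Monotone (chain t S) := by
  refine monotone_nat_of_le_succ fun n => ?_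
  intro a ha
  exact AddSubgroup.subset_closure (Or.inl (Or.inl ha))

theorem chain_cov (t : Bool → TopologicalSpace G) (S : ℕ → Set G) (hS : ∀ x, ∃ n, x ∈ S n)
    (x : G) : ∃ n, x ∈ chain t S n := by
  obtain ⟨n, hn⟩ := hS x
  exact ⟨n + 1, AddSubgroup.subset_closure (Or.inl (Or.inr hn))⟩

theorem chain_cl (t : Bool → TopologicalSpace G) (S : ℕ → Set G) (i : Bool) (n : ℕ) (x : G)
    (hx : x ∉ chain t S (n + 1)) : x ∉ @closure G (t i) (chain t S n) := by
  intro h
  apply hx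
  cases i
  · exact AddSubgroup.subset_closure (Or.inr (Or.inr h))
  · exact AddSubgroup.subset_closure (Or.inr (Or.inl h))

theorem chain_card (hκ : IsStrongLimit #G) (hκ' : ℵ₀ < #G)
    (t : Bool → TopologicalSpace G) (ht : ∀ i, @T2Space G (t i))
    (S : ℕ → Set G) (hS : ∀ n, #(S n) < #G) (n : ℕ) : #(chain t S n) < #G := by
  induction n with
  | zero =>
    have : #(chain t S 0) = 1 := by
      change #((⊥ : AddSubgroup G)) = 1
      simp
    rw [this]
    exact one_lt_aleph0.trans hκ'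
  | succ n ih =>
    have hinf : ℵ₀ ≤ #G := hκ'.le
    have hb : ∀ i, #(@closure G (t i) (chain t S n)) < #G := by
      intro i
      letI := t i
      haveI := ht i
      exact (mk_closure_le (X := G) (chain t S n : Set G)).trans_lt
        (hκ.isStrongPrelimit (hκ.isStrongPrelimit ih))
    refine (mk_subgroup_closure_le _).trans_lt (max_lt ?_ hκ')
    refine (mk_union_le _ _).trans_lt (add_lt_of_lt hinf ?_ ?_)
    · exact (mk_union_le _ _).trans_lt (add_lt_of_lt hinf ih (hS n))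
    · exact (mk_union_le _ _).trans_lt (add_lt_of_lt hinf (hb true) (hb false))

theorem not_synd_of_card (hκ' : ℵ₀ < #G) (A : Set G) (hA : #A < #G) : ¬ Synd A := by
  rintro ⟨F, hF, h⟩
  have h1 : (Set.univ : Set G) ⊆ Set.image2 (fun a b => a + b) F A := by
    intro x _
    obtain ⟨f, hf, a, ha, e⟩ := h x
    exact ⟨f, hf, a, ha, e.symm⟩
  have h2 : #G ≤ #F * #A := by
    rw [← mk_univ]
    exact (mk_le_mk_of_subset h1).trans (mk_image2_le)
  have h3 : #F < #G := (hF.lt_aleph0).trans hκ'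
  exact absurd h2 (not_le.2 (mul_lt_of_lt hκ'.le h3 hA))

theorem nb_nhds (t : TopologicalSpace G) (ht : @IsTopologicalAddGroup G t _) :
    NB {U : Set G | U ∈ @nhds G t 0} := by
  letI := t
  haveI := ht
  refine ⟨Filter.univ_mem, fun U hU V hV => Filter.inter_mem hU hV,
    fun U hU => mem_of_mem_nhds hU, ?_⟩
  intro U hU
  have hc : Continuous (fun p : G × G × G => p.1 - p.2.1 + p.2.2) := by fun_prop
  have h0 : Filter.Tendsto (fun p : G × G × G => p.1 - p.2.1 + p.2.2) (𝓝 (0, 0, 0)) (𝓝 0) := by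
    have := hc.tendsto (0, 0, 0)
    simpa using this
  have h1 := h0 hU
  rw [Filter.mem_map, nhds_prod_eq, nhds_prod_eq] at h1
  obtain ⟨A, hA, B, hB, hAB⟩ := Filter.mem_prod_iff.1 h1
  obtain ⟨C, hC, D, hD, hCD⟩ := Filter.mem_prod_iff.1 hB
  refine ⟨A ∩ (C ∩ D), Filter.inter_mem hA (Filter.inter_mem hC hD), ?_⟩
  intro a ha b hb c hc
  exact hAB (Set.mk_mem_prod ha.1 (hCD (Set.mk_mem_prod hb.2.1 hc.2.2)))

theorem cl_nhds (t : TopologicalSpace G) (ht : @IsTopologicalAddGroup G t _)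
    (K : Set G) (x : G) (hx : x ∉ @closure G t K) :
    ∃ U ∈ @nhds G t 0, ∀ u ∈ U, ∀ u' ∈ U, x + u - u' ∉ K := by
  letI := t
  haveI := ht
  have hc : Continuous (fun p : G × G => x + p.1 - p.2) := by fun_prop
  have h0 : Filter.Tendsto (fun p : G × G => x + p.1 - p.2) (𝓝 (0, 0)) (𝓝 x) := by
    have := hc.tendsto (0, 0)
    simpa using this
  have h1 := h0 (isClosed_closure.isOpen_compl.mem_nhds hx)
  rw [Filter.mem_map, nhds_prod_eq] at h1
  obtain ⟨A, hA, B, hB, hAB⟩ := Filter.mem_prod_iff.1 h1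
  refine ⟨A ∩ B, Filter.inter_mem hA hB, ?_⟩
  intro u hu u' hu' hK
  exact hAB (Set.mk_mem_prod hu.1 hu'.2) (subset_closure hK)

/-- every infinite set of values of the sequence is closed -/
theorem closed_of_seq (t : TopologicalSpace G) (ht : @IsTopologicalAddGroup G t _)
    (hT : @T2Space G t) (x : ℕ → G)
    (hx : ∀ y, ∃ U ∈ @nhds G t 0, ∃ m, ∀ n ≥ m, x n - y ∉ U)
    (E : Set G) (hE : E ⊆ Set.range x) : IsClosed[t] E := by
  letI := t
  haveI := ht
  haveI := hT
  rw [← isOpen_compl_iff, isOpen_iff_mem_nhds]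
  intro y hy
  obtain ⟨U, hU, m, hm⟩ := hx y
  have h1 : {z : G | z - y ∈ U} ∈ 𝓝 y := by
    have hc : Continuous (fun z : G => z - y) := by fun_prop
    have h0 : Filter.Tendsto (fun z : G => z - y) (𝓝 y) (𝓝 0) := by
      have := hc.tendsto y
      simpa using this
    exact h0 hU
  have hfin : (E ∩ (x '' (Set.Iio m))).Finite := ((Set.finite_Iio m).image x).inter_of_right _
  have h2 : (E ∩ (x '' (Set.Iio m)))ᶜ ∈ 𝓝 y :=
    hfin.isClosed.isOpen_compl.mem_nhds (fun h => hy h.1)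
  filter_upwards [h1, h2] with z hz1 hz2 hzE
  obtain ⟨n, rfl⟩ := hE hzE
  by_cases hn : n < m
  · exact hz2 ⟨hzE, n, hn, rfl⟩
  · exact hm n (not_lt.1 hn) hz1

theorem infinite_range (t : TopologicalSpace G) (x : ℕ → G)
    (hx : ∀ y, ∃ U ∈ @nhds G t 0, ∃ m, ∀ n ≥ m, x n - y ∉ U) : (Set.range x).Infinite := by
  letI := t
  intro hfin
  haveI : Finite (Set.range x) := hfin
  obtain ⟨y, hy⟩ := Finite.exists_infinite_fiber (fun n : ℕ => (⟨x n, n, rfl⟩ : Set.range x))
  obtain ⟨U, hU, m, hm⟩ := hx y.1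
  have hinf : ((fun n : ℕ => (⟨x n, n, rfl⟩ : Set.range x)) ⁻¹' {y}).Infinite :=
    Set.infinite_coe_iff.1 hy
  obtain ⟨n, hn, hmn⟩ := hinf.exists_gt m
  have e : x n = y.1 := congrArg Subtype.val hn
  apply hm n hmn.le
  rw [e, sub_self]
  exact mem_of_mem_nhds hU

/-- **Main theorem.** -/
theorem exists_common_closed (hκ : IsStrongLimit #G) (hκ' : ℵ₀ < #G)
    (S : ℕ → Set G) (hS : ∀ x, ∃ n, x ∈ S n) (hSc : ∀ n, #(S n) < #G)
    (t : Bool → TopologicalSpace G) (ht : ∀ i, @IsTopologicalAddGroup G (t i) _)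
    (hT : ∀ i, @T2Space G (t i)) :
    ∃ D : Set G, D.Infinite ∧ D.Countable ∧ ∀ E ⊆ D, ∀ i, IsClosed[t i] E := by
  obtain ⟨x, hx⟩ := exists_seq (H := chain t S) (N := fun i => {U : Set G | U ∈ @nhds G (t i) 0})
    (chain_mono t S) (chain_cov t S hS)
    (fun n => not_synd_of_card hκ' _ (chain_card hκ hκ' t hT S hSc n))
    (fun i => nb_nhds (t i) (ht i))
    (fun i n x hx => cl_nhds (t i) (ht i) _ x (chain_cl t S i n x hx))
  refine ⟨Set.range x, infinite_range (t true) x (hx true), Set.countable_range x, ?_⟩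
  intro E hE i
  exact closed_of_seq (t i) (ht i) (hT i) x (hx i) E hE

end Pool.Agent.H42R3.Indep
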