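import Mathlib

set_option autoImplicit false

namespace Pool.Agent.H42R3.KPart
open scoped Pointwise

universe u
variable {G : Type u} [Group G]

/-- Left syndetic: boundedly many left translates of the set cover the group. -/
def LS (X : Set G) : Prop := ∃ F : Set G, F.Finite ∧ ∀ g, ∃ f ∈ F, f * g ∈ X

/-- Right syndetic. -/
def RS (X : Set G) : Prop := ∃ F : Set G, F.Finite ∧ ∀ g, ∃ f ∈ F, g * f ∈ X

/-- A maximal independent subset of `X` for a symmetric relation. -/
lemma exists_max_indep (r : G → G → Prop) (hr : ∀ a b, r a b → r b a) (X : Set G) :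
    ∃ A ⊆ X, A.Pairwise (fun a b => ¬ r a b) ∧ ∀ x ∈ X, ∃ a ∈ A, x = a ∨ r x a := by
  obtain ⟨A, hA⟩ := zorn_subset {A : Set G | A ⊆ X ∧ A.Pairwise (fun a b => ¬ r a b)} (by
    intro c hc hchain
    refine ⟨⋃₀ c, ⟨Set.sUnion_subset fun s hs => (hc hs).1, ?_⟩, fun s hs => Set.subset_sUnion_of_mem hs⟩
    rw [Set.pairwise_sUnion hchain.directedOn]
    exact fun s hs => (hc hs).2)
  refine ⟨A, hA.prop.1, hA.prop.2, ?_⟩
  intro x hx
  by_contra hcon
  push Not at hcon
  have hxA : x ∉ A := fun h => (hcon x h).1 rfl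
  have hins : insert x A ∈ {A : Set G | A ⊆ X ∧ A.Pairwise (fun a b => ¬ r a b)} := by
    refine ⟨Set.insert_subset hx hA.prop.1, ?_⟩
    rw [Set.pairwise_insert]
    refine ⟨hA.prop.2, ?_⟩
    intro b hb _
    exact ⟨(hcon b hb).2, fun h => (hcon b hb).2 (hr _ _ h)⟩
  have := hA.le_of_ge hins (Set.subset_insert x A)
  exact hxA (this (Set.mem_insert x A))

/-- Every group with a nontrivial element splits off a left syndetic and a disjoint right syndetic
set. -/
lemma exists_halves [Nontrivial G] : ∃ P Q : Set G, Disjoint P Q ∧ LS P ∧ RS Q := by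
  classical
  obtain ⟨t, ht⟩ := exists_ne (1 : G)
  obtain ⟨M, -, hM, hM'⟩ := exists_max_indep (fun a b : G => b = t * a ∨ a = t * b)
    (fun a b h => h.symm) Set.univ
  obtain ⟨N, -, hN, hN'⟩ := exists_max_indep (fun a b : G => b = a * t ∨ a = b * t)
    (fun a b h => h.symm) Set.univ
  set B : (M ⊕ N) → Finset G := fun x => Sum.elim (fun m : M => ({m.1, t * m.1} : Finset G))
    (fun n : N => ({n.1, n.1 * t} : Finset G)) x with hB
  have hcardL : ∀ m : M, (B (Sum.inl m)).card = 2 := by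
    intro m
    simp only [hB, Sum.elim_inl]
    apply Finset.card_pair
    intro h
    apply ht
    have : (1 : G) * m.1 = t * m.1 := by rw [one_mul]; exact h
    exact (mul_right_cancel this).symm
  have hcardR : ∀ n : N, (B (Sum.inr n)).card = 2 := by
    intro m
    simp only [hB, Sum.elim_inr]
    apply Finset.card_pair
    intro h
    apply ht
    have : m.1 * (1 : G) = m.1 * t := by rw [mul_one]; exact h
    exact (mul_left_cancel this).symm
  have hdisjL : ∀ m m' : M, m ≠ m' → Disjoint (B (Sum.inl m)) (B (Sum.inl m')) := by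
    intro m m' hne
    have hne' : m.1 ≠ m'.1 := fun h => hne (Subtype.ext h)
    have h1 := hM m.2 m'.2 hne'
    push Not at h1
    simp only [hB, Sum.elim_inl]
    rw [Finset.disjoint_left]
    intro x hx hx'
    simp only [Finset.mem_insert, Finset.mem_singleton] at hx hx'
    rcases hx with rfl | rfl
    · rcases hx' with h | h
      · exact hne' h
      · exact h1.2 h
    · rcases hx' with h | h
      · exact h1.1 h.symm
      · exact hne' (mul_left_cancel h)
  have hdisjR : ∀ m m' : N, m ≠ m' → Disjoint (B (Sum.inr m)) (B (Sum.inr m')) := by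
    intro m m' hne
    have hne' : m.1 ≠ m'.1 := fun h => hne (Subtype.ext h)
    have h1 := hN m.2 m'.2 hne'
    push Not at h1
    simp only [hB, Sum.elim_inr]
    rw [Finset.disjoint_left]
    intro x hx hx'
    simp only [Finset.mem_insert, Finset.mem_singleton] at hx hx'
    rcases hx with rfl | rfl
    · rcases hx' with h | h
      · exact hne' h
      · exact h1.2 h
    · rcases hx' with h | h
      · exact h1.1 h.symm
      · exact hne' (mul_right_cancel h)
  have hall : ∀ s : Finset (M ⊕ N), s.card ≤ (s.biUnion B).card := by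
    intro s
    set sL : Finset M := s.preimage Sum.inl Sum.inl_injective.injOn with hsL
    set sR : Finset N := s.preimage Sum.inr Sum.inr_injective.injOn with hsR
    have hs : s = sL.image Sum.inl ∪ sR.image Sum.inr := by
      ext x
      rcases x with m | n <;> simp [hsL, hsR]
    have h1 : s.card ≤ sL.card + sR.card := by
      rw [hs]
      refine (Finset.card_union_le _ _).trans ?_
      exact Nat.add_le_add Finset.card_image_le Finset.card_image_le
    have h2 : (sL.biUnion (fun m => B (Sum.inl m))).card = 2 * sL.card := by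
      rw [Finset.card_biUnion (fun m _ m' _ hne => hdisjL m m' hne)]
      rw [Finset.sum_congr rfl (fun m _ => hcardL m), Finset.sum_const, smul_eq_mul, mul_comm]
    have h3 : (sR.biUnion (fun m => B (Sum.inr m))).card = 2 * sR.card := by
      rw [Finset.card_biUnion (fun m _ m' _ hne => hdisjR m m' hne)]
      rw [Finset.sum_congr rfl (fun m _ => hcardR m), Finset.sum_const, smul_eq_mul, mul_comm]
    have h4 : (sL.biUnion (fun m => B (Sum.inl m))).card ≤ (s.biUnion B).card := by
      apply Finset.card_le_card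
      intro x hx
      rw [Finset.mem_biUnion] at hx ⊢
      obtain ⟨m, hm, hxm⟩ := hx
      exact ⟨Sum.inl m, by simpa [hsL] using hm, hxm⟩
    have h5 : (sR.biUnion (fun m => B (Sum.inr m))).card ≤ (s.biUnion B).card := by
      apply Finset.card_le_card
      intro x hx
      rw [Finset.mem_biUnion] at hx ⊢
      obtain ⟨m, hm, hxm⟩ := hx
      exact ⟨Sum.inr m, by simpa [hsR] using hm, hxm⟩
    omega
  obtain ⟨f, hfinj, hf⟩ := (Finset.all_card_le_biUnion_card_iff_exists_injective B).1 hall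
  refine ⟨Set.range (fun m : M => f (Sum.inl m)), Set.range (fun n : N => f (Sum.inr n)), ?_, ?_, ?_⟩
  · rw [Set.disjoint_left]
    rintro x ⟨m, rfl⟩ ⟨n, hn⟩
    have := hfinj hn
    cases this
  · refine ⟨{1, t, t⁻¹, t * t}, by simp, ?_⟩
    intro g
    obtain ⟨m, hm, hgm⟩ := hM' g (Set.mem_univ _)
    have h1 := hf (Sum.inl ⟨m, hm⟩)
    simp only [hB, Sum.elim_inl, Finset.mem_insert, Finset.mem_singleton] at h1
    have key : ∃ s ∈ ({1, t, t⁻¹, t * t} : Set G), s * g = f (Sum.inl ⟨m, hm⟩) := by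
      rcases hgm with h | h | h
      · rcases h1 with h1 | h1
        · exact ⟨1, by simp, by rw [h1, one_mul, h]⟩
        · exact ⟨t, by simp, by rw [h1, h]⟩
      · rcases h1 with h1 | h1
        · exact ⟨t, by simp, by rw [h1, h]⟩
        · exact ⟨t * t, by simp, by rw [h1, h, mul_assoc]⟩
      · rcases h1 with h1 | h1
        · exact ⟨t⁻¹, by simp, by rw [h1, h]; group⟩
        · exact ⟨1, by simp, by rw [h1, h]; group⟩
    obtain ⟨s, hs, hsg⟩ := key
    exact ⟨s, hs, ⟨⟨m, hm⟩, hsg.symm⟩⟩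
  · refine ⟨{1, t, t⁻¹, t * t}, by simp, ?_⟩
    intro g
    obtain ⟨m, hm, hgm⟩ := hN' g (Set.mem_univ _)
    have h1 := hf (Sum.inr ⟨m, hm⟩)
    simp only [hB, Sum.elim_inr, Finset.mem_insert, Finset.mem_singleton] at h1
    have key : ∃ s ∈ ({1, t, t⁻¹, t * t} : Set G), g * s = f (Sum.inr ⟨m, hm⟩) := by
      rcases hgm with h | h | h
      · rcases h1 with h1 | h1
        · exact ⟨1, by simp, by rw [h1, mul_one, h]⟩
        · exact ⟨t, by simp, by rw [h1, h]⟩
      · rcases h1 with h1 | h1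
        · exact ⟨t, by simp, by rw [h1, h]⟩
        · exact ⟨t * t, by simp, by rw [h1, h, mul_assoc]⟩
      · rcases h1 with h1 | h1
        · exact ⟨t⁻¹, by simp, by rw [h1, h]; group⟩
        · exact ⟨1, by simp, by rw [h1, h]; group⟩
    obtain ⟨s, hs, hsg⟩ := key
    exact ⟨s, hs, ⟨⟨m, hm⟩, hsg.symm⟩⟩

/-- In an infinite group a left syndetic set splits into two left syndetic sets. -/
lemma split [Infinite G] (X : Set G) (hX : LS X) : ∃ A ⊆ X, LS A ∧ LS (X \ A) := by
  obtain ⟨F, hF, hFX⟩ := hX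
  -- choose `s` with `F` and `F s` disjoint
  obtain ⟨s, hs⟩ : ∃ s : G, s ∉ (F⁻¹ * F : Set G) := by
    by_contra hcon
    push Not at hcon
    have : (Set.univ : Set G) ⊆ F⁻¹ * F := fun x _ => hcon x
    exact Set.infinite_univ ((hF.inv.mul hF).subset this)
  set E : Set G := F ∪ F * {s} with hE
  have hEfin : E.Finite := hF.union (hF.mul (Set.finite_singleton s))
  set D : Set G := E * E⁻¹ with hD
  have hDfin : D.Finite := hEfin.mul hEfin.inv
  have hDsymm : ∀ d ∈ D, d⁻¹ ∈ D := by
    intro d hd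
    obtain ⟨a, ha, b, hb, rfl⟩ := Set.mem_mul.1 hd
    refine Set.mem_mul.2 ⟨b⁻¹, Set.mem_inv.1 hb, a⁻¹, ?_, by group⟩
    rw [Set.mem_inv, inv_inv]; exact ha
  obtain ⟨A, hAX, hA, hA'⟩ := exists_max_indep (fun a b : G => ∃ d ∈ D, b = d * a)
    (by
      rintro a b ⟨d, hd, rfl⟩
      exact ⟨d⁻¹, hDsymm d hd, by group⟩) X
  refine ⟨A, hAX, ⟨(insert 1 D) * F, (hDfin.insert 1).mul hF, ?_⟩, ⟨E, hEfin, ?_⟩⟩
  · intro g
    obtain ⟨f, hf, hfg⟩ := hFX g
    obtain ⟨a, ha, hxa⟩ := hA' (f * g) hfg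
    rcases hxa with h | ⟨d, hd, h⟩
    · exact ⟨1 * f, Set.mul_mem_mul (Set.mem_insert _ _) hf, by rw [one_mul, h]; exact ha⟩
    · exact ⟨d * f, Set.mul_mem_mul (Set.mem_insert_of_mem _ hd) hf, by
        rw [mul_assoc, ← h]; exact ha⟩
  · intro g
    obtain ⟨f1, hf1, hfg1⟩ := hFX g
    obtain ⟨f2, hf2, hfg2⟩ := hFX (s * g)
    have he1 : f1 ∈ E := Or.inl hf1
    have he2 : f2 * s ∈ E := Or.inr (Set.mul_mem_mul hf2 rfl)
    by_cases h1 : f1 * g ∈ A
    · by_cases h2 : f2 * s * g ∈ A
      · exfalso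
        have hne : f1 * g ≠ f2 * s * g := by
          intro h
          have h3 : f1 = f2 * s := mul_right_cancel h
          apply hs
          exact Set.mem_mul.2 ⟨f2⁻¹, by rw [Set.mem_inv, inv_inv]; exact hf2, f1, hf1, by
            rw [h3]; group⟩
        apply hA h1 h2 hne
        refine ⟨f2 * s * f1⁻¹, Set.mul_mem_mul he2 (Set.inv_mem_inv.2 he1), by group⟩
      · exact ⟨f2 * s, he2, by rw [mul_assoc]; exact hfg2, h2⟩
    · exact ⟨f1, he1, hfg1, h1⟩

/-- The countable one-sided partition. -/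
lemma exists_seq [Infinite G] (X : Set G) (hX : LS X) :
    ∃ A : ℕ → Set G, (∀ i j, i ≠ j → Disjoint (A i) (A j)) ∧ (∀ i, A i ⊆ X) ∧ ∀ i, LS (A i) := by
  classical
  set T := {Y : Set G // LS Y} with hT
  set a : T → Set G := fun Y => Classical.choose (split Y.1 Y.2) with ha
  have ha1 : ∀ Y : T, a Y ⊆ Y.1 := fun Y => (Classical.choose_spec (split Y.1 Y.2)).1
  have ha2 : ∀ Y : T, LS (a Y) := fun Y => (Classical.choose_spec (split Y.1 Y.2)).2.1
  have ha3 : ∀ Y : T, LS (Y.1 \ a Y) := fun Y => (Classical.choose_spec (split Y.1 Y.2)).2.2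
  set x : ℕ → T := fun n => Nat.rec (⟨X, hX⟩ : T) (fun _ Y => ⟨Y.1 \ a Y, ha3 Y⟩) n with hx
  have hx0 : (x 0).1 = X := rfl
  have hxs : ∀ n, (x (n + 1)).1 = (x n).1 \ a (x n) := fun n => rfl
  have hmono : ∀ m n, m ≤ n → (x n).1 ⊆ (x m).1 := by
    intro m n hmn
    induction hmn with
    | refl => exact subset_rfl
    | step _ ih =>
      rw [hxs]
      exact Set.sdiff_subset.trans ih
  have hdis : ∀ m n, m < n → Disjoint (a (x m)) (a (x n)) := by
    intro m n hmn
    have h1 : a (x n) ⊆ (x m).1 \ a (x m) := (ha1 _).trans ((hmono (m + 1) n hmn).trans (by rw [hxs]))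
    rw [Set.disjoint_left]
    intro y hy hy'
    exact (h1 hy').2 hy
  refine ⟨fun n => a (x n), ?_, fun i => (ha1 _).trans ((hmono 0 i (Nat.zero_le _)).trans hx0.subset),
    fun i => ha2 _⟩
  intro i j hij
  rcases lt_or_gt_of_ne hij with h | h
  · exact hdis i j h
  · exact (hdis j i h).symm

end Pool.Agent.H42R3.KPart
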