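import Pool.Agent.H42R3.KPart1

set_option autoImplicit false

namespace Pool.Agent.H42R3.KPart
open scoped Pointwise Cardinal
open Cardinal

universe u
variable {G : Type u} [Group G]

/-- `x` is the least element of `S` for the fixed well-ordering. -/
def Least (S : Set G) (x : G) : Prop := x ∈ S ∧ ∀ y ∈ S, ¬ WellOrderingRel y x

lemma exists_least (S : Set G) (hS : S.Nonempty) : ∃ x, Least S x :=
  ⟨WellFounded.min (IsWellFounded.wf (r := (WellOrderingRel : G → G → Prop))) S hS,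
    WellFounded.min_mem _ S hS, fun _ hy => WellFounded.not_lt_min _ S hy⟩

lemma least_unique (S : Set G) (x y : G) (hx : Least S x) (hy : Least S y) : x = y := by
  rcases trichotomous_of (WellOrderingRel : G → G → Prop) x y with h | h | h
  · exact absurd h (hy.2 x hx.1)
  · exact h
  · exact absurd h (hx.2 y hy.1)

lemma mk_freeGroup_le (α : Type u) : #(FreeGroup α) ≤ max #α ℵ₀ := by
  rcases isEmpty_or_nonempty α with h | h
  · have : #(FreeGroup α) = 1 := by
      rw [Cardinal.eq_one_iff_unique]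
      constructor
      · infer_instance
      · infer_instance
    rw [this]
    exact le_max_of_le_right Cardinal.one_le_aleph0
  · rw [Cardinal.mk_freeGroup]

lemma mk_closure_lt (κ : Cardinal.{u}) (hκ : ℵ₀ < κ) (S : Set G) (hS : #S < κ) :
    #(Subgroup.closure S) < κ := by
  have h1 : Subgroup.closure S = (FreeGroup.lift (Subtype.val : S → G)).range := by
    rw [FreeGroup.range_lift_eq_closure, Subtype.range_coe]
  rw [h1]
  refine lt_of_le_of_lt (b := #(FreeGroup S)) ?_ ?_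
  · exact Cardinal.mk_le_of_surjective (MonoidHom.rangeRestrict_surjective _)
  · exact (mk_freeGroup_le S).trans_lt (max_lt hS hκ)

/-- The members of `X` in the right coset `L x`. -/
def Co (X : Set G) (L : Subgroup G) (x : G) : Set G := {y | y ∈ X ∧ y * x⁻¹ ∈ L}

lemma Co_eq (X : Set G) (L : Subgroup G) (x z : G) (h : z * x⁻¹ ∈ L) : Co X L z = Co X L x := by
  ext y
  simp only [Co, Set.mem_ofPred_eq]
  have h1 : y * x⁻¹ = (y * z⁻¹) * (z * x⁻¹) := by group
  rw [h1, Subgroup.mul_mem_cancel_right _ h]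

lemma Co_mono (X : Set G) (L L' : Subgroup G) (h : L ≤ L') (x : G) : Co X L x ⊆ Co X L' x :=
  fun _ hy => ⟨hy.1, h hy.2⟩

lemma exists_fam (κ : Cardinal.{u}) (hκ : ℵ₀ < κ) (hG : κ ≤ #G) (X : Set G) (hX : LS X) :
    ∃ (J : Type u) (A : J → Set G), #J = κ ∧ (∀ i j, i ≠ j → Disjoint (A i) (A j)) ∧
      (∀ i, A i ⊆ X) ∧ ∀ i, ∃ F : Set G, #F < κ ∧ F * A i = Set.univ := by
  classical
  obtain ⟨F0, hF0, hFX⟩ := hX
  set I : Type u := κ.ord.ToType with hI
  have hIc : #I = κ := Cardinal.mk_ord_toType κ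
  obtain ⟨h⟩ : Nonempty (I ↪ G) := by
    rw [← Cardinal.le_def, hIc]; exact hG
  have hF0c : #F0 < κ := (Cardinal.lt_aleph0_iff_finite.2 hF0).trans hκ
  have hIio : ∀ i : I, #(Set.Iio i) < κ := by
    intro i
    have := Cardinal.mk_Iio_lt i (by rw [hIc]; exact (Ordinal.type_toType _).symm)
    rwa [hIc] at this
  have hIic : ∀ i : I, #(Set.Iic i) < κ := by
    intro i
    have h1 : Set.Iic i = Set.Iio i ∪ {i} := by
      ext x
      simp only [Set.mem_Iic, Set.mem_union, Set.mem_Iio, Set.mem_singleton_iff]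
      exact le_iff_lt_or_eq
    rw [h1]
    refine (Cardinal.mk_union_le _ _).trans_lt ?_
    apply Cardinal.add_lt_of_lt hκ.le (hIio i)
    rw [Cardinal.mk_singleton]
    exact Cardinal.one_lt_aleph0.trans hκ
  have hgen : ∀ S : Set I, #S < κ → #(Subgroup.closure (F0 ∪ h '' S)) < κ := by
    intro S hS
    apply mk_closure_lt κ hκ
    refine (Cardinal.mk_union_le _ _).trans_lt ?_
    exact Cardinal.add_lt_of_lt hκ.le hF0c (Cardinal.mk_image_le.trans_lt hS)
  set H : I → Subgroup G := fun i => Subgroup.closure (F0 ∪ h '' Set.Iio i) with hH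
  set K : I → Subgroup G := fun i => Subgroup.closure (F0 ∪ h '' Set.Iic i) with hK
  have hHK : ∀ i, H i ≤ K i := fun i => Subgroup.closure_mono
    (Set.union_subset_union_right _ (Set.image_mono Set.Iio_subset_Iic_self))
  have hKH : ∀ i j, i < j → K i ≤ H j := fun i j hij => Subgroup.closure_mono
    (Set.union_subset_union_right _ (Set.image_mono (Set.Iic_subset_Iio.2 hij)))
  have hhK : ∀ i, h i ∈ K i := fun i => Subgroup.subset_closure
    (Or.inr (Set.mem_image_of_mem _ (le_refl i)))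
  have hF0H : ∀ i, ∀ f ∈ F0, f ∈ H i := fun i f hf => Subgroup.subset_closure (Or.inl hf)
  set J : Type u := {i : I // h i ∉ H i} with hJ
  have hJc : #J = κ := by
    apply le_antisymm
    · rw [← hIc]; exact Cardinal.mk_subtype_le _
    · by_contra hcon
      rw [not_le] at hcon
      set S : Set I := {i | h i ∉ H i} with hS
      have hS' : #S < κ := hcon
      have h1 := hgen S hS'
      have h2 : ∀ i : I, h i ∈ Subgroup.closure (F0 ∪ h '' S) := by
        intro i
        induction i using WellFoundedLT.induction with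
        | _ i ih =>
        by_cases hi : h i ∈ H i
        · have h3 : H i ≤ Subgroup.closure (F0 ∪ h '' S) := by
            rw [hH, Subgroup.closure_le]
            rintro x (hx | ⟨j, hj, rfl⟩)
            · exact Subgroup.subset_closure (Or.inl hx)
            · exact ih j hj
          exact h3 hi
        · exact Subgroup.subset_closure (Or.inr ⟨i, hi, rfl⟩)
      have h3 : κ ≤ #(Subgroup.closure (F0 ∪ h '' S)) := by
        rw [← hIc]
        exact Cardinal.mk_le_of_injective (f := fun i : I =>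
          (⟨h i, h2 i⟩ : Subgroup.closure (F0 ∪ h '' S))) (fun i j hij => h.injective
            (congrArg Subtype.val hij))
      exact absurd (h3.trans_lt h1) (lt_irrefl _)
  refine ⟨J, fun j => {x | x ∈ X ∧ Least (Co X (H j.1) x) x ∧ ¬ Least (Co X (K j.1) x) x}, hJc,
    ?_, fun i x hx => hx.1, ?_⟩
  · have key : ∀ i j : J, i.1 < j.1 → Disjoint
        ({x | x ∈ X ∧ Least (Co X (H i.1) x) x ∧ ¬ Least (Co X (K i.1) x) x})
        ({x | x ∈ X ∧ Least (Co X (H j.1) x) x ∧ ¬ Least (Co X (K j.1) x) x}) := by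
      intro i j hij
      rw [Set.disjoint_left]
      rintro x ⟨hx, h1, h2⟩ ⟨-, h3, h4⟩
      apply h2
      refine ⟨⟨hx, by simp⟩, fun y hy => h3.2 y (Co_mono X _ _ (hKH _ _ hij) x hy)⟩
    intro i j hij
    rcases lt_trichotomy i.1 j.1 with hlt | heq | hlt
    · exact key i j hlt
    · exact absurd (Subtype.ext heq) hij
    · exact (key j i hlt).symm
  · intro j
    refine ⟨(K j.1 : Set G), hgen _ (hIic _), ?_⟩
    rw [Set.eq_univ_iff_forall]
    intro g
    have hne : ∀ z : G, (Co X (H j.1) z).Nonempty := by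
      intro z
      obtain ⟨f, hf, hfz⟩ := hFX z
      exact ⟨f * z, hfz, by rw [mul_inv_cancel_right]; exact hF0H _ f hf⟩
    obtain ⟨a, ha⟩ := exists_least _ (hne g)
    obtain ⟨b, hb⟩ := exists_least _ (hne (h j.1 * g))
    have ha' : a * g⁻¹ ∈ H j.1 := ha.1.2
    have hb' : b * (h j.1 * g)⁻¹ ∈ H j.1 := hb.1.2
    have haK : a * g⁻¹ ∈ K j.1 := hHK _ ha'
    have hbK : b * g⁻¹ ∈ K j.1 := by
      have h1 : b * g⁻¹ = (b * (h j.1 * g)⁻¹) * h j.1 := by group
      rw [h1]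
      exact mul_mem (hHK _ hb') (hhK _)
    have hCa : Co X (H j.1) a = Co X (H j.1) g := Co_eq X _ _ _ ha'
    have hCb : Co X (H j.1) b = Co X (H j.1) (h j.1 * g) := Co_eq X _ _ _ hb'
    have hCaK : Co X (K j.1) a = Co X (K j.1) g := Co_eq X _ _ _ haK
    have hCbK : Co X (K j.1) b = Co X (K j.1) g := Co_eq X _ _ _ hbK
    have main : ∀ x : G, x ∈ X → x * g⁻¹ ∈ K j.1 → Least (Co X (H j.1) x) x →
        ¬ Least (Co X (K j.1) x) x → g ∈ (K j.1 : Set G) *
          {x | x ∈ X ∧ Least (Co X (H j.1) x) x ∧ ¬ Least (Co X (K j.1) x) x} := by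
      intro x hxX hxK h1 h2
      refine Set.mem_mul.2 ⟨g * x⁻¹, ?_, x, ⟨hxX, h1, h2⟩, by group⟩
      have h3 : g * x⁻¹ = (x * g⁻¹)⁻¹ := by group
      rw [h3]
      exact inv_mem hxK
    by_cases h1 : Least (Co X (K j.1) a) a
    · by_cases h2 : Least (Co X (K j.1) b) b
      · exfalso
        rw [hCaK] at h1
        rw [hCbK] at h2
        have hab : a = b := least_unique _ _ _ h1 h2
        apply j.2
        have h3 : h j.1 = (b * (h j.1 * g)⁻¹)⁻¹ * (a * g⁻¹) := by
          rw [hab]; group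
        rw [h3]
        exact mul_mem (inv_mem hb') ha'
      · exact main b hb.1.1 hbK (by rw [hCb]; exact hb) h2
    · exact main a ha.1.1 haK (by rw [hCa]; exact ha) h1

/-- The one-sided partition of a left syndetic set. -/
lemma exists_left [Infinite G] (κ : Cardinal.{u}) (hκ : ℵ₀ ≤ κ) (hG : κ ≤ #G) (X : Set G)
    (hX : LS X) :
    ∃ A : κ.out → Set G, (∀ i j, i ≠ j → Disjoint (A i) (A j)) ∧
      (∀ i, A i ⊆ X) ∧ ∀ i, ∃ F : Set G, #F < κ ∧ F * A i = Set.univ := by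
  suffices h : ∃ (J : Type u) (A : J → Set G), #J = κ ∧ (∀ i j, i ≠ j → Disjoint (A i) (A j)) ∧
      (∀ i, A i ⊆ X) ∧ ∀ i, ∃ F : Set G, #F < κ ∧ F * A i = Set.univ by
    obtain ⟨J, A, hJ, h1, h2, h3⟩ := h
    obtain ⟨e⟩ : Nonempty (κ.out ≃ J) := by
      rw [← Cardinal.eq, hJ, Cardinal.mk_out]
    exact ⟨fun i => A (e i), fun i j hij => h1 _ _ (fun h => hij (e.injective h)),
      fun i => h2 _, fun i => h3 _⟩
  rcases hκ.eq_or_lt with h | h
  · obtain ⟨A, h1, h2, h3⟩ := exists_seq X hX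
    refine ⟨ULift.{u} ℕ, fun n => A n.down, by rw [Cardinal.mk_uLift, Cardinal.mk_nat, Cardinal.lift_aleph0, h], fun i j hij => h1 _ _ (fun hh => hij (ULift.down_injective hh)), fun i => h2 _, ?_⟩
    intro i
    obtain ⟨F, hF, hFA⟩ := h3 _
    refine ⟨F⁻¹, ?_, ?_⟩
    · rw [← h]
      exact Cardinal.lt_aleph0_iff_finite.2 hF.inv
    · rw [Set.eq_univ_iff_forall]
      intro g
      obtain ⟨f, hf, hfg⟩ := hFA g
      exact Set.mem_mul.2 ⟨f⁻¹, Set.inv_mem_inv.2 hf, f * g, hfg, by group⟩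
  · exact exists_fam κ h hG X hX

lemma exists_right [Infinite G] (κ : Cardinal.{u}) (hκ : ℵ₀ ≤ κ) (hG : κ ≤ #G) (X : Set G)
    (hX : RS X) :
    ∃ A : κ.out → Set G, (∀ i j, i ≠ j → Disjoint (A i) (A j)) ∧
      (∀ i, A i ⊆ X) ∧ ∀ i, ∃ F : Set G, #F < κ ∧ A i * F = Set.univ := by
  have hX' : LS X⁻¹ := by
    obtain ⟨F, hF, hFX⟩ := hX
    refine ⟨F⁻¹, hF.inv, ?_⟩
    intro g
    obtain ⟨f, hf, hfg⟩ := hFX g⁻¹
    refine ⟨f⁻¹, Set.inv_mem_inv.2 hf, ?_⟩
    rw [Set.mem_inv]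
    have : (f⁻¹ * g)⁻¹ = g⁻¹ * f := by group
    rw [this]; exact hfg
  obtain ⟨A, h1, h2, h3⟩ := exists_left κ hκ hG X⁻¹ hX'
  refine ⟨fun i => (A i)⁻¹, ?_, ?_, ?_⟩
  · intro i j hij
    have := h1 i j hij
    rw [Set.disjoint_left] at this ⊢
    intro x hx hx'
    exact this (Set.mem_inv.1 hx) (Set.mem_inv.1 hx')
  · intro i x hx
    have := h2 i (Set.mem_inv.1 hx)
    rw [Set.mem_inv, inv_inv] at this
    exact this
  · intro i
    obtain ⟨F, hF, hFA⟩ := h3 _
    refine ⟨F⁻¹, ?_, ?_⟩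
    · rw [Cardinal.mk_inv]; exact hF
    · rw [← mul_inv_rev, hFA, Set.inv_univ]

/-- Every infinite group has, for each infinite `κ ≤ |G|`, a partition into `κ` cells each of which
is left and right `κ`-large. -/
theorem main [Infinite G] (κ : Cardinal.{u}) (hκ : ℵ₀ ≤ κ) (hG : κ ≤ #G) :
    ∃ P : Set (Set G), Setoid.IsPartition P ∧ #P = κ ∧ ∀ A ∈ P,
      (∃ F : Set G, #F < κ ∧ F * A = Set.univ) ∧ (∃ F : Set G, #F < κ ∧ A * F = Set.univ) := by
  classical
  obtain ⟨P, Q, hPQ, hP, hQ⟩ := exists_halves (G := G)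
  obtain ⟨A, hA1, hA2, hA3⟩ := exists_left κ hκ hG P hP
  obtain ⟨B, hB1, hB2, hB3⟩ := exists_right κ hκ hG Q hQ
  have hne : Nonempty κ.out := by
    rw [← Cardinal.mk_ne_zero_iff, Cardinal.mk_out]
    exact (Cardinal.aleph0_pos.trans_le hκ).ne'
  obtain ⟨i0⟩ := hne
  set D : κ.out → Set G := fun i => A i ∪ B i with hD
  set U : Set G := (⋃ i, D i)ᶜ with hU
  set C : κ.out → Set G := fun i => if i = i0 then D i ∪ U else D i with hC
  have hDdisj : ∀ i j x, x ∈ D i → x ∈ D j → i = j := by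
    intro i j x hi hj
    by_contra hij
    rcases hi with hi | hi <;> rcases hj with hj | hj
    · exact Set.disjoint_left.1 (hA1 i j hij) hi hj
    · exact Set.disjoint_left.1 hPQ (hA2 _ hi) (hB2 _ hj)
    · exact Set.disjoint_left.1 hPQ (hA2 _ hj) (hB2 _ hi)
    · exact Set.disjoint_left.1 (hB1 i j hij) hi hj
  have hDC : ∀ i, D i ⊆ C i := by
    intro i x hx
    simp only [hC]
    split_ifs
    · exact Or.inl hx
    · exact hx
  have hCdisj : ∀ i j x, x ∈ C i → x ∈ C j → i = j := by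
    intro i j x hi hj
    simp only [hC] at hi hj
    split_ifs at hi hj with h1 h2 h2
    · rw [h1, h2]
    · rcases hi with hi | hi
      · exact hDdisj i j x hi hj
      · exact absurd (Set.mem_iUnion.2 ⟨j, hj⟩) hi
    · rcases hj with hj | hj
      · exact hDdisj i j x hi hj
      · exact absurd (Set.mem_iUnion.2 ⟨i, hi⟩) hj
    · exact hDdisj i j x hi hj
  have hCcov : ∀ x, ∃ i, x ∈ C i := by
    intro x
    by_cases hx : x ∈ ⋃ i, D i
    · obtain ⟨i, hi⟩ := Set.mem_iUnion.1 hx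
      exact ⟨i, hDC i hi⟩
    · refine ⟨i0, ?_⟩
      simp only [hC, if_true]
      exact Or.inr hx
  have hCne : ∀ i, (C i).Nonempty := by
    intro i
    obtain ⟨F, -, hF⟩ := hA3 i
    have h1 : (1 : G) ∈ F * A i := by rw [hF]; exact Set.mem_univ _
    obtain ⟨f, -, a, ha, -⟩ := Set.mem_mul.1 h1
    exact ⟨a, hDC i (Or.inl ha)⟩
  have hCinj : Function.Injective C := by
    intro i j hij
    obtain ⟨x, hx⟩ := hCne i
    exact hCdisj i j x hx (hij ▸ hx)
  refine ⟨Set.range C, ⟨?_, ?_⟩, ?_, ?_⟩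
  · rintro ⟨i, hi⟩
    obtain ⟨x, hx⟩ := hCne i
    rw [hi] at hx
    exact hx
  · intro x
    obtain ⟨i, hi⟩ := hCcov x
    refine ⟨C i, ⟨⟨i, rfl⟩, hi⟩, ?_⟩
    rintro _ ⟨⟨j, rfl⟩, hj⟩
    rw [hCdisj j i x hj hi]
  · rw [Cardinal.mk_range_eq C hCinj, Cardinal.mk_out]
  · rintro _ ⟨i, rfl⟩
    constructor
    · obtain ⟨F, hFc, hF⟩ := hA3 i
      refine ⟨F, hFc, ?_⟩
      rw [Set.eq_univ_iff_forall] at hF ⊢
      intro g
      obtain ⟨f, hf, a, ha, hfa⟩ := Set.mem_mul.1 (hF g)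
      exact Set.mem_mul.2 ⟨f, hf, a, hDC i (Or.inl ha), hfa⟩
    · obtain ⟨F, hFc, hF⟩ := hB3 i
      refine ⟨F, hFc, ?_⟩
      rw [Set.eq_univ_iff_forall] at hF ⊢
      intro g
      obtain ⟨a, ha, f, hf, hfa⟩ := Set.mem_mul.1 (hF g)
      exact Set.mem_mul.2 ⟨a, hDC i (Or.inr ha), f, hf, hfa⟩

end Pool.Agent.H42R3.KPart
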