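import Pool.Agent.H42R3.KPart2

set_option autoImplicit false

namespace Pool.Agent.H42R3.KPart
open scoped Pointwise Cardinal
open Cardinal

universe u
variable {G : Type u} [Group G]

/-- The right coset `L x`. -/
def RC (L : Subgroup G) (x : G) : Set G := {y | y * x⁻¹ ∈ L}

lemma RC_eq (L : Subgroup G) (x z : G) (h : z * x⁻¹ ∈ L) : RC L z = RC L x := by
  ext y
  simp only [RC, Set.mem_ofPred_eq]
  have h1 : y * x⁻¹ = (y * z⁻¹) * (z * x⁻¹) := by group
  rw [h1, Subgroup.mul_mem_cancel_right _ h]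

lemma mem_RC_self (L : Subgroup G) (x : G) : x ∈ RC L x := by
  simp [RC]

/-- The least element of the right coset `L x`. -/
noncomputable def lr (L : Subgroup G) (x : G) : G :=
  Classical.choose (exists_least (RC L x) ⟨x, mem_RC_self L x⟩)

lemma lr_spec (L : Subgroup G) (x : G) : Least (RC L x) (lr L x) :=
  Classical.choose_spec (exists_least (RC L x) ⟨x, mem_RC_self L x⟩)

lemma lr_congr (L : Subgroup G) (x z : G) (h : z * x⁻¹ ∈ L) : lr L z = lr L x := by
  apply least_unique (RC L x)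
  · rw [← RC_eq L x z h]; exact lr_spec L z
  · exact lr_spec L x

lemma lr_mem (L : Subgroup G) (x : G) : lr L x * x⁻¹ ∈ L := (lr_spec L x).1

/-- Two elements with the same least coset element are in the same coset. -/
lemma of_lr_eq (L : Subgroup G) (x z : G) (h : lr L z = lr L x) : z * x⁻¹ ∈ L := by
  have h1 := lr_mem L x
  have h2 := lr_mem L z
  have h3 : z * x⁻¹ = (lr L z * z⁻¹)⁻¹ * (lr L x * x⁻¹) := by rw [h]; group
  rw [h3]
  exact mul_mem (inv_mem h2) h1

lemma lr_mono (L L' : Subgroup G) (h : L ≤ L') (x : G) : ¬ WellOrderingRel (lr L x) (lr L' x) := by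
  apply (lr_spec L' x).2
  exact h (lr_mem L x)

/-- In a group of uncountable cardinality `κ`, a left syndetic set contains `κ` pairwise disjoint
sets, each of which meets every right coset of a countable subgroup. -/
lemma exists_fam_aleph1 (hκ : ℵ₀ < #G) (X : Set G) (hX : LS X) :
    ∃ (J : Type u) (A : J → Set G), #J = #G ∧ (∀ i j, i ≠ j → Disjoint (A i) (A j)) ∧
      (∀ i, A i ⊆ X) ∧ ∀ i, ∃ F : Set G, F.Countable ∧ F * A i = Set.univ := by
  classical
  obtain ⟨F0, hF0, hFX⟩ := hX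
  have : Infinite G := Cardinal.infinite_iff.2 hκ.le
  set κ := #G with hκdef
  set I : Type u := κ.ord.ToType with hI
  have hIc : #I = κ := Cardinal.mk_ord_toType κ
  obtain ⟨h⟩ : Nonempty (I ↪ G) := by
    rw [← Cardinal.le_def, hIc]
  -- the countable infinite subgroup
  obtain ⟨s, hs⟩ : ∃ s : Set G, s.Countable ∧ s.Infinite := by
    refine ⟨Set.range (Infinite.natEmbedding G), Set.countable_range _, ?_⟩
    exact Set.infinite_range_of_injective (Infinite.natEmbedding G).injective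
  set C : Subgroup G := Subgroup.closure (F0 ∪ s) with hC
  have clcount : ∀ S : Set G, S.Countable → (Subgroup.closure S : Set G).Countable := by
    intro S hS
    have : Countable S := hS.to_subtype
    have h1 : (Subgroup.closure S : Set G) = Set.range (FreeGroup.lift (Subtype.val : S → G)) := by
      rw [← MonoidHom.coe_range, FreeGroup.range_lift_eq_closure, Subtype.range_coe]
    rw [h1]
    have : Countable (FreeGroup S) := by
      apply Function.Injective.countable (FreeGroup.toWord_injective (α := S))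
    exact Set.countable_range _
  have hCc : (C : Set G).Countable := clcount _ (hF0.countable.union hs.1)
  have hCinf : (C : Set G).Infinite := hs.2.mono (fun x hx => Subgroup.subset_closure (Or.inr hx))
  have hF0C : ∀ f ∈ F0, f ∈ C := fun f hf => Subgroup.subset_closure (Or.inl hf)
  have hXC : ∀ g : G, (X ∩ RC C g).Infinite := by
    intro g hfin
    apply hCinf
    -- `C ⊆ ⋃ f ∈ F0, f⁻¹ (X ∩ C g) g⁻¹`
    have hsub : (C : Set G) ⊆ F0⁻¹ * ((X ∩ RC C g) * {g⁻¹}) := by
      intro c hc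
      obtain ⟨f, hf, hfc⟩ := hFX (c * g)
      refine Set.mem_mul.2 ⟨f⁻¹, Set.inv_mem_inv.2 hf, f * (c * g) * g⁻¹,
        Set.mul_mem_mul ⟨hfc, ?_⟩ rfl, by group⟩
      change f * (c * g) * g⁻¹ ∈ C
      have : f * (c * g) * g⁻¹ = f * c := by group
      rw [this]
      exact mul_mem (hF0C f hf) hc
    exact (hF0.inv.mul (hfin.mul (Set.finite_singleton _))).subset hsub
  have hCκ : #(C : Set G) < κ := by
    have : Countable (C : Set G) := hCc.to_subtype
    exact (Cardinal.mk_le_aleph0).trans_lt hκ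
  have hIio : ∀ i : I, #(Set.Iio i) < κ := by
    intro i
    have := Cardinal.mk_Iio_lt i (by rw [hIc]; exact (Ordinal.type_toType _).symm)
    rwa [hIc] at this
  have hgen : ∀ S : Set I, #S < κ → #(Subgroup.closure ((C : Set G) ∪ h '' S)) < κ := by
    intro S hS
    apply mk_closure_lt κ hκ
    refine (Cardinal.mk_union_le _ _).trans_lt ?_
    exact Cardinal.add_lt_of_lt hκ.le hCκ (Cardinal.mk_image_le.trans_lt hS)
  set H : I → Subgroup G := fun i => Subgroup.closure ((C : Set G) ∪ h '' Set.Iio i) with hH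
  set K : I → Subgroup G := fun i => Subgroup.closure ((C : Set G) ∪ h '' Set.Iic i) with hK
  have hHK : ∀ i, H i ≤ K i := fun i => Subgroup.closure_mono
    (Set.union_subset_union_right _ (Set.image_mono Set.Iio_subset_Iic_self))
  have hKH : ∀ i j, i < j → K i ≤ H j := fun i j hij => Subgroup.closure_mono
    (Set.union_subset_union_right _ (Set.image_mono (Set.Iic_subset_Iio.2 hij)))
  have hhK : ∀ i, h i ∈ K i := fun i => Subgroup.subset_closure
    (Or.inr (Set.mem_image_of_mem _ (le_refl i)))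
  have hCH : ∀ i, C ≤ H i := fun i c hc => Subgroup.subset_closure (Or.inl hc)
  set J : Type u := {i : I // h i ∉ H i} with hJ
  have hJc : #J = κ := by
    apply le_antisymm
    · rw [← hIc]; exact Cardinal.mk_subtype_le _
    · by_contra hcon
      rw [not_le] at hcon
      set S : Set I := {i | h i ∉ H i} with hS
      have hS' : #S < κ := hcon
      have h1 := hgen S hS'
      have h2 : ∀ i : I, h i ∈ Subgroup.closure ((C : Set G) ∪ h '' S) := by
        intro i
        induction i using WellFoundedLT.induction with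
        | _ i ih =>
        by_cases hi : h i ∈ H i
        · have h3 : H i ≤ Subgroup.closure ((C : Set G) ∪ h '' S) := by
            rw [hH, Subgroup.closure_le]
            rintro x (hx | ⟨j, hj, rfl⟩)
            · exact Subgroup.subset_closure (Or.inl hx)
            · exact ih j hj
          exact h3 hi
        · exact Subgroup.subset_closure (Or.inr ⟨i, hi, rfl⟩)
      have h3 : κ ≤ #(Subgroup.closure ((C : Set G) ∪ h '' S)) := by
        rw [← hIc]
        exact Cardinal.mk_le_of_injective (f := fun i : I =>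
          (⟨h i, h2 i⟩ : Subgroup.closure ((C : Set G) ∪ h '' S))) (fun i j hij => h.injective
            (congrArg Subtype.val hij))
      exact absurd (h3.trans_lt h1) (lt_irrefl _)
  -- the levels at which the least element changes
  set Ch : G → Set J := fun g => {i | lr (H i.1) g ≠ lr (K i.1) g} with hCh
  have hChfin : ∀ g, (Ch g).Finite := by
    intro g
    rw [← Set.finite_coe_iff]
    have hdec : ∀ i j : Ch g, i < j →
        WellOrderingRel (lr (H j.1.1) g) (lr (H i.1.1) g) := by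
      intro i j hij
      have hlt : i.1.1 < j.1.1 := hij
      have h1 : ¬ WellOrderingRel (lr (K i.1.1) g) (lr (H j.1.1) g) := lr_mono _ _ (hKH _ _ hlt) g
      have h2 : ¬ WellOrderingRel (lr (H i.1.1) g) (lr (K i.1.1) g) := lr_mono _ _ (hHK _) g
      have h3 : lr (H i.1.1) g ≠ lr (K i.1.1) g := i.2
      rcases trichotomous_of (WellOrderingRel : G → G → Prop) (lr (H i.1.1) g) (lr (K i.1.1) g)
        with h4 | h4 | h4
      · exact absurd h4 h2
      · exact absurd h4 h3
      · rcases trichotomous_of (WellOrderingRel : G → G → Prop) (lr (K i.1.1) g)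
          (lr (H j.1.1) g) with h5 | h5 | h5
        · exact absurd h5 h1
        · rw [← h5]; exact h4
        · exact trans_of WellOrderingRel h5 h4
    have hwf : WellFoundedGT (Ch g) := by
      constructor
      have hw := (IsWellFounded.wf (r := (WellOrderingRel : G → G → Prop)))
      have hw2 := InvImage.wf (fun i : Ch g => lr (H i.1.1) g) hw
      refine Subrelation.wf (r := InvImage WellOrderingRel (fun i : Ch g => lr (H i.1.1) g)) ?_ hw2
      intro a b hab
      exact hdec b a hab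
    exact Finite.of_wellFoundedLT_wellFoundedGT _
  have hChC : ∀ g g' : G, g' * g⁻¹ ∈ C → Ch g' = Ch g := by
    intro g g' hgg
    ext i
    simp only [hCh, Set.mem_ofPred_eq]
    rw [lr_congr (H i.1) g g' (hCH _ hgg), lr_congr (K i.1) g g' (hHK _ (hCH _ hgg))]
  -- the injections
  have hinj : ∀ g : G, ∃ f : Ch g → (X ∩ RC C g : Set G), Function.Injective f := by
    intro g
    have hfin : Finite (Ch g) := (hChfin g).to_subtype
    have hinf : Infinite (X ∩ RC C g : Set G) := (hXC g).to_subtype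
    obtain ⟨n, ⟨e⟩⟩ := Finite.exists_equiv_fin (Ch g)
    exact ⟨fun i => Infinite.natEmbedding _ (e i).1, fun i j hij => by
      apply e.injective
      apply Fin.ext
      exact (Infinite.natEmbedding _).injective hij⟩
  choose ι hι using hinj
  refine ⟨J, fun i => {x | ∃ (g : G) (hi : i ∈ Ch g), lr C g = g ∧ x = (ι g ⟨i, hi⟩).1}, hJc, ?_, ?_, ?_⟩
  · intro i j hij
    rw [Set.disjoint_left]
    rintro x ⟨g, hi, hg, hx⟩ ⟨g', hj, hg', hx'⟩
    have h1 : x * g⁻¹ ∈ C := by rw [hx]; exact (ι g ⟨i, hi⟩).2.2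
    have h2 : x * g'⁻¹ ∈ C := by rw [hx']; exact (ι g' ⟨j, hj⟩).2.2
    have h3 : g = g' := by
      rw [← hg, ← hg', ← lr_congr C g x h1, ← lr_congr C g' x h2]
    subst h3
    apply hij
    have h4 : ι g ⟨i, hi⟩ = ι g ⟨j, hj⟩ := Subtype.ext (hx.symm.trans hx')
    exact congrArg Subtype.val (hι g h4)
  · rintro i x ⟨g, hi, hg, hx⟩
    rw [hx]
    exact (ι g ⟨i, hi⟩).2.1
  · intro i
    set Fi : Subgroup G := Subgroup.closure ((C : Set G) ∪ {h i.1}) with hFi
    refine ⟨(Fi : Set G), clcount _ (hCc.union (Set.countable_singleton _)), ?_⟩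
    have hCFi : C ≤ Fi := fun c hc => Subgroup.subset_closure (Or.inl hc)
    have hhFi : h i.1 ∈ Fi := Subgroup.subset_closure (Or.inr rfl)
    rw [Set.eq_univ_iff_forall]
    intro g
    -- a coset of `C` in `Fi g` with a change at level `i`
    have hex : ∃ g1 : G, g1 * g⁻¹ ∈ Fi ∧ i ∈ Ch g1 := by
      by_contra hcon
      push Not at hcon
      have h1 := hcon g (by simp)
      have h2 := hcon (h i.1 * g) (by simpa using hhFi)
      simp only [hCh, Set.mem_ofPred_eq, not_not] at h1 h2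
      have h3 : lr (K i.1) (h i.1 * g) = lr (K i.1) g := lr_congr _ _ _ (by simpa using hhK i.1)
      have h4 : lr (H i.1) (h i.1 * g) = lr (H i.1) g := by rw [h2, h3, h1]
      have h5 := of_lr_eq _ _ _ h4
      apply i.2
      simpa using h5
    obtain ⟨g1, hg1, hi1⟩ := hex
    set g2 := lr C g1 with hg2
    have h21 : g2 * g1⁻¹ ∈ C := lr_mem C g1
    have hi2 : i ∈ Ch g2 := by rw [hChC g1 g2 h21]; exact hi1
    have hlr : lr C g2 = g2 := lr_congr C g1 g2 h21
    set x := (ι g2 ⟨i, hi2⟩).1 with hx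
    have hxC : x * g2⁻¹ ∈ C := (ι g2 ⟨i, hi2⟩).2.2
    have hxF : x * g⁻¹ ∈ Fi := by
      have h1 : x * g⁻¹ = (x * g2⁻¹) * (g2 * g1⁻¹) * (g1 * g⁻¹) := by group
      rw [h1]
      exact mul_mem (mul_mem (hCFi hxC) (hCFi h21)) hg1
    refine Set.mem_mul.2 ⟨g * x⁻¹, ?_, x, ⟨g2, hi2, hlr, rfl⟩, by group⟩
    have h1 : g * x⁻¹ = (x * g⁻¹)⁻¹ := by group
    rw [h1]
    exact inv_mem hxF

/-- One-sided version in a group of arbitrary infinite cardinality. -/
lemma exists_left1 [Infinite G] (X : Set G) (hX : LS X) :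
    ∃ A : G → Set G, (∀ i j, i ≠ j → Disjoint (A i) (A j)) ∧
      (∀ i, A i ⊆ X) ∧ ∀ i, ∃ F : Set G, F.Countable ∧ F * A i = Set.univ := by
  suffices h : ∃ (J : Type u) (A : J → Set G), #J = #G ∧ (∀ i j, i ≠ j → Disjoint (A i) (A j)) ∧
      (∀ i, A i ⊆ X) ∧ ∀ i, ∃ F : Set G, F.Countable ∧ F * A i = Set.univ by
    obtain ⟨J, A, hJ, h1, h2, h3⟩ := h
    obtain ⟨e⟩ : Nonempty (G ≃ J) := by
      rw [← Cardinal.eq, hJ]
    exact ⟨fun i => A (e i), fun i j hij => h1 _ _ (fun h => hij (e.injective h)),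
      fun i => h2 _, fun i => h3 _⟩
  rcases (Cardinal.infinite_iff.1 (inferInstance : Infinite G)).eq_or_lt with h | h
  · obtain ⟨A, h1, h2, h3⟩ := exists_seq X hX
    refine ⟨ULift.{u} ℕ, fun n => A n.down, by rw [Cardinal.mk_uLift, Cardinal.mk_nat,
      Cardinal.lift_aleph0, h], fun i j hij => h1 _ _ (fun hh => hij (ULift.down_injective hh)),
      fun i => h2 _, ?_⟩
    intro i
    obtain ⟨F, hF, hFA⟩ := h3 _
    refine ⟨F⁻¹, hF.inv.countable, ?_⟩
    rw [Set.eq_univ_iff_forall]
    intro g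
    obtain ⟨f, hf, hfg⟩ := hFA g
    exact Set.mem_mul.2 ⟨f⁻¹, Set.inv_mem_inv.2 hf, f * g, hfg, by group⟩
  · exact exists_fam_aleph1 h X hX

lemma exists_right1 [Infinite G] (X : Set G) (hX : RS X) :
    ∃ A : G → Set G, (∀ i j, i ≠ j → Disjoint (A i) (A j)) ∧
      (∀ i, A i ⊆ X) ∧ ∀ i, ∃ F : Set G, F.Countable ∧ A i * F = Set.univ := by
  have hX' : LS X⁻¹ := by
    obtain ⟨F, hF, hFX⟩ := hX
    refine ⟨F⁻¹, hF.inv, ?_⟩
    intro g
    obtain ⟨f, hf, hfg⟩ := hFX g⁻¹
    refine ⟨f⁻¹, Set.inv_mem_inv.2 hf, ?_⟩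
    rw [Set.mem_inv]
    have : (f⁻¹ * g)⁻¹ = g⁻¹ * f := by group
    rw [this]; exact hfg
  obtain ⟨A, h1, h2, h3⟩ := exists_left1 X⁻¹ hX'
  refine ⟨fun i => (A i)⁻¹, ?_, ?_, ?_⟩
  · intro i j hij
    have := h1 i j hij
    rw [Set.disjoint_left] at this ⊢
    intro x hx hx'
    exact this (Set.mem_inv.1 hx) (Set.mem_inv.1 hx')
  · intro i x hx
    have := h2 i (Set.mem_inv.1 hx)
    rw [Set.mem_inv, inv_inv] at this
    exact this
  · intro i
    obtain ⟨F, hF, hFA⟩ := h3 i
    refine ⟨F⁻¹, ?_, ?_⟩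
    · rw [← Set.image_inv_eq_inv]
      exact hF.image _
    · rw [← mul_inv_rev, hFA, Set.inv_univ]

/-- Every infinite group has a partition into `|G|` cells each of which is left and right
`ℵ₁`-large. -/
theorem main1 [Infinite G] :
    ∃ P : Set (Set G), Setoid.IsPartition P ∧ #P = #G ∧ ∀ A ∈ P,
      (∃ F : Set G, F.Countable ∧ F * A = Set.univ) ∧
      (∃ F : Set G, F.Countable ∧ A * F = Set.univ) := by
  classical
  obtain ⟨P, Q, hPQ, hP, hQ⟩ := exists_halves (G := G)
  obtain ⟨A, hA1, hA2, hA3⟩ := exists_left1 P hP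
  obtain ⟨B, hB1, hB2, hB3⟩ := exists_right1 Q hQ
  set i0 : G := 1 with hi0
  set D : G → Set G := fun i => A i ∪ B i with hD
  set U : Set G := (⋃ i, D i)ᶜ with hU
  set C : G → Set G := fun i => if i = i0 then D i ∪ U else D i with hC
  have hDdisj : ∀ i j x, x ∈ D i → x ∈ D j → i = j := by
    intro i j x hi hj
    by_contra hij
    rcases hi with hi | hi <;> rcases hj with hj | hj
    · exact Set.disjoint_left.1 (hA1 i j hij) hi hj
    · exact Set.disjoint_left.1 hPQ (hA2 _ hi) (hB2 _ hj)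
    · exact Set.disjoint_left.1 hPQ (hA2 _ hj) (hB2 _ hi)
    · exact Set.disjoint_left.1 (hB1 i j hij) hi hj
  have hDC : ∀ i, D i ⊆ C i := by
    intro i x hx
    simp only [hC]
    split_ifs
    · exact Or.inl hx
    · exact hx
  have hCdisj : ∀ i j x, x ∈ C i → x ∈ C j → i = j := by
    intro i j x hi hj
    simp only [hC] at hi hj
    split_ifs at hi hj with h1 h2 h2
    · rw [h1, h2]
    · rcases hi with hi | hi
      · exact hDdisj i j x hi hj
      · exact absurd (Set.mem_iUnion.2 ⟨j, hj⟩) hi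
    · rcases hj with hj | hj
      · exact hDdisj i j x hi hj
      · exact absurd (Set.mem_iUnion.2 ⟨i, hi⟩) hj
    · exact hDdisj i j x hi hj
  have hCcov : ∀ x, ∃ i, x ∈ C i := by
    intro x
    by_cases hx : x ∈ ⋃ i, D i
    · obtain ⟨i, hi⟩ := Set.mem_iUnion.1 hx
      exact ⟨i, hDC i hi⟩
    · refine ⟨i0, ?_⟩
      simp only [hC, if_true]
      exact Or.inr hx
  have hCne : ∀ i, (C i).Nonempty := by
    intro i
    obtain ⟨F, -, hF⟩ := hA3 i
    have h1 : (1 : G) ∈ F * A i := by rw [hF]; exact Set.mem_univ _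
    obtain ⟨f, -, a, ha, -⟩ := Set.mem_mul.1 h1
    exact ⟨a, hDC i (Or.inl ha)⟩
  have hCinj : Function.Injective C := by
    intro i j hij
    obtain ⟨x, hx⟩ := hCne i
    exact hCdisj i j x hx (hij ▸ hx)
  refine ⟨Set.range C, ⟨?_, ?_⟩, ?_, ?_⟩
  · rintro ⟨i, hi⟩
    obtain ⟨x, hx⟩ := hCne i
    rw [hi] at hx
    exact hx
  · intro x
    obtain ⟨i, hi⟩ := hCcov x
    refine ⟨C i, ⟨⟨i, rfl⟩, hi⟩, ?_⟩
    rintro _ ⟨⟨j, rfl⟩, hj⟩
    rw [hCdisj j i x hj hi]
  · rw [Cardinal.mk_range_eq C hCinj]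
  · rintro _ ⟨i, rfl⟩
    constructor
    · obtain ⟨F, hFc, hF⟩ := hA3 i
      refine ⟨F, hFc, ?_⟩
      rw [Set.eq_univ_iff_forall] at hF ⊢
      intro g
      obtain ⟨f, hf, a, ha, hfa⟩ := Set.mem_mul.1 (hF g)
      exact Set.mem_mul.2 ⟨f, hf, a, hDC i (Or.inl ha), hfa⟩
    · obtain ⟨F, hFc, hF⟩ := hB3 i
      refine ⟨F, hFc, ?_⟩
      rw [Set.eq_univ_iff_forall] at hF ⊢
      intro g
      obtain ⟨a, ha, f, hf, hfa⟩ := Set.mem_mul.1 (hF g)
      exact Set.mem_mul.2 ⟨a, hDC i (Or.inr ha), f, hf, hfa⟩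

end Pool.Agent.H42R3.KPart
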