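import Mathlib

set_option autoImplicit false

namespace Pool.Agent.H42R3.Mark
open Filter Topology

/-! ### A general construction of Hausdorff group topologies -/

section top
variable {G : Type} [Group G] (K : Subgroup G)

/-- the basic neighbourhoods -/
def UF (F : Finset G) : Subgroup G := K ⊓ Subgroup.centralizer (F : Set G)

lemma mem_UF {F : Finset G} {x : G} : x ∈ UF K F ↔ x ∈ K ∧ ∀ g ∈ F, g * x = x * g := by
  unfold UF
  rw [Subgroup.mem_inf, Subgroup.mem_centralizer_iff]
  rfl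

/-- the filter basis -/
def basis : GroupFilterBasis G where
  sets := {U | ∃ F : Finset G, U = (UF K F : Set G)}
  nonempty := ⟨_, ∅, rfl⟩
  inter_sets := by
    classical
    rintro _ _ ⟨F, rfl⟩ ⟨F', rfl⟩
    refine ⟨_, ⟨F ∪ F', rfl⟩, ?_⟩
    intro x hx
    rw [SetLike.mem_coe, mem_UF] at hx
    refine ⟨?_, ?_⟩
    · rw [SetLike.mem_coe, mem_UF]
      exact ⟨hx.1, fun g hg => hx.2 g (Finset.mem_union_left _ hg)⟩
    · rw [SetLike.mem_coe, mem_UF]
      exact ⟨hx.1, fun g hg => hx.2 g (Finset.mem_union_right _ hg)⟩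
  one' := by
    rintro _ ⟨F, rfl⟩
    exact (UF K F).one_mem
  mul' := by
    rintro _ ⟨F, rfl⟩
    refine ⟨_, ⟨F, rfl⟩, ?_⟩
    rintro _ ⟨x, hx, y, hy, rfl⟩
    exact (UF K F).mul_mem hx hy
  inv' := by
    rintro _ ⟨F, rfl⟩
    refine ⟨_, ⟨F, rfl⟩, ?_⟩
    intro x hx
    exact (UF K F).inv_mem hx
  conj' := by
    classical
    rintro g _ ⟨F, rfl⟩
    refine ⟨_, ⟨insert g F, rfl⟩, ?_⟩
    intro x hx
    rw [SetLike.mem_coe, mem_UF] at hx
    have h1 : g * x * g⁻¹ = x := by
      rw [hx.2 g (Finset.mem_insert_self _ _), mul_inv_cancel_right]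
    rw [Set.mem_preimage, h1, SetLike.mem_coe, mem_UF]
    exact ⟨hx.1, fun g' hg' => hx.2 g' (Finset.mem_insert_of_mem hg')⟩

theorem exists_topology (hK : ∀ x ∈ K, (∀ g, g * x = x * g) → x = 1) :
    ∃ t : TopologicalSpace G, @IsTopologicalGroup G t _ ∧ @T2Space G t ∧
      ∀ E : Set G, (∀ F : Finset G, ∃ x ∈ E, x ∈ K ∧ ∀ g ∈ F, g * x = x * g) →
        (1 : G) ∈ @closure G t E := by
  classical
  letI t : TopologicalSpace G := (basis K).topology
  haveI : IsTopologicalGroup G := (basis K).isTopologicalGroup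
  refine ⟨t, inferInstance, ?_, ?_⟩
  · apply IsTopologicalGroup.t2Space_of_one_sep
    intro x hx
    by_cases h : x ∈ K
    · have : ∃ g, g * x ≠ x * g := by
        by_contra hcon
        push Not at hcon
        exact hx (hK x h hcon)
      obtain ⟨g, hg⟩ := this
      refine ⟨(UF K {g} : Set G), ?_, ?_⟩
      · exact (basis K).mem_nhds_one ⟨{g}, rfl⟩
      · intro hx'
        rw [SetLike.mem_coe, mem_UF] at hx'
        exact hg (hx'.2 g (Finset.mem_singleton_self g))
    · refine ⟨(UF K ∅ : Set G), ?_, ?_⟩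
      · exact (basis K).mem_nhds_one ⟨∅, rfl⟩
      · intro hx'
        rw [SetLike.mem_coe, mem_UF] at hx'
        exact h hx'.1
  · intro E hE
    rw [mem_closure_iff_nhds]
    intro U hU
    rw [(basis K).nhds_one_hasBasis.mem_iff] at hU
    obtain ⟨_, ⟨F, rfl⟩, hFU⟩ := hU
    obtain ⟨x, hxE, hxK, hxF⟩ := hE F
    refine ⟨x, hFU ?_, hxE⟩
    rw [id, SetLike.mem_coe, mem_UF]
    exact ⟨hxK, hxF⟩

end top

/-! ### The Heisenberg type group -/

/-- sequences vanishing along the ultrafilter -/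
def J : AddSubgroup (ℕ → ZMod 2) where
  carrier := {s | ∀ᶠ n in (hyperfilter ℕ : Filter ℕ), s n = 0}
  add_mem' := by
    intro s s' hs hs'
    filter_upwards [hs, hs'] with n h h'
    rw [Pi.add_apply, h, h', add_zero]
  zero_mem' := Eventually.of_forall fun _ => rfl
  neg_mem' := by
    intro s hs
    filter_upwards [hs] with n h
    rw [Pi.neg_apply, h, neg_zero]

/-- the coordinate group -/
abbrev A := (ℕ →₀ ZMod 2) × J

/-- the pairing -/
noncomputable def bt (a a' : A) : ZMod 2 :=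
  (a.1.sum fun n r => r * (a'.1 n + a'.2.1 n)) + (a'.1.sum fun n r => r * a.2.1 n)

lemma bt_add_left (a b c : A) : bt (a + b) c = bt a c + bt b c := by
  unfold bt
  rw [Prod.fst_add, Finsupp.sum_add_index' (by simp) (by intros; ring)]
  have : (c.1.sum fun n r => r * (a + b).2.1 n) =
      (c.1.sum fun n r => r * a.2.1 n) + (c.1.sum fun n r => r * b.2.1 n) := by
    rw [← Finsupp.sum_add]
    apply Finsupp.sum_congr
    intro n _
    change c.1 n * (a.2.1 n + b.2.1 n) = _
    ring
  rw [this]; ring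

lemma bt_add_right (a b c : A) : bt a (b + c) = bt a b + bt a c := by
  unfold bt
  rw [Prod.fst_add, Finsupp.sum_add_index' (by simp) (by intros; ring)]
  have : (a.1.sum fun n r => r * ((b.1 + c.1) n + (b + c).2.1 n)) =
      (a.1.sum fun n r => r * (b.1 n + b.2.1 n)) + (a.1.sum fun n r => r * (c.1 n + c.2.1 n)) := by
    rw [← Finsupp.sum_add]
    apply Finsupp.sum_congr
    intro n _
    change a.1 n * ((b.1 n + c.1 n) + (b.2.1 n + c.2.1 n)) = _
    ring
  rw [this]; ring

lemma bt_zero_left (a : A) : bt 0 a = 0 := by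
  have := bt_add_left 0 0 a
  rw [add_zero] at this
  exact left_eq_add.1 this

lemma bt_zero_right (a : A) : bt a 0 = 0 := by
  have := bt_add_right a 0 0
  rw [add_zero] at this
  exact left_eq_add.1 this

lemma bt_neg_right (a b : A) : bt a (-b) = - bt a b := by
  have := bt_add_right a b (-b)
  rw [add_neg_cancel, bt_zero_right] at this
  exact (neg_eq_of_add_eq_zero_right this.symm).symm

lemma bt_neg_left (a b : A) : bt (-a) b = - bt a b := by
  have := bt_add_left a (-a) b
  rw [add_neg_cancel, bt_zero_left] at this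
  exact (neg_eq_of_add_eq_zero_right this.symm).symm

/-- the group -/
@[ext] structure HG where
  a : A
  b : A
  c : ZMod 2

noncomputable instance : Mul HG := ⟨fun x y => ⟨x.a + y.a, x.b + y.b, x.c + y.c + bt x.a y.b⟩⟩
noncomputable instance : One HG := ⟨⟨0, 0, 0⟩⟩
noncomputable instance : Inv HG := ⟨fun x => ⟨-x.a, -x.b, -x.c + bt x.a x.b⟩⟩

lemma mul_def (x y : HG) : x * y = ⟨x.a + y.a, x.b + y.b, x.c + y.c + bt x.a y.b⟩ := rfl
lemma one_def : (1 : HG) = ⟨0, 0, 0⟩ := rfl
lemma inv_def (x : HG) : x⁻¹ = ⟨-x.a, -x.b, -x.c + bt x.a x.b⟩ := rfl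

noncomputable instance : Group HG := Group.ofLeftAxioms
  (by
    intro x y z
    simp only [mul_def, HG.mk.injEq]
    refine ⟨add_assoc _ _ _, add_assoc _ _ _, ?_⟩
    rw [bt_add_left, bt_add_right]; ring)
  (by
    intro x
    simp only [mul_def, one_def, bt_zero_left, zero_add, add_zero])
  (by
    intro x
    simp only [mul_def, inv_def, one_def, HG.mk.injEq]
    refine ⟨neg_add_cancel _, neg_add_cancel _, ?_⟩
    rw [bt_neg_left]; ring)

/-- the sequences -/
noncomputable def dl (n : ℕ) : A := (Finsupp.single n 1, 0)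
noncomputable def xx (n : ℕ) : HG := ⟨dl n, 0, 0⟩
noncomputable def yy (n : ℕ) : HG := ⟨0, dl n, 0⟩
noncomputable def zz : HG := ⟨0, 0, 1⟩

lemma bt_dl_left (n : ℕ) (a : A) : bt (dl n) a = a.1 n + a.2.1 n := by
  unfold bt dl
  simp

lemma bt_dl_right (n : ℕ) (a : A) : bt a (dl n) = a.1 n + a.2.1 n := by
  unfold bt dl
  simp only [Finsupp.sum_single_index, zero_mul, one_mul]
  have : (a.1.sum fun m r => r * ((Finsupp.single n (1 : ZMod 2)) m + ((0 : J) : ℕ → ZMod 2) m)) = a.1 n := by
    rw [Finsupp.sum_eq_single n]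
    · simp
    · intro m _ hm
      rw [Finsupp.single_apply, if_neg (Ne.symm hm)]
      simp
    · simp
  rw [this]

lemma comm_iff (x y : HG) : x * y = y * x ↔ bt x.a y.b = bt y.a x.b := by
  simp only [mul_def, HG.mk.injEq]
  constructor
  · rintro ⟨_, _, h⟩
    have h' : x.c + y.c + bt x.a y.b = x.c + y.c + bt y.a x.b := by rw [h]; ring
    exact add_left_cancel h'
  · intro h
    refine ⟨add_comm _ _, add_comm _ _, ?_⟩
    rw [h]; ring

end Pool.Agent.H42R3.Mark
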