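import Pool.Agent.H42R3.Mark1

set_option autoImplicit false

namespace Pool.Agent.H42R3.Mark
open Filter Topology Cardinal

lemma comm_formula (x y : HG) : x * y * x⁻¹ * y⁻¹ = ⟨0, 0, bt x.a y.b - bt y.a x.b⟩ := by
  have h : x * y = (⟨0, 0, bt x.a y.b - bt y.a x.b⟩ : HG) * (y * x) := by
    simp only [mul_def, HG.mk.injEq, bt_zero_left]
    refine ⟨by abel, by abel, by ring⟩
  rw [h]; group

/-- the first subgroup -/
def K1 : Subgroup HG where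
  carrier := {x | x.a.2 = 0 ∧ x.b = 0 ∧ x.c = 0}
  mul_mem' := by
    rintro x y ⟨h1, h2, h3⟩ ⟨h4, h5, h6⟩
    refine ⟨?_, ?_, ?_⟩
    · rw [mul_def]; change x.a.2 + y.a.2 = 0; rw [h1, h4, add_zero]
    · rw [mul_def]; change x.b + y.b = 0; rw [h2, h5, add_zero]
    · rw [mul_def]; change x.c + y.c + bt x.a y.b = 0
      rw [h3, h6, h5, bt_zero_right, add_zero, add_zero]
  one_mem' := ⟨rfl, rfl, rfl⟩
  inv_mem' := by
    rintro x ⟨h1, h2, h3⟩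
    refine ⟨?_, ?_, ?_⟩
    · rw [inv_def]; change -x.a.2 = 0; rw [h1, neg_zero]
    · rw [inv_def]; change -x.b = 0; rw [h2, neg_zero]
    · rw [inv_def]; change -x.c + bt x.a x.b = 0
      rw [h3, h2, bt_zero_right, neg_zero, add_zero]

/-- the second subgroup -/
def K2 : Subgroup HG where
  carrier := {x | x.b.2 = 0 ∧ x.a = 0 ∧ x.c = 0}
  mul_mem' := by
    rintro x y ⟨h1, h2, h3⟩ ⟨h4, h5, h6⟩
    refine ⟨?_, ?_, ?_⟩
    · rw [mul_def]; change x.b.2 + y.b.2 = 0; rw [h1, h4, add_zero]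
    · rw [mul_def]; change x.a + y.a = 0; rw [h2, h5, add_zero]
    · rw [mul_def]; change x.c + y.c + bt x.a y.b = 0
      rw [h3, h6, h2, bt_zero_left, add_zero, add_zero]
  one_mem' := ⟨rfl, rfl, rfl⟩
  inv_mem' := by
    rintro x ⟨h1, h2, h3⟩
    refine ⟨?_, ?_, ?_⟩
    · rw [inv_def]; change -x.b.2 = 0; rw [h1, neg_zero]
    · rw [inv_def]; change -x.a = 0; rw [h2, neg_zero]
    · rw [inv_def]; change -x.c + bt x.a x.b = 0
      rw [h3, h2, bt_zero_left, neg_zero, add_zero]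

lemma K1_center : ∀ x ∈ K1, (∀ g, g * x = x * g) → x = 1 := by
  rintro x ⟨h1, h2, h3⟩ h
  have h4 : x.a.1 = 0 := by
    ext n
    have h5 := (comm_iff (yy n) x).1 (h (yy n))
    change bt 0 x.b = bt x.a (dl n) at h5
    rw [bt_zero_left, bt_dl_right, h1] at h5
    simpa using h5.symm
  apply HG.ext
  · exact Prod.ext h4 h1
  · exact h2
  · exact h3

lemma K2_center : ∀ x ∈ K2, (∀ g, g * x = x * g) → x = 1 := by
  rintro x ⟨h1, h2, h3⟩ h
  have h4 : x.b.1 = 0 := by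
    ext n
    have h5 := (comm_iff (xx n) x).1 (h (xx n))
    change bt (dl n) x.b = bt x.a 0 at h5
    rw [bt_zero_right, bt_dl_left, h1] at h5
    simpa using h5
  apply HG.ext
  · exact h2
  · exact Prod.ext h4 h1
  · exact h3

lemma ev_zero (a : A) : ∀ᶠ n in (hyperfilter ℕ : Filter ℕ), a.1 n + a.2.1 n = 0 := by
  have h1 : ∀ᶠ n in (hyperfilter ℕ : Filter ℕ), a.1 n = 0 := by
    have h : ∀ᶠ n in (cofinite : Filter ℕ), a.1 n = 0 := by
      rw [eventually_cofinite]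
      apply (a.1.support.finite_toSet).subset
      intro n hn
      rw [Finset.mem_coe, Finsupp.mem_support_iff]
      exact hn
    exact hyperfilter_le_cofinite h
  have h2 : ∀ᶠ n in (hyperfilter ℕ : Filter ℕ), a.2.1 n = 0 := a.2.2
  filter_upwards [h1, h2] with n h h'
  rw [h, h', add_zero]

lemma E1_cl (F : Finset HG) : ∃ x ∈ Set.range xx, x ∈ K1 ∧ ∀ g ∈ F, g * x = x * g := by
  have h : ∀ᶠ n in (hyperfilter ℕ : Filter ℕ), ∀ g ∈ F, g.b.1 n + g.b.2.1 n = 0 :=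
    (Filter.eventually_all_finset F).2 fun g _ => ev_zero g.b
  obtain ⟨n, hn⟩ := h.exists
  refine ⟨xx n, ⟨n, rfl⟩, ⟨rfl, rfl, rfl⟩, ?_⟩
  intro g hg
  rw [comm_iff]
  change bt g.a 0 = bt (dl n) g.b
  rw [bt_zero_right, bt_dl_left, hn g hg]

lemma E2_cl (F : Finset HG) : ∃ x ∈ Set.range yy, x ∈ K2 ∧ ∀ g ∈ F, g * x = x * g := by
  have h : ∀ᶠ n in (hyperfilter ℕ : Filter ℕ), ∀ g ∈ F, g.a.1 n + g.a.2.1 n = 0 :=
    (Filter.eventually_all_finset F).2 fun g _ => ev_zero g.a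
  obtain ⟨n, hn⟩ := h.exists
  refine ⟨yy n, ⟨n, rfl⟩, ⟨rfl, rfl, rfl⟩, ?_⟩
  intro g hg
  rw [comm_iff]
  change bt g.a (dl n) = bt 0 g.b
  rw [bt_zero_left, bt_dl_right, hn g hg]

lemma closure_le {X : Type} (s t : TopologicalSpace X) (h : s ≤ t) (E : Set X) :
    @closure X s E ⊆ @closure X t E := by
  apply Set.sInter_subset_sInter
  rintro F ⟨hF, hEF⟩
  exact ⟨IsClosed.mono hF h, hEF⟩

lemma comm_xg (n : ℕ) (s : J) :
    xx n * ⟨0, (0, s), 0⟩ * (xx n)⁻¹ * (⟨0, (0, s), 0⟩ : HG)⁻¹ = ⟨0, 0, s.1 n⟩ := by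
  rw [comm_formula]
  have h1 : bt (xx n).a (⟨0, (0, s), 0⟩ : HG).b = s.1 n := by
    change bt (dl n) (0, s) = s.1 n
    rw [bt_dl_left]
    simp
  have h2 : bt (⟨0, (0, s), 0⟩ : HG).a (xx n).b = 0 := bt_zero_left _
  rw [h1, h2, sub_zero]

lemma comm_gy (n : ℕ) (s : J) :
    (⟨(0, s), 0, 0⟩ : HG) * yy n * (⟨(0, s), 0, 0⟩ : HG)⁻¹ * (yy n)⁻¹ = ⟨0, 0, s.1 n⟩ := by
  rw [comm_formula]
  have h1 : bt (⟨(0, s), 0, 0⟩ : HG).a (yy n).b = s.1 n := by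
    change bt (0, s) (dl n) = s.1 n
    rw [bt_dl_right]
    simp
  have h2 : bt (yy n).a (⟨(0, s), 0, 0⟩ : HG).b = 0 := bt_zero_left _
  rw [h1, h2, sub_zero]

lemma comm_xy (n : ℕ) : xx n * yy n * (xx n)⁻¹ * (yy n)⁻¹ = zz := by
  rw [comm_formula]
  have h1 : bt (xx n).a (yy n).b = 1 := by
    change bt (dl n) (dl n) = 1
    rw [bt_dl_left]
    simp [dl]
  have h2 : bt (yy n).a (xx n).b = 0 := bt_zero_left _
  rw [h1, h2, sub_zero]
  rfl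

/-- the abstract topological argument -/
theorem abstract_key {G : Type} [Group G] [TopologicalSpace G] [IsTopologicalGroup G] [T2Space G]
    (x y : ℕ → G) (z : G) (hz : 1 ≠ z)
    (hx : ∀ a : Set ℕ, (∀ᶠ n in (hyperfilter ℕ : Filter ℕ), n ∉ a) →
      ∃ g, ∀ n ∈ a, x n * g * (x n)⁻¹ * g⁻¹ = z)
    (hy : ∀ a : Set ℕ, (∀ᶠ n in (hyperfilter ℕ : Filter ℕ), n ∉ a) →
      ∃ g, ∀ n ∈ a, g * y n * g⁻¹ * (y n)⁻¹ = z)
    (hxy : ∀ n, x n * y n * (x n)⁻¹ * (y n)⁻¹ = z)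
    (h1 : (1 : G) ∈ closure (Set.range x)) (h2 : (1 : G) ∈ closure (Set.range y)) : False := by
  have hO : ∀ᶠ q in 𝓝 (1 : G), q ≠ z := isOpen_ne.mem_nhds hz
  have hc : Continuous fun q : G × G => q.1 * q.2 * q.1⁻¹ * q.2⁻¹ := by fun_prop
  have hW0 : ∀ᶠ q in 𝓝 ((1, 1) : G × G), q.1 * q.2 * q.1⁻¹ * q.2⁻¹ ≠ z := by
    refine (hc.tendsto (1, 1)).eventually (p := fun x => x ≠ z) ?_
    simpa using hO
  rw [nhds_prod_eq] at hW0
  obtain ⟨W, hW, hWW⟩ : ∃ W ∈ 𝓝 (1 : G), ∀ x ∈ W, ∀ y ∈ W, x * y * x⁻¹ * y⁻¹ ≠ z := by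
    obtain ⟨U, hU, U', hU', hUU⟩ := Filter.mem_prod_iff.1 hW0
    exact ⟨U ∩ U', Filter.inter_mem hU hU', fun x hx y hy => hUU (Set.mk_mem_prod hx.1 hy.2)⟩
  have hX : ∀ᶠ n in (hyperfilter ℕ : Filter ℕ), x n ∈ W := by
    by_contra hcon
    have hcon' : ∀ᶠ n in (hyperfilter ℕ : Filter ℕ), x n ∉ W := by
      rw [← Ultrafilter.frequently_iff_eventually]
      exact Filter.not_eventually.1 hcon
    obtain ⟨g, hg⟩ := hx {n | x n ∈ W} hcon'
    have hc' : Continuous fun q : G => q * g * q⁻¹ * g⁻¹ := by fun_prop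
    have hW1 : ∀ᶠ q in 𝓝 (1 : G), q * g * q⁻¹ * g⁻¹ ≠ z := by
      refine (hc'.tendsto 1).eventually (p := fun x => x ≠ z) ?_
      simpa using hO
    obtain ⟨_, ⟨hm1, hm2⟩, n, rfl⟩ := mem_closure_iff_nhds.1 h1 _ (Filter.inter_mem hW hW1)
    exact hm2 (hg n hm1)
  have hY : ∀ᶠ n in (hyperfilter ℕ : Filter ℕ), y n ∈ W := by
    by_contra hcon
    have hcon' : ∀ᶠ n in (hyperfilter ℕ : Filter ℕ), y n ∉ W := by
      rw [← Ultrafilter.frequently_iff_eventually]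
      exact Filter.not_eventually.1 hcon
    obtain ⟨g, hg⟩ := hy {n | y n ∈ W} hcon'
    have hc' : Continuous fun q : G => g * q * g⁻¹ * q⁻¹ := by fun_prop
    have hW1 : ∀ᶠ q in 𝓝 (1 : G), g * q * g⁻¹ * q⁻¹ ≠ z := by
      refine (hc'.tendsto 1).eventually (p := fun x => x ≠ z) ?_
      simpa using hO
    obtain ⟨_, ⟨hm1, hm2⟩, n, rfl⟩ := mem_closure_iff_nhds.1 h2 _ (Filter.inter_mem hW hW1)
    exact hm2 (hg n hm1)
  obtain ⟨n, hn1, hn2⟩ := (hX.and hY).exists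
  exact hWW _ hn1 _ hn2 (hxy n)

open Classical in
lemma ind_mem (a : Set ℕ) (ha : ∀ᶠ n in (hyperfilter ℕ : Filter ℕ), n ∉ a) :
    (fun n => if n ∈ a then (1 : ZMod 2) else 0) ∈ J := by
  change ∀ᶠ n in (hyperfilter ℕ : Filter ℕ), (if n ∈ a then (1 : ZMod 2) else 0) = 0
  filter_upwards [ha] with n hn
  rw [if_neg hn]

lemma one_ne_zz : (1 : HG) ≠ zz := by
  intro h
  have := congrArg HG.c h
  change (0 : ZMod 2) = 1 at this
  exact zero_ne_one this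

/-- no Hausdorff group topology has `1` in the closure of both sequences -/
theorem key (t : TopologicalSpace HG) (ht : @IsTopologicalGroup HG t _) (h2 : @T2Space HG t)
    (hx : (1 : HG) ∈ @closure HG t (Set.range xx)) (hy : (1 : HG) ∈ @closure HG t (Set.range yy)) :
    False := by
  classical
  refine abstract_key xx yy zz one_ne_zz ?_ ?_ comm_xy hx hy
  · intro a ha
    refine ⟨⟨0, (0, ⟨_, ind_mem a ha⟩), 0⟩, ?_⟩
    intro n hn
    rw [comm_xg]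
    simp only [if_pos hn]
    rfl
  · intro a ha
    refine ⟨⟨(0, ⟨_, ind_mem a ha⟩), 0, 0⟩, ?_⟩
    intro n hn
    rw [comm_gy]
    simp only [if_pos hn]
    rfl

lemma card_HG : Cardinal.mk HG ≤ 2 ^ Cardinal.continuum := by
  have hc : Cardinal.mk (ℕ → ZMod 2) = 𝔠 := by
    simp
  have hinj : Function.Injective (fun x : HG =>
      (((x.a.1 : ℕ → ZMod 2), x.a.2.1), ((x.b.1 : ℕ → ZMod 2), x.b.2.1), x.c)) := by
    intro x y h
    simp only [Prod.mk.injEq] at h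
    obtain ⟨⟨h1, h2⟩, ⟨h3, h4⟩, h5⟩ := h
    apply HG.ext
    · exact Prod.ext (DFunLike.coe_injective h1) (Subtype.ext h2)
    · exact Prod.ext (DFunLike.coe_injective h3) (Subtype.ext h4)
    · exact h5
  have h1 := Cardinal.mk_le_of_injective hinj
  refine h1.trans ?_
  simp only [Cardinal.mk_prod, Cardinal.lift_id, hc]
  have h2 : Cardinal.mk (ZMod 2) ≤ 𝔠 := (Cardinal.mk_le_aleph0).trans Cardinal.aleph0_le_continuum
  calc 𝔠 * 𝔠 * (𝔠 * 𝔠 * Cardinal.mk (ZMod 2)) ≤ 𝔠 * 𝔠 * (𝔠 * 𝔠 * 𝔠) := by gcongr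
    _ = 𝔠 := by simp
    _ ≤ 2 ^ 𝔠 := (Cardinal.cantor _).le

end Pool.Agent.H42R3.Mark
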