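import Mathlib

/-!
# Sparse sequences: the combinatorial core
-/

set_option autoImplicit false

namespace Pool.Agent.H42R3.Sel

open Cardinal Set Filter

/-- The dominating number. -/
noncomputable def dnum : Cardinal.{0} :=
  sInf {κ | ∃ D : Set (ℕ → ℕ), #D = κ ∧ ∀ g : ℕ → ℕ, ∃ f ∈ D, ∀ᶠ n in atTop, g n ≤ f n}

lemma exists_not_dom {ι : Type} (hι : #ι < dnum) (h : ι → ℕ → ℕ) :
    ∃ z : ℕ → ℕ, ∀ i, ∃ᶠ n in atTop, h i n < z n := by
  by_contra hcon
  push Not at hcon
  have hle : dnum ≤ #(range h) := by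
    refine csInf_le' ⟨range h, rfl, ?_⟩
    intro g
    obtain ⟨i, hi⟩ := hcon g
    refine ⟨h i, ⟨i, rfl⟩, ?_⟩
    simpa using hi
  exact absurd (hle.trans mk_range_le) (not_le.2 hι)

lemma exists_dominating : ∃ D : Set (ℕ → ℕ), #D = dnum ∧
    ∀ g : ℕ → ℕ, ∃ f ∈ D, ∀ᶠ n in atTop, g n ≤ f n := by
  have hne : {κ : Cardinal.{0} | ∃ D : Set (ℕ → ℕ), #D = κ ∧
      ∀ g : ℕ → ℕ, ∃ f ∈ D, ∀ᶠ n in atTop, g n ≤ f n}.Nonempty :=
    ⟨_, Set.univ, rfl, fun g => ⟨g, trivial, Eventually.of_forall fun _ => le_rfl⟩⟩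
  exact csInf_mem hne

lemma aleph0_lt_dnum : ℵ₀ < dnum := by
  by_contra hcon
  obtain ⟨D, hD, hdom⟩ := exists_dominating
  have hc : D.Countable := by
    rw [← le_aleph0_iff_set_countable, hD]
    exact not_lt.1 hcon
  have hne : D.Nonempty := by
    obtain ⟨f, hf, -⟩ := hdom (fun _ => 0)
    exact ⟨f, hf⟩
  obtain ⟨f, hf⟩ := hc.exists_eq_range hne
  obtain ⟨f', hf', hev⟩ := hdom (fun n => ∑ k ∈ Finset.range (n + 1), f k n + 1)
  rw [hf] at hf'
  obtain ⟨k, rfl⟩ := hf'
  obtain ⟨N, hN⟩ := eventually_atTop.1 hev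
  have h1 := hN (max N k) (le_max_left _ _)
  have h2 : f k (max N k) ≤ ∑ j ∈ Finset.range (max N k + 1), f j (max N k) :=
    Finset.single_le_sum (f := fun j => f j (max N k)) (fun _ _ => Nat.zero_le _)
      (Finset.mem_range.2 (Nat.lt_succ_of_le (le_max_right _ _)))
  omega

/-- next element of `c` from `n` on -/
noncomputable def nx (c : ℕ → Bool) (n : ℕ) : ℕ := sInf {i | n ≤ i ∧ c i = true}

lemma nx_false {c : ℕ → Bool} {n m i : ℕ} (h : m ≤ nx c n) (h1 : n ≤ i) (h2 : i < m) :
    c i = false := by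
  by_contra hc
  have hc : c i = true := by simpa using hc
  have : nx c n ≤ i := Nat.sInf_le ⟨h1, hc⟩
  omega

lemma exists_sparse {ι : Type} (hι : #ι < dnum) (E : ι → Set ℕ) (hE : ∀ i, (E i).Infinite)
    (F : ι → ℕ → ℕ) : ∃ c : ℕ → Bool, ∀ i, {n | n ∈ E i ∧ F i n ≤ nx c n}.Infinite := by
  classical
  have hex : ∀ i m, ∃ e ∈ E i, m < e := fun i m => (hE i).exists_gt m
  choose e heE hem using hex
  set g : ι → ℕ → ℕ := fun i m => ∑ k ∈ Finset.range (m + 1), (e i k + F i (e i k)) with hg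
  have gmono : ∀ i, Monotone (g i) := by
    intro i m m' h
    exact Finset.sum_le_sum_of_subset (Finset.range_mono (by omega))
  have gle : ∀ i m, e i m + F i (e i m) ≤ g i m := by
    intro i m
    exact Finset.single_le_sum (f := fun k => e i k + F i (e i k)) (fun _ _ => Nat.zero_le _)
      (Finset.mem_range.2 (Nat.lt_succ_self m))
  obtain ⟨z, hz⟩ := exists_not_dom hι (fun i n => g i (g i n))
  set z' : ℕ → ℕ := fun n => n + 1 + ∑ k ∈ Finset.range (n + 1), z k with hz'
  have z'mono : Monotone z' := by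
    intro m m' h
    have : ∑ k ∈ Finset.range (m + 1), z k ≤ ∑ k ∈ Finset.range (m' + 1), z k :=
      Finset.sum_le_sum_of_subset (Finset.range_mono (by omega))
    simp only [hz']
    omega
  have zle : ∀ n, z n ≤ z' n := by
    intro n
    have : z n ≤ ∑ k ∈ Finset.range (n + 1), z k :=
      Finset.single_le_sum (f := z) (fun _ _ => Nat.zero_le _)
        (Finset.mem_range.2 (Nat.lt_succ_self n))
    simp only [hz']
    omega
  have z'gt : ∀ n, n < z' n := by
    intro n
    simp only [hz']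
    omega
  set a : ℕ → ℕ := fun k => z'^[k] 0 with ha
  have ha0 : a 0 = 0 := rfl
  have hak : ∀ k, a (k + 1) = z' (a k) := fun k => Function.iterate_succ_apply' z' k 0
  have amono : StrictMono a := strictMono_nat_of_lt_succ (fun k => by rw [hak]; exact z'gt _)
  refine ⟨fun i => decide (i ∈ range a), fun i => ?_⟩
  have key : ∀ M, ∃ k, M ≤ a k ∧ g i (a k) < a (k + 1) := by
    intro M
    by_contra hcon
    push Not at hcon
    obtain ⟨n, hn, hn'⟩ := (frequently_atTop.1 (hz i)) (a M)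
    have hexk : ∃ k, n < a (k + 1) :=
      ⟨n, lt_of_lt_of_le (Nat.lt_succ_self n) (amono.id_le (n + 1))⟩
    obtain ⟨k, hk1, hk2⟩ : ∃ k, a k ≤ n ∧ n < a (k + 1) := by
      refine ⟨Nat.find hexk, ?_, Nat.find_spec hexk⟩
      rcases Nat.eq_zero_or_pos (Nat.find hexk) with h0 | h0
      · rw [h0, ha0]; exact Nat.zero_le _
      · have := Nat.find_min hexk (m := Nat.find hexk - 1) (by omega)
        have e1 : Nat.find hexk - 1 + 1 = Nat.find hexk := by omega
        rw [e1] at this
        exact not_lt.1 this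
    have hMk : M ≤ k := by
      have : a M < a (k + 1) := lt_of_le_of_lt hn hk2
      have := amono.lt_iff_lt.1 this
      omega
    have hMa : ∀ j, M ≤ j → M ≤ a j := fun j hj => hj.trans (amono.id_le j)
    have h1 : a (k + 1) ≤ g i (a k) := hcon k (hMa k hMk)
    have h2 : a (k + 1 + 1) ≤ g i (a (k + 1)) := hcon (k + 1) (hMa (k + 1) (by omega))
    have h3 : z n ≤ g i (g i n) := by
      calc z n ≤ z' n := zle n
        _ ≤ z' (a (k + 1)) := z'mono hk2.le
        _ = a (k + 1 + 1) := (hak _).symm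
        _ ≤ g i (a (k + 1)) := h2
        _ ≤ g i (g i (a k)) := gmono i h1
        _ ≤ g i (g i n) := gmono i (gmono i hk1)
    have h4 : g i (g i n) < z n := hn'
    omega
  apply Set.infinite_of_forall_exists_gt
  intro M
  obtain ⟨k, hk1, hk2⟩ := key M
  refine ⟨e i (a k), ⟨heE _ _, ?_⟩, lt_of_le_of_lt hk1 (hem _ _)⟩
  have hg1 := gle i (a k)
  refine le_csInf ⟨a (k + 1), by omega, by simp⟩ ?_
  rintro b ⟨hb1, hb2⟩
  obtain ⟨j, rfl⟩ : b ∈ range a := by simpa using hb2
  have h5 : a k < a j := lt_of_lt_of_le (hem i (a k)) hb1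
  have h6 : k + 1 ≤ j := amono.lt_iff_lt.1 h5
  have h7 : a (k + 1) ≤ a j := amono.monotone h6
  omega

/-- basic clopen sets of the Cantor space -/
abbrev Basic : Type := ℕ × Finset (Finset ℕ)

/-- trace of `x` on `[0, N)` -/
def tr (x : ℕ → Bool) (N : ℕ) : Finset ℕ := (Finset.range N).filter (fun i => x i = true)

/-- membership in a basic clopen set -/
def Mem (x : ℕ → Bool) (B : Basic) : Prop := tr x B.1 ∈ B.2

/-- characteristic function -/
def fin (t : Finset ℕ) : ℕ → Bool := fun i => decide (i ∈ t)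

lemma tr_congr {x y : ℕ → Bool} {N : ℕ} (h : ∀ i < N, x i = y i) : tr x N = tr y N := by
  unfold tr
  apply Finset.filter_congr
  intro i hi
  rw [h i (Finset.mem_range.1 hi)]

lemma tr_eq_iff {x y : ℕ → Bool} {N : ℕ} : tr x N = tr y N ↔ ∀ i < N, x i = y i := by
  refine ⟨fun h i hi => ?_, tr_congr⟩
  have h1 : i ∈ tr x N ↔ i ∈ tr y N := by rw [h]
  unfold tr at h1
  rw [Finset.mem_filter, Finset.mem_filter, Finset.mem_range] at h1
  have h2 : x i = true ↔ y i = true := by
    constructor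
    · intro hx; exact (h1.1 ⟨hi, hx⟩).2
    · intro hx; exact (h1.2 ⟨hi, hx⟩).2
  exact Bool.eq_iff_iff.2 h2

lemma fin_tr {x : ℕ → Bool} {n m N : ℕ} (h : m ≤ nx x n) (hN : N ≤ m) :
    ∀ i < N, x i = fin (tr x n) i := by
  intro i hi
  unfold fin tr
  by_cases hin : i < n
  · simp [hin]
  · have := nx_false h (not_lt.1 hin) (lt_of_lt_of_le hi hN)
    simp [this, hin]

/-- codes -/
abbrev W : Type := ℕ → Set Basic

open Classical in
/-- selected basic set -/
noncomputable def sel (w : W) (A : Set (ℕ → Bool)) (n : ℕ) : Basic :=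
  if h : ∃ B ∈ w n, ∀ a ∈ A, Mem a B then h.choose else (0, ∅)

lemma sel_spec {w : W} {A : Set (ℕ → Bool)} {n : ℕ} (h : ∃ B ∈ w n, ∀ a ∈ A, Mem a B) :
    sel w A n ∈ w n ∧ ∀ a ∈ A, Mem a (sel w A n) := by
  unfold sel
  rw [dif_pos h]
  exact h.choose_spec

/-- the bound attached to a code and a finite set -/
noncomputable def FF (w : W) (A : Set (ℕ → Bool)) (n : ℕ) : ℕ :=
  ∑ T ∈ ((Finset.range n).powerset).powerset,
    (Encodable.encode (sel w (A ∪ fin '' (T : Set (Finset ℕ))) n) +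
      (sel w (A ∪ fin '' (T : Set (Finset ℕ))) n).1)

lemma le_FF (w : W) (A : Set (ℕ → Bool)) (n : ℕ) (T : Finset (Finset ℕ))
    (hT : ∀ t ∈ T, t ⊆ Finset.range n) :
    Encodable.encode (sel w (A ∪ fin '' (T : Set (Finset ℕ))) n) +
      (sel w (A ∪ fin '' (T : Set (Finset ℕ))) n).1 ≤ FF w A n := by
  unfold FF
  refine Finset.single_le_sum (f := fun T : Finset (Finset ℕ) =>
    (Encodable.encode (sel w (A ∪ fin '' (T : Set (Finset ℕ))) n) +
      (sel w (A ∪ fin '' (T : Set (Finset ℕ))) n).1)) (fun _ _ => Nat.zero_le _) ?_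
  rw [Finset.mem_powerset]
  intro t ht
  exact Finset.mem_powerset.2 (hT t ht)

/-! ### recursion -/

/-- transfinite choice -/
lemma rec_exists {I C : Type} [LinearOrder I] [WellFoundedLT I] [Inhabited C]
    (R : I → (I → C) → Prop)
    (hloc : ∀ v (x y : I → C), (∀ u ≤ v, x u = y u) → R v x → R v y)
    (hstep : ∀ v (x : I → C), (∀ u < v, R u x) → ∃ c : C, R v (Function.update x v c)) :
    ∃ x : I → C, ∀ v, R v x := by
  classical
  let pick : I → (I → C) → C := fun v y =>
    if h : ∃ c : C, R v (Function.update y v c) then h.choose else default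
  let x : I → C := WellFounded.fix (wellFounded_lt (α := I)) (fun v f =>
    pick v (fun u => if h : u < v then f u h else default))
  have hx : ∀ v, x v = pick v (fun u => if u < v then x u else default) := by
    intro v
    have := WellFounded.fix_eq (wellFounded_lt (α := I)) (fun v (f : ∀ u, u < v → C) =>
      pick v (fun u => if h : u < v then f u h else default)) v
    change x v = _ at this
    exact this
  refine ⟨x, ?_⟩
  intro v
  induction v using WellFoundedLT.induction with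
  | ind v ih =>
    set y : I → C := fun u => if u < v then x u else default with hy
    have hyu : ∀ u < v, y u = x u := fun u hu => by simp only [hy]; rw [if_pos hu]
    have h1 : ∀ u < v, R u y := by
      intro u hu
      refine hloc u x y (fun u' hu' => (hyu u' (lt_of_le_of_lt hu' hu)).symm) (ih u hu)
    have h2 := hstep v y h1
    have h3 : x v = h2.choose := by
      rw [hx v]
      change pick v y = _
      simp only [pick]
      rw [dif_pos h2]
    refine hloc v _ x ?_ h2.choose_spec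
    intro u hu
    rcases lt_or_eq_of_le hu with h | h
    · rw [Function.update_of_ne h.ne, hyu u h]
    · subst h
      rw [Function.update_self, h3]

section main

variable {I : Type} [LinearOrder I]

/-- index type of the functions -/
abbrev J (I : Type) : Type := (I × Finset I) ⊕ (I ⊕ I)

/-- the functions available at stage `v` -/
def allowed (v : I) : J I → Prop
  | Sum.inl p => p.1 ≤ v ∧ ∀ a ∈ p.2, a < v
  | Sum.inr (Sum.inl u) => u < v
  | Sum.inr (Sum.inr u) => u ≤ v

lemma allowed_mono {v u : I} (h : v ≤ u) {j : J I} (hj : allowed v j) : allowed u j := by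
  rcases j with p | a | a
  · exact ⟨hj.1.trans h, fun a ha => lt_of_lt_of_le (hj.2 a ha) h⟩
  · exact lt_of_lt_of_le (show a < v from hj) h
  · exact le_trans (show a ≤ v from hj) h

/-- data: codes and functions -/
structure Dat (I : Type) where
  /-- codes -/
  w : I → W
  /-- functions -/
  dd : I → ℕ → ℕ

/-- the functions -/
noncomputable def Fn (w : Dat I) (x : I → ℕ → Bool) : J I → ℕ → ℕ
  | Sum.inl p => FF (w.w p.1) (x '' (p.2 : Set I))
  | Sum.inr (Sum.inl u) => fun n => nx (x u) n + 1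
  | Sum.inr (Sum.inr u) => w.dd u

lemma Fn_congr (w : Dat I) {x y : I → ℕ → Bool} {v : I} (h : ∀ u < v, x u = y u) {j : J I}
    (hj : allowed v j) : Fn w x j = Fn w y j := by
  rcases j with p | a | a
  · have : x '' (p.2 : Set I) = y '' (p.2 : Set I) :=
      Set.image_congr (fun a ha => h a (hj.2 a (by simpa using ha)))
    simp only [Fn, this]
  · have : x a = y a := h a hj
    simp only [Fn, this]
  · simp only [Fn]

/-- the requirement at stage `v` -/
def Good (w : Dat I) (v : I) (x : I → ℕ → Bool) : Prop :=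
  ∀ (P : Finset (I × J I)), (∀ p ∈ P, p.1 < v ∧ allowed p.1 p.2) →
    ∀ Q : Finset (J I), (∀ j ∈ Q, allowed v j) →
      {n | (∀ p ∈ P, Fn w x p.2 n ≤ nx (x p.1) n) ∧ ∀ j ∈ Q, Fn w x j n ≤ nx (x v) n}.Infinite

lemma Good_loc (w : Dat I) (v : I) (x y : I → ℕ → Bool) (h : ∀ u ≤ v, x u = y u)
    (hg : Good w v x) : Good w v y := by
  intro P hP Q hQ
  convert hg P hP Q hQ using 3
  have h1 : ∀ p ∈ P, Fn w y p.2 = Fn w x p.2 := fun p hp =>
    Fn_congr w (fun u hu => (h u (hu.le.trans (hP p hp).1.le)).symm) (hP p hp).2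
  have h2 : ∀ j ∈ Q, Fn w y j = Fn w x j := fun j hj =>
    Fn_congr w (fun u hu => (h u hu.le).symm) (hQ j hj)
  have h3 : ∀ p ∈ P, y p.1 = x p.1 := fun p hp => (h p.1 (hP p hp).1.le).symm
  rw [← h v le_rfl]
  constructor
  · rintro ⟨a, b⟩
    exact ⟨fun p hp => by rw [← h1 p hp, ← h3 p hp]; exact a p hp,
      fun j hj => by rw [← h2 j hj]; exact b j hj⟩
  · rintro ⟨a, b⟩
    exact ⟨fun p hp => by rw [h1 p hp, h3 p hp]; exact a p hp,
      fun j hj => by rw [h2 j hj]; exact b j hj⟩

/-- all the requirements below `v` give infinite intersections -/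
lemma inter_inf (w : Dat I) (x : I → ℕ → Bool) (v : I) (hg : ∀ u < v, Good w u x)
    (P : Finset (I × J I)) (hP : ∀ p ∈ P, p.1 < v ∧ allowed p.1 p.2) :
    {n | ∀ p ∈ P, Fn w x p.2 n ≤ nx (x p.1) n}.Infinite := by
  classical
  by_cases hne : P.Nonempty
  · have hne' : (P.image Prod.fst).Nonempty := hne.image _
    set u := (P.image Prod.fst).max' hne' with hu
    have huP : u ∈ P.image Prod.fst := Finset.max'_mem _ _
    obtain ⟨p₀, hp₀, hp₀u⟩ := Finset.mem_image.1 huP
    have huv : u < v := by rw [← hp₀u]; exact (hP p₀ hp₀).1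
    have hmax : ∀ p ∈ P, p.1 ≤ u := fun p hp =>
      Finset.le_max' _ _ (Finset.mem_image_of_mem _ hp)
    have := hg u huv (P.filter (fun p => p.1 < u))
      (fun p hp => ⟨(Finset.mem_filter.1 hp).2, (hP p (Finset.mem_filter.1 hp).1).2⟩)
      ((P.filter (fun p => p.1 = u)).image Prod.snd) (by
        intro j hj
        obtain ⟨p, hp, rfl⟩ := Finset.mem_image.1 hj
        have := (hP p (Finset.mem_filter.1 hp).1).2
        rw [(Finset.mem_filter.1 hp).2] at this
        exact this)
    refine this.mono ?_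
    rintro n ⟨h1, h2⟩ p hp
    rcases lt_or_eq_of_le (hmax p hp) with h | h
    · exact h1 p (Finset.mem_filter.2 ⟨hp, h⟩)
    · rw [h]
      exact h2 p.2 (Finset.mem_image.2 ⟨p, Finset.mem_filter.2 ⟨hp, h⟩, rfl⟩)
  · rw [Finset.not_nonempty_iff_eq_empty] at hne
    subst hne
    simpa using Set.infinite_univ

lemma mk_finset_lt {α : Type} (h : #α < dnum) : #(Finset α) < dnum := by
  classical
  have h1 : #(Finset α) ≤ #(List α) :=
    Cardinal.mk_le_of_surjective (f := List.toFinset) List.toFinset_surjective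
  refine lt_of_le_of_lt (h1.trans (mk_list_le_max α)) ?_
  exact max_lt aleph0_lt_dnum h

lemma mk_prod_lt {α β : Type} (h : #α < dnum) (h' : #β < dnum) : #(α × β) < dnum := by
  rw [mk_prod, lift_id, lift_id]
  exact mul_lt_of_lt aleph0_lt_dnum.le h h'

lemma mk_sum_lt {α β : Type} (h : #α < dnum) (h' : #β < dnum) : #(α ⊕ β) < dnum := by
  rw [mk_sum, lift_id, lift_id]
  exact add_lt_of_lt aleph0_lt_dnum.le h h'

lemma mk_Iic_lt {v : I} (h : #(Iio v) < dnum) : #(Iic v) < dnum := by
  have : Iic v = insert v (Iio v) := by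
    ext u
    simp [le_iff_eq_or_lt]
  rw [this]
  refine lt_of_le_of_lt (mk_insert_le) ?_
  exact add_lt_of_lt aleph0_lt_dnum.le h (one_lt_aleph0.trans aleph0_lt_dnum)

lemma mk_allowed_lt {v : I} (h : #(Iio v) < dnum) : #{j : J I // allowed v j} < dnum := by
  classical
  have h1 : #((Iic v × Finset (Iio v)) ⊕ (Iio v ⊕ Iic v)) < dnum :=
    mk_sum_lt (mk_prod_lt (mk_Iic_lt h) (mk_finset_lt h)) (mk_sum_lt h (mk_Iic_lt h))
  refine lt_of_le_of_lt ?_ h1
  let f : {j : J I // allowed v j} → (Iic v × Finset (Iio v)) ⊕ (Iio v ⊕ Iic v) := fun j =>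
    match j with
    | ⟨Sum.inl p, hp⟩ => Sum.inl (⟨p.1, hp.1⟩, p.2.subtype (fun a => a ∈ Iio v))
    | ⟨Sum.inr (Sum.inl u), hu⟩ => Sum.inr (Sum.inl ⟨u, hu⟩)
    | ⟨Sum.inr (Sum.inr u), hu⟩ => Sum.inr (Sum.inr ⟨u, hu⟩)
  refine Cardinal.mk_le_of_injective (f := f) ?_
  rintro ⟨j, hj⟩ ⟨k, hk⟩ hjk
  rcases j with p | a | a <;> rcases k with q | b | b
  · simp only [f, Sum.inl.injEq, Prod.mk.injEq] at hjk
    obtain ⟨e1, e2⟩ := hjk
    have e1 : p.1 = q.1 := congrArg Subtype.val e1
    have e3 : p.2 = q.2 := by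
      ext a
      constructor
      · intro ha
        have : (⟨a, hj.2 a ha⟩ : Iio v) ∈ q.2.subtype (fun a => a ∈ Iio v) := by
          rw [← e2, Finset.mem_subtype]; exact ha
        rw [Finset.mem_subtype] at this
        exact this
      · intro ha
        have : (⟨a, hk.2 a ha⟩ : Iio v) ∈ p.2.subtype (fun a => a ∈ Iio v) := by
          rw [e2, Finset.mem_subtype]; exact ha
        rw [Finset.mem_subtype] at this
        exact this
    have : p = q := Prod.ext e1 e3
    subst this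
    rfl
  · simp [f] at hjk
  · simp [f] at hjk
  · simp [f] at hjk
  · simp only [f, Sum.inr.injEq, Sum.inl.injEq] at hjk
    have hjk : a = b := congrArg Subtype.val hjk
    subst hjk
    rfl
  · simp [f] at hjk
  · simp [f] at hjk
  · simp [f] at hjk
  · simp only [f, Sum.inr.injEq] at hjk
    have hjk : a = b := congrArg Subtype.val hjk
    subst hjk
    rfl

lemma Good_step (w : Dat I) (hI : ∀ v : I, #(Iio v) < dnum) (v : I)
    (x : I → ℕ → Bool) (hg : ∀ u < v, Good w u x) :
    ∃ c : ℕ → Bool, Good w v (Function.update x v c) := by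
  classical
  have hJ := mk_allowed_lt (hI v)
  have hS : #{p : I × J I // p.1 < v ∧ allowed p.1 p.2} < dnum := by
    refine lt_of_le_of_lt ?_ (mk_prod_lt (hI v) hJ)
    refine Cardinal.mk_le_of_injective
      (f := fun p => ((⟨p.1.1, p.2.1⟩ : Iio v),
        (⟨p.1.2, allowed_mono p.2.1.le p.2.2⟩ : {j : J I // allowed v j}))) ?_
    rintro ⟨p, hp⟩ ⟨q, hq⟩ h
    simp only [Prod.mk.injEq] at h
    exact Subtype.ext (Prod.ext (congrArg Subtype.val h.1) (congrArg Subtype.val h.2))
  have hι : #(Finset {p : I × J I // p.1 < v ∧ allowed p.1 p.2} ×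
      Finset {j : J I // allowed v j}) < dnum :=
    mk_prod_lt (mk_finset_lt hS) (mk_finset_lt hJ)
  obtain ⟨c, hc⟩ := exists_sparse hι
    (fun i => {n | ∀ p ∈ i.1.map (Function.Embedding.subtype _),
      Fn w x p.2 n ≤ nx (x p.1) n})
    (fun i => inter_inf w x v hg _ (by
      intro p hp
      rw [Finset.mem_map] at hp
      obtain ⟨q, -, rfl⟩ := hp
      exact q.2))
    (fun i n => ∑ j ∈ i.2, Fn w x j.1 n)
  refine ⟨c, ?_⟩
  intro P hP Q hQ
  have := hc (P.subtype (fun p => p.1 < v ∧ allowed p.1 p.2), Q.subtype (fun j => allowed v j))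
  refine this.mono ?_
  rintro n ⟨h1, h2⟩
  have hup : ∀ u < v, Function.update x v c u = x u := fun u hu =>
    Function.update_of_ne hu.ne _ _
  refine ⟨fun p hp => ?_, fun j hj => ?_⟩
  · have h3 := h1 p (by
      rw [Finset.mem_map]
      exact ⟨⟨p, hP p hp⟩, by rw [Finset.mem_subtype]; exact hp, rfl⟩)
    rw [hup p.1 (hP p hp).1]
    rw [Fn_congr w (fun u hu => hup u (hu.trans (hP p hp).1)) (hP p hp).2]
    exact h3
  · rw [Function.update_self, Fn_congr w hup (hQ j hj)]
    refine le_trans ?_ h2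
    exact Finset.single_le_sum (f := fun j : {j : J I // allowed v j} => Fn w x j.1 n)
      (fun _ _ => Nat.zero_le _) (a := ⟨j, hQ j hj⟩) (by rw [Finset.mem_subtype]; exact hj)

theorem exists_good [WellFoundedLT I] (w : Dat I) (hI : ∀ v : I, #(Iio v) < dnum) :
    ∃ x : I → ℕ → Bool, ∀ v, Good w v x :=
  rec_exists (fun v x => Good w v x) (fun v x y h hg => Good_loc w v x y h hg)
    (fun v x hg => Good_step w hI v x hg)

/-- closing off under a function, regular case -/
lemma exists_closed [WellFoundedLT I] (hI : ∀ v : I, #(Iio v) < dnum) (hcard : #I = dnum)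
    (hreg : dnum.IsRegular) (β : Finset I → I) :
    ∃ v : I, ∀ K : Finset I, (∀ u ∈ K, u < v) → β K ≤ v := by
  classical
  have hbdd : ∀ S : Set I, #S < dnum → ∃ b, ∀ s ∈ S, s < b := by
    intro S hS
    by_contra hcon
    push Not at hcon
    have huniv : (⋃ s ∈ S, Iic s : Set I) = Set.univ := by
      apply Set.eq_univ_of_forall
      intro b
      obtain ⟨s, hs, hbs⟩ := hcon b
      exact Set.mem_iUnion₂.2 ⟨s, hs, hbs⟩
    have hlt : #(⋃ s ∈ S, Iic s : Set I) < dnum := by
      rw [card_biUnion_lt_iff_forall_of_isRegular hreg hS]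
      intro s _
      exact mk_Iic_lt (hI s)
    rw [huniv, mk_univ, hcard] at hlt
    exact lt_irrefl _ hlt
  have hstep : ∀ v : I, ∃ v' : I, v < v' ∧ ∀ K : Finset I, (∀ u ∈ K, u ≤ v) → β K < v' := by
    intro v
    obtain ⟨b, hb⟩ := hbdd (insert v (range (fun K : Finset (Iic v) =>
      β (K.map (Function.Embedding.subtype _))))) (by
      refine lt_of_le_of_lt mk_insert_le ?_
      refine add_lt_of_lt aleph0_lt_dnum.le ?_ (one_lt_aleph0.trans aleph0_lt_dnum)
      exact lt_of_le_of_lt mk_range_le (mk_finset_lt (mk_Iic_lt (hI v))))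
    refine ⟨b, hb v (Set.mem_insert _ _), fun K hK => hb _ (Set.mem_insert_of_mem _ ?_)⟩
    refine ⟨K.subtype (fun u => u ∈ Iic v), ?_⟩
    change β _ = β K
    congr 1
    exact Finset.subtype_map_of_mem hK
  choose nxt hn1 hn2 using hstep
  have hne : Nonempty I := by
    rw [← mk_ne_zero_iff, hcard]
    exact (aleph0_pos.trans aleph0_lt_dnum).ne'
  let a : ℕ → I := fun k => nxt^[k] hne.some
  have hak : ∀ k, a (k + 1) = nxt (a k) := fun k => Function.iterate_succ_apply' nxt k _
  have amono : StrictMono a := strictMono_nat_of_lt_succ (fun k => by rw [hak]; exact hn1 _)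
  obtain ⟨b, hb⟩ := hbdd (range a) (lt_of_le_of_lt (mk_range_le) (by
    rw [mk_nat]; exact aleph0_lt_dnum))
  have hbne : {b : I | ∀ k, a k ≤ b}.Nonempty := ⟨b, fun k => (hb _ ⟨k, rfl⟩).le⟩
  set v := (wellFounded_lt (α := I)).min _ hbne with hv
  have hv1 : ∀ k, a k ≤ v := (wellFounded_lt (α := I)).min_mem _ hbne
  have hv2 : ∀ u < v, ∃ k, u < a k := by
    intro u hu
    by_contra hcon
    push Not at hcon
    exact (wellFounded_lt (α := I)).not_lt_min _ (show u ∈ {b : I | ∀ k, a k ≤ b} from hcon) hu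
  refine ⟨v, fun K hK => ?_⟩
  have : ∃ k, ∀ u ∈ K, u < a k := by
    choose! f hf using hv2
    refine ⟨K.sup f, fun u hu => lt_of_lt_of_le (hf u (hK u hu)) ?_⟩
    exact amono.monotone (Finset.le_sup (f := f) hu)
  obtain ⟨k, hk⟩ := this
  have h1 := hn2 (a k) K (fun u hu => (hk u hu).le)
  rw [← hak] at h1
  exact h1.le.trans (hv1 _)

end main

end Pool.Agent.H42R3.Sel
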