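import Pool.Agent.H42R3.Sel1

/-!
# Sparse sequences: the selection theorem
-/

set_option autoImplicit false

namespace Pool.Agent.H42R3.Sel

open Cardinal Set Filter

/-- the selection property of a set of points of the Cantor space -/
def SP (X : Set (ℕ → Bool)) : Prop :=
  ∀ w : W, (∀ n, ∀ A : Set (ℕ → Bool), A.Finite → A ⊆ X → ∃ B ∈ w n, ∀ a ∈ A, Mem a B) →
    ∃ Φ : ℕ → ℕ, ∀ A : Set (ℕ → Bool), A.Finite → A ⊆ X → ∀ M : ℕ, ∃ n, M < n ∧
      ∃ B ∈ w n, Encodable.encode B ≤ Φ n ∧ ∀ a ∈ A, Mem a B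

/-- all requirements plus capturing give the selection property -/
lemma SP_of_good {I : Type} [LinearOrder I] (d : Dat I) (x : I → ℕ → Bool)
    (hx : ∀ v, Good d v x)
    (hcap : ∀ w : W, ∃ v : I, ∀ K : Finset I, (∀ u ∈ K, u < v) → ∃ j : J I, allowed v j ∧
      ∀ᶠ n in atTop, FF w (x '' (K : Set I)) n ≤ Fn d x j n) : SP (range x ∪ range fin) := by
  classical
  intro w hw
  obtain ⟨v, hv⟩ := hcap w
  refine ⟨nx (x v), ?_⟩
  intro A hA hAX M
  -- split A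
  obtain ⟨K, T₀, hKT⟩ : ∃ (K : Finset I) (T₀ : Finset (Finset ℕ)),
      ∀ a ∈ A, (∃ u ∈ K, a = x u) ∨ (∃ t ∈ T₀, a = fin t) := by
    have h1 : ∀ a : A, (∃ u, a.1 = x u) ∨ (∃ t, a.1 = fin t) := by
      intro a
      rcases hAX a.2 with ⟨u, hu⟩ | ⟨t, ht⟩
      · exact Or.inl ⟨u, hu.symm⟩
      · exact Or.inr ⟨t, ht.symm⟩
    have hfin : Finite A := hA
    have : Fintype A := Fintype.ofFinite A
    refine ⟨Finset.univ.image (fun a : A => if h : ∃ u, a.1 = x u then h.choose else v),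
      Finset.univ.image (fun a : A => if h : ∃ t, a.1 = fin t then h.choose else ∅), ?_⟩
    intro a ha
    rcases h1 ⟨a, ha⟩ with h | h
    · left
      refine ⟨h.choose, Finset.mem_image.2 ⟨⟨a, ha⟩, Finset.mem_univ _, ?_⟩, h.choose_spec⟩
      rw [dif_pos h]
    · right
      refine ⟨h.choose, Finset.mem_image.2 ⟨⟨a, ha⟩, Finset.mem_univ _, ?_⟩, h.choose_spec⟩
      rw [dif_pos h]
  set K₀ := K.filter (fun u => u < v) with hK₀
  set K₁ := insert v (K.filter (fun u => v ≤ u)) with hK₁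
  have hK₁v : ∀ u ∈ K₁, v ≤ u := by
    intro u hu
    rcases Finset.mem_insert.1 hu with rfl | hu
    · exact le_rfl
    · exact (Finset.mem_filter.1 hu).2
  have hne : K₁.Nonempty := ⟨v, Finset.mem_insert_self _ _⟩
  set m := K₁.max' hne with hm
  have hmK : m ∈ K₁ := Finset.max'_mem _ _
  have hle : ∀ u ∈ K₁, u ≤ m := fun u hu => Finset.le_max' _ _ hu
  obtain ⟨j, hjv, hjF⟩ := hv K₀ (fun u hu => (Finset.mem_filter.1 hu).2)
  obtain ⟨M₁, hM₁⟩ := eventually_atTop.1 hjF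
  have hinf := hx m ((K₁.filter (fun u => u < m)).image (fun u => (u, j))) (by
    intro p hp
    obtain ⟨u, hu, rfl⟩ := Finset.mem_image.1 hp
    rw [Finset.mem_filter] at hu
    exact ⟨hu.2, allowed_mono (hK₁v u hu.1) hjv⟩) {j} (by
    intro j' hj'
    rw [Finset.mem_singleton] at hj'
    subst hj'
    exact allowed_mono (hK₁v m hmK) hjv)
  -- bound for T₀
  obtain ⟨M₀, hM₀⟩ : ∃ M₀ : ℕ, ∀ t ∈ T₀, t ⊆ Finset.range M₀ := by
    refine ⟨(T₀.biUnion id).sup id + 1, ?_⟩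
    intro t ht i hi
    rw [Finset.mem_range]
    have : i ≤ (T₀.biUnion id).sup id :=
      Finset.le_sup (f := id) (Finset.mem_biUnion.2 ⟨t, ht, hi⟩)
    omega
  obtain ⟨n, hn, hnM⟩ := hinf.exists_gt (max (max M M₀) M₁)
  have hnM1 : M₁ ≤ n := ((le_max_right _ _).trans_lt hnM).le
  have hnM0 : M₀ ≤ n := (((le_max_right _ _).trans (le_max_left _ _)).trans_lt hnM).le
  have hnM' : M < n := ((le_max_left _ _).trans (le_max_left _ _)).trans_lt hnM
  have hall : ∀ u ∈ K₁, FF w (x '' (K₀ : Set I)) n ≤ nx (x u) n := by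
    intro u hu
    refine (hM₁ n hnM1).trans ?_
    rcases lt_or_eq_of_le (hle u hu) with h | h
    · exact hn.1 (u, j) (Finset.mem_image.2 ⟨u, Finset.mem_filter.2 ⟨hu, h⟩, rfl⟩)
    · rw [h]
      exact hn.2 j (Finset.mem_singleton_self _)
  set T : Finset (Finset ℕ) := K₁.image (fun u => tr (x u) n) ∪ T₀ with hT
  have hTn : ∀ t ∈ T, t ⊆ Finset.range n := by
    intro t ht
    rcases Finset.mem_union.1 ht with ht | ht
    · obtain ⟨u, -, rfl⟩ := Finset.mem_image.1 ht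
      exact Finset.filter_subset _ _
    · exact (hM₀ t ht).trans (Finset.range_mono hnM0)
  have hex : ∃ B ∈ w n, ∀ a ∈ x '' (K₀ : Set I) ∪ fin '' (T : Set (Finset ℕ)), Mem a B := by
    apply hw n
    · exact ((Finset.finite_toSet K₀).image _).union ((Finset.finite_toSet T).image _)
    · rintro a (⟨u, -, rfl⟩ | ⟨t, -, rfl⟩)
      · exact Or.inl ⟨u, rfl⟩
      · exact Or.inr ⟨t, rfl⟩
  obtain ⟨hB1, hB2⟩ := sel_spec hex
  have hbd := le_FF w (x '' (K₀ : Set I)) n T hTn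
  set B := sel w (x '' (K₀ : Set I) ∪ fin '' (T : Set (Finset ℕ))) n with hB
  refine ⟨n, hnM', B, hB1, ?_, ?_⟩
  · have := hall v (Finset.mem_insert_self _ _)
    omega
  · intro a ha
    rcases hKT a ha with ⟨u, hu, rfl⟩ | ⟨t, ht, rfl⟩
    · by_cases huv : u < v
      · exact hB2 _ (Or.inl ⟨u, Finset.mem_filter.2 ⟨hu, huv⟩, rfl⟩)
      · have huK : u ∈ K₁ := Finset.mem_insert_of_mem
          (Finset.mem_filter.2 ⟨hu, not_lt.1 huv⟩)
        have h1 := hB2 (fin (tr (x u) n)) (Or.inr ⟨tr (x u) n,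
          Finset.mem_union_left _ (Finset.mem_image_of_mem _ huK), rfl⟩)
        have h2 := hall u huK
        have h3 : tr (x u) B.1 = tr (fin (tr (x u) n)) B.1 :=
          tr_congr (fin_tr (m := B.1) (by omega) le_rfl)
        unfold Mem at h1 ⊢
        rw [h3]
        exact h1
    · exact hB2 _ (Or.inr ⟨t, Finset.mem_union_right _ ht, rfl⟩)

lemma good_inj {I : Type} [LinearOrder I] (d : Dat I) (x : I → ℕ → Bool)
    (hx : ∀ v, Good d v x) : Function.Injective x := by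
  have key : ∀ u v : I, u < v → x u ≠ x v := by
    intro u v huv heq
    have := hx v ∅ (by simp) {Sum.inr (Sum.inl u)} (by
      intro j hj
      rw [Finset.mem_singleton] at hj
      subst hj
      exact huv)
    obtain ⟨n, hn⟩ := this.nonempty
    have h1 := hn.2 (Sum.inr (Sum.inl u)) (by simp)
    simp only [Fn] at h1
    rw [heq] at h1
    omega
  intro u v h
  by_contra hne
  rcases lt_or_gt_of_ne hne with h' | h'
  · exact key u v h' h
  · exact key v u h' h.symm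

theorem exists_SP (hd : dnum.IsRegular ∨ dnum = 𝔠) :
    ∃ X : Set (ℕ → Bool), #X = dnum ∧ SP X := by
  classical
  let I := dnum.ord.ToType
  have hIc : #I = dnum := by simp [I]
  have hI : ∀ v : I, #(Iio v) < dnum := by
    intro v
    simpa [I] using mk_Iio_lt v
  have hcard : ∀ x : I → ℕ → Bool, Function.Injective x →
      #(range x ∪ range fin : Set (ℕ → Bool)) = dnum := by
    intro x hinj
    apply le_antisymm
    · refine (mk_union_le _ _).trans ?_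
      rw [mk_range_eq x hinj, hIc]
      have : #(range fin) ≤ ℵ₀ := (mk_range_le (f := fin)).trans (mk_le_aleph0)
      exact add_le_of_le aleph0_lt_dnum.le le_rfl (this.trans aleph0_lt_dnum.le)
    · calc dnum = #I := hIc.symm
        _ = #(range x) := (mk_range_eq x hinj).symm
        _ ≤ _ := mk_le_mk_of_subset subset_union_left
  rcases hd with hd | hd
  · obtain ⟨D, hD, hdom⟩ := exists_dominating
    obtain ⟨e⟩ : Nonempty (I ≃ D) := Cardinal.eq.1 (hIc.trans hD.symm)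
    set dat : Dat I := ⟨fun _ _ => ∅, fun i => (e i).1⟩ with hdat
    obtain ⟨x, hx⟩ := exists_good (I := I) dat hI
    refine ⟨range x ∪ range fin, hcard x (good_inj dat x hx), SP_of_good dat x hx ?_⟩
    intro w
    have hβ : ∀ K : Finset I, ∃ i : I, ∀ᶠ n in atTop, FF w (x '' (K : Set I)) n ≤ (e i).1 n := by
      intro K
      obtain ⟨f, hf, hev⟩ := hdom (FF w (x '' (K : Set I)))
      exact ⟨e.symm ⟨f, hf⟩, by simpa using hev⟩
    choose β hβ' using hβ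
    obtain ⟨v, hv⟩ := exists_closed hI hIc hd β
    exact ⟨v, fun K hK => ⟨Sum.inr (Sum.inr (β K)), hv K hK, hβ' K⟩⟩
  · have hW : #W = 𝔠 := by
      have h1 : #Basic = ℵ₀ := Cardinal.mk_eq_aleph0 _
      have h2 : #(Set Basic) = 𝔠 := by
        rw [mk_set, h1, two_power_aleph0]
      have h3 : #W = #(Set Basic) ^ #ℕ := by
        simp [W]
      rw [h3, h2, mk_nat, continuum_power_aleph0]
    obtain ⟨e⟩ : Nonempty (I ≃ W) := Cardinal.eq.1 (hIc.trans (hd.trans hW.symm))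
    set dat : Dat I := ⟨fun i => e i, fun _ _ => 0⟩ with hdat
    obtain ⟨x, hx⟩ := exists_good (I := I) dat hI
    refine ⟨range x ∪ range fin, hcard x (good_inj dat x hx), SP_of_good dat x hx ?_⟩
    intro w
    refine ⟨e.symm w, fun K hK => ⟨Sum.inl (e.symm w, K), ⟨le_rfl, hK⟩, ?_⟩⟩
    refine Eventually.of_forall (fun n => ?_)
    simp [Fn, hdat]

/-! ### topology -/

/-- a neighbourhood base of the Cantor space -/
lemma exists_nhd {O : Set (ℕ → Bool)} (hO : IsOpen O) {a : ℕ → Bool} (ha : a ∈ O) :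
    ∃ N : ℕ, ∀ y : ℕ → Bool, (∀ i < N, y i = a i) → y ∈ O := by
  rw [isOpen_pi_iff] at hO
  obtain ⟨I, u, h1, h2⟩ := hO a ha
  refine ⟨I.sup id + 1, fun y hy => h2 ?_⟩
  intro i hi
  rw [hy i (Nat.lt_succ_of_le (Finset.le_sup (f := id) hi))]
  exact (h1 i hi).2

lemma exists_nhdZ {O : Set (ℕ → ℤ)} (hO : IsOpen O) {a : ℕ → ℤ} (ha : a ∈ O) :
    ∃ N : ℕ, ∀ y : ℕ → ℤ, (∀ i < N, y i = a i) → y ∈ O := by
  rw [isOpen_pi_iff] at hO
  obtain ⟨I, u, h1, h2⟩ := hO a ha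
  refine ⟨I.sup id + 1, fun y hy => h2 ?_⟩
  intro i hi
  rw [hy i (Nat.lt_succ_of_le (Finset.le_sup (f := id) hi))]
  exact (h1 i hi).2

/-- `𝒰` is a (nontrivial) open `ω`-cover of `Y`. -/
def IsOmegaCover (Y : Type) [TopologicalSpace Y] (𝒰 : Set (Set Y)) : Prop :=
  (∀ U ∈ 𝒰, IsOpen U) ∧ Set.univ ∉ 𝒰 ∧ ∀ F : Set Y, F.Finite → ∃ U ∈ 𝒰, F ⊆ U

/-- `S_fin(Ω, Ω)` -/
def SfinOmega (Y : Type) [TopologicalSpace Y] : Prop :=
  ∀ 𝒰 : ℕ → Set (Set Y), (∀ n, IsOmegaCover Y (𝒰 n)) →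
    ∃ 𝓕 : ℕ → Set (Set Y), (∀ n, 𝓕 n ⊆ 𝒰 n ∧ (𝓕 n).Finite) ∧ IsOmegaCover Y (⋃ n, 𝓕 n)

/-- The Menger property `S_fin(O, O)` -/
def Menger (Y : Type) [TopologicalSpace Y] : Prop :=
  ∀ 𝒰 : ℕ → Set (Set Y), (∀ n, (∀ U ∈ 𝒰 n, IsOpen U) ∧ ⋃₀ 𝒰 n = Set.univ) →
    ∃ 𝓕 : ℕ → Set (Set Y), (∀ n, 𝓕 n ⊆ 𝒰 n ∧ (𝓕 n).Finite) ∧ ⋃₀ (⋃ n, 𝓕 n) = Set.univ

theorem sfin_of_SP {X : Set (ℕ → Bool)} (hX : SP X) {Y : Type} [TopologicalSpace Y]
    (φ : Y → ℕ → Bool) (hφ : Topology.IsEmbedding φ) (hr : range φ = X) : SfinOmega Y := by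
  classical
  intro 𝒰 h𝒰
  set w : W := fun n => {B | ∃ U ∈ 𝒰 n, ∀ y, Mem (φ y) B → y ∈ U} with hw
  obtain ⟨Φ, hΦ⟩ := hX w (by
    intro n A hA hAX
    obtain ⟨U, hU, hAU⟩ := (h𝒰 n).2.2 (φ ⁻¹' A) (hA.preimage hφ.injective.injOn)
    obtain ⟨O, hO, rfl⟩ := hφ.isInducing.isOpen_iff.1 ((h𝒰 n).1 U hU)
    have h1 : ∀ a ∈ A, ∃ N : ℕ, ∀ y : ℕ → Bool, (∀ i < N, y i = a i) → y ∈ O := by
      intro a ha
      apply exists_nhd hO
      obtain ⟨y, rfl⟩ : a ∈ range φ := by rw [hr]; exact hAX ha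
      exact hAU ha
    choose! N hN using h1
    have : ∃ M : ℕ, ∀ a ∈ A, N a ≤ M := by
      obtain ⟨M, hM⟩ := (hA.image N).bddAbove
      exact ⟨M, fun a ha => hM ⟨a, ha, rfl⟩⟩
    obtain ⟨M, hM⟩ := this
    refine ⟨(M, hA.toFinset.image (fun a => tr a M)), ⟨_, hU, ?_⟩, ?_⟩
    · intro y hy
      unfold Mem at hy
      simp only [Finset.mem_image, Set.Finite.mem_toFinset] at hy
      obtain ⟨a, ha, hay⟩ := hy
      apply hN a ha
      intro i hi
      exact (tr_eq_iff.1 hay i (lt_of_lt_of_le hi (hM a ha))).symm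
    · intro a ha
      unfold Mem
      simp only [Finset.mem_image, Set.Finite.mem_toFinset]
      exact ⟨a, ha, rfl⟩)
  have hch : ∀ n, ∀ B ∈ w n, ∃ U ∈ 𝒰 n, ∀ y, Mem (φ y) B → y ∈ U := fun n B hB => hB
  choose! U hU hUy using hch
  refine ⟨fun n => U n '' {B | B ∈ w n ∧ Encodable.encode B ≤ Φ n}, fun n => ⟨?_, ?_⟩, ?_, ?_, ?_⟩
  · rintro _ ⟨B, hB, rfl⟩
    exact hU n B hB.1
  · apply Set.Finite.image
    refine Set.Finite.subset (s := Encodable.encode ⁻¹' (Set.Iic (Φ n))) ?_ (fun B hB => hB.2)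
    exact (Set.finite_Iic (Φ n)).preimage Encodable.encode_injective.injOn
  · intro V hV
    obtain ⟨n, B, hB, rfl⟩ := Set.mem_iUnion.1 hV
    exact (h𝒰 n).1 _ (hU n B hB.1)
  · intro hV
    obtain ⟨n, B, hB, hBu⟩ := Set.mem_iUnion.1 hV
    apply (h𝒰 n).2.1
    rw [← hBu]
    exact hU n B hB.1
  · intro F hF
    obtain ⟨n, -, B, hB, hBΦ, hBA⟩ := hΦ (φ '' F) (hF.image φ) (by
      rintro _ ⟨y, -, rfl⟩
      rw [← hr]
      exact ⟨y, rfl⟩) 0
    refine ⟨U n B, Set.mem_iUnion.2 ⟨n, B, ⟨hB, hBΦ⟩, rfl⟩, ?_⟩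
    intro y hy
    exact hUy n B hB y (hBA _ ⟨y, hy, rfl⟩)

/-- the real version -/
theorem real_main (hd : dnum.IsRegular ∨ dnum = 𝔠) : ∃ X : Set ℝ, #X = dnum ∧ SfinOmega X := by
  obtain ⟨X, hXc, hX⟩ := exists_SP hd
  set X' : Set ℝ := {r | ∃ hr : r ∈ cantorSet, cantorSetHomeomorphNatToBool ⟨r, hr⟩ ∈ X} with hX'
  have hsub : X' ⊆ cantorSet := fun r hr => hr.1
  set φ : X' → (ℕ → Bool) := fun y => cantorSetHomeomorphNatToBool (Set.inclusion hsub y) with hφ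
  have hemb : Topology.IsEmbedding φ :=
    cantorSetHomeomorphNatToBool.isEmbedding.comp (Topology.IsEmbedding.inclusion hsub)
  have hr : range φ = X := by
    ext c
    constructor
    · rintro ⟨⟨r, hr⟩, rfl⟩
      exact hr.2
    · intro hc
      refine ⟨⟨(cantorSetHomeomorphNatToBool.symm c : cantorSet), ?_⟩, ?_⟩
      · exact ⟨(cantorSetHomeomorphNatToBool.symm c).2, by simpa using hc⟩
      · simp only [hφ]
        exact cantorSetHomeomorphNatToBool.apply_symm_apply c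
  refine ⟨X', ?_, sfin_of_SP hX φ hemb hr⟩
  rw [← hXc, ← hr]
  exact (mk_range_eq φ hemb.injective).symm

end Pool.Agent.H42R3.Sel
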