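import Pool.Agent.H42R3.Sel2

/-!
# Sparse sequences: the group
-/

set_option autoImplicit false

namespace Pool.Agent.H42R3.Sel

open Cardinal Set Filter

/-- integer sequence of a point of the Cantor space -/
def psi (c : ℕ → Bool) : ℕ → ℤ := fun i => if c i = true then 1 else 0

lemma psi_inj : Function.Injective psi := by
  intro a b h
  funext i
  have := congrFun h i
  unfold psi at this
  cases ha : a i <;> cases hb : b i <;> simp_all

/-- signed term -/
def vv (p : Bool × (ℕ → Bool)) : ℕ → ℤ := if p.1 = true then psi p.2 else - psi p.2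

lemma vv_congr {p q : Bool × (ℕ → Bool)} {i : ℕ} (h1 : p.1 = q.1) (h2 : p.2 i = q.2 i) :
    vv p i = vv q i := by
  unfold vv psi
  rw [h1]
  by_cases h : q.1 = true
  · simp [h, h2]
  · simp [h, h2]

lemma sum_apply (l : List (Bool × (ℕ → Bool))) (i : ℕ) :
    (l.map vv).sum i = (l.map (fun p => vv p i)).sum := by
  induction l with
  | nil => simp
  | cons p l ih => simp [ih]

/-- the group -/
def GG (X : Set (ℕ → Bool)) : AddSubgroup (ℕ → ℤ) := AddSubgroup.closure (psi '' X)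

lemma mem_GG {X : Set (ℕ → Bool)} {l : List (Bool × (ℕ → Bool))} (h : ∀ p ∈ l, p.2 ∈ X) :
    (l.map vv).sum ∈ GG X := by
  apply AddSubgroup.list_sum_mem
  intro g hg
  obtain ⟨p, hp, rfl⟩ := List.mem_map.1 hg
  have h1 : psi p.2 ∈ GG X := AddSubgroup.subset_closure ⟨p.2, h p hp, rfl⟩
  unfold vv
  by_cases hb : p.1 = true
  · rw [if_pos hb]; exact h1
  · rw [if_neg hb]; exact neg_mem h1

lemma exists_list {X : Set (ℕ → Bool)} {g : ℕ → ℤ} (hg : g ∈ GG X) :
    ∃ l : List (Bool × (ℕ → Bool)), (∀ p ∈ l, p.2 ∈ X) ∧ (l.map vv).sum = g := by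
  unfold GG at hg
  induction hg using AddSubgroup.closure_induction with
  | mem x hx =>
    obtain ⟨c, hc, rfl⟩ := hx
    exact ⟨[(true, c)], by simpa using hc, by simp [vv]⟩
  | zero => exact ⟨[], by simp, by simp⟩
  | add x y _ _ hx hy =>
    obtain ⟨l, h1, rfl⟩ := hx
    obtain ⟨l', h1', rfl⟩ := hy
    refine ⟨l ++ l', ?_, by simp⟩
    intro p hp
    rcases List.mem_append.1 hp with h | h
    · exact h1 p h
    · exact h1' p h
  | neg x hx0 hx =>
    obtain ⟨l, h1, rfl⟩ := hx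
    clear hx0
    refine ⟨l.map (fun p => (!p.1, p.2)), ?_, ?_⟩
    · intro p hp
      obtain ⟨q, hq, rfl⟩ := List.mem_map.1 hp
      exact h1 q hq
    · clear h1
      induction l with
      | nil => simp
      | cons q l ih =>
        rw [List.map_cons, List.map_cons, List.sum_cons, List.map_cons, List.sum_cons, ih, neg_add]
        congr 1
        unfold vv
        cases q.1 <;> simp

theorem menger_GG {X : Set (ℕ → Bool)} (hX : SP X) : Menger (GG X) := by
  classical
  intro 𝒰 h𝒰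
  set w : W := fun n => {B | ∃ H : Set (Set (GG X)), H ⊆ 𝒰 n ∧ H.Finite ∧
    ∀ g : GG X, (∃ l : List (Bool × (ℕ → Bool)), l.length ≤ n ∧ (∀ p ∈ l, p.2 ∈ X ∧ Mem p.2 B) ∧
      (l.map vv).sum = g.1) → g ∈ ⋃₀ H} with hw
  obtain ⟨Φ, hΦ⟩ := hX w (by
    intro n A hA hAX
    have hfinA : Finite A := hA
    have hfinl : {l : List (Bool × A) | l.length ≤ n}.Finite := List.finite_length_le _ n
    let val : List (Bool × A) → List (Bool × (ℕ → Bool)) := fun l => l.map (fun p => (p.1, p.2.1))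
    have hval : ∀ l : List (Bool × A), ∀ p ∈ val l, p.2 ∈ X := by
      intro l p hp
      obtain ⟨q, hq, rfl⟩ := List.mem_map.1 hp
      exact hAX q.2.2
    have h1 : ∀ l : List (Bool × A), ∃ U ∈ 𝒰 n, ∃ N : ℕ, ∀ g : GG X,
        (∀ i < N, g.1 i = ((val l).map vv).sum i) → g ∈ U := by
      intro l
      have hmem : (⟨((val l).map vv).sum, mem_GG (hval l)⟩ : GG X) ∈ ⋃₀ 𝒰 n := by
        rw [(h𝒰 n).2]; trivial
      obtain ⟨U, hU, hlU⟩ := hmem
      obtain ⟨O, hO, rfl⟩ := isOpen_induced_iff.1 ((h𝒰 n).1 U hU)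
      obtain ⟨N, hN⟩ := exists_nhdZ hO hlU
      exact ⟨_, hU, N, fun g hg => hN _ hg⟩
    choose U hU N hN using h1
    obtain ⟨M, hM⟩ := (hfinl.image N).bddAbove
    have hM' : ∀ l : List (Bool × A), l.length ≤ n → N l ≤ M := fun l hl => hM ⟨l, hl, rfl⟩
    refine ⟨(M, hA.toFinset.image (fun a => tr a M)), ⟨U '' {l | l.length ≤ n}, ?_,
      hfinl.image _, ?_⟩, ?_⟩
    · rintro _ ⟨l, -, rfl⟩
      exact hU l
    · rintro g ⟨l, hl, hlB, hlg⟩
      have hρ : ∀ c : ℕ → Bool, Mem c (M, hA.toFinset.image (fun a => tr a M)) →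
          ∃ a : A, tr a.1 M = tr c M := by
        intro c hc
        unfold Mem at hc
        simp only [Finset.mem_image, Set.Finite.mem_toFinset] at hc
        obtain ⟨a, ha, hac⟩ := hc
        exact ⟨⟨a, ha⟩, hac⟩
      by_cases hnil : l = []
      · subst hnil
        refine ⟨U [], ⟨[], by simp, rfl⟩, hN [] g ?_⟩
        intro i _
        rw [← hlg]
        rfl
      · have hAne : Nonempty A := by
          obtain ⟨p, hp⟩ := List.exists_mem_of_ne_nil l hnil
          obtain ⟨a, -⟩ := hρ p.2 (hlB p hp).2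
          exact ⟨a⟩
        have hρ' : ∀ c : ℕ → Bool, ∃ a : A,
            Mem c (M, hA.toFinset.image (fun a => tr a M)) → tr a.1 M = tr c M := by
          intro c
          by_cases hc : Mem c (M, hA.toFinset.image (fun a => tr a M))
          · obtain ⟨a, ha⟩ := hρ c hc
            exact ⟨a, fun _ => ha⟩
          · exact ⟨hAne.some, fun h => absurd h hc⟩
        choose ρ hρ'' using hρ'
        set l' : List (Bool × A) := l.map (fun p => (p.1, ρ p.2)) with hl'
        have hlen : l'.length ≤ n := by simpa [hl'] using hl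
        refine ⟨U l', ⟨l', hlen, rfl⟩, hN l' g ?_⟩
        intro i hi
        rw [← hlg, sum_apply, sum_apply]
        congr 1
        simp only [val, hl', List.map_map]
        apply List.map_congr_left
        intro p hp
        have h2 := tr_eq_iff.1 (hρ'' p.2 (hlB p hp).2) i (lt_of_lt_of_le hi (hM' l' hlen))
        exact vv_congr rfl h2.symm
    · intro a ha
      unfold Mem
      simp only [Finset.mem_image, Set.Finite.mem_toFinset]
      exact ⟨a, ha, rfl⟩)
  have hch : ∀ n, ∀ B ∈ w n, ∃ H : Set (Set (GG X)), H ⊆ 𝒰 n ∧ H.Finite ∧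
    ∀ g : GG X, (∃ l : List (Bool × (ℕ → Bool)), l.length ≤ n ∧ (∀ p ∈ l, p.2 ∈ X ∧ Mem p.2 B) ∧
      (l.map vv).sum = g.1) → g ∈ ⋃₀ H := fun n B hB => hB
  choose! H hH1 hH2 hH3 using hch
  refine ⟨fun n => ⋃ B ∈ {B | B ∈ w n ∧ Encodable.encode B ≤ Φ n}, H n B, fun n => ⟨?_, ?_⟩, ?_⟩
  · apply Set.iUnion₂_subset
    intro B hB
    exact hH1 n B hB.1
  · refine Set.Finite.biUnion ?_ (fun B hB => hH2 n B hB.1)
    refine Set.Finite.subset (s := Encodable.encode ⁻¹' (Set.Iic (Φ n))) ?_ (fun B hB => hB.2)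
    exact (Set.finite_Iic (Φ n)).preimage Encodable.encode_injective.injOn
  · apply Set.eq_univ_of_forall
    intro g
    obtain ⟨l, hl, hlg⟩ := exists_list g.2
    obtain ⟨n, hn, B, hB, hBΦ, hBA⟩ := hΦ {c | ∃ p ∈ l, p.2 = c} (by
      have : {c | ∃ p ∈ l, p.2 = c} = Prod.snd '' {p | p ∈ l} := by
        ext c; simp
      rw [this]
      exact (List.finite_toSet l).image _) (by
      rintro c ⟨p, hp, rfl⟩
      exact hl p hp) l.length
    obtain ⟨V, hV, hgV⟩ := hH3 n B hB g ⟨l, hn.le, fun p hp => ⟨hl p hp, hBA _ ⟨p, hp, rfl⟩⟩, hlg⟩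
    exact ⟨V, Set.mem_iUnion.2 ⟨n, Set.mem_iUnion₂.2 ⟨B, ⟨hB, hBΦ⟩, hV⟩⟩, hgV⟩

/-- the group version -/
theorem group_main (hd : dnum.IsRegular ∨ dnum = 𝔠) :
    ∃ G : AddSubgroup (ℕ → ℤ), #G = dnum ∧ Menger G := by
  classical
  obtain ⟨X, hXc, hX⟩ := exists_SP hd
  refine ⟨GG X, ?_, menger_GG hX⟩
  apply le_antisymm
  · have h1 : #(GG X) ≤ #(List (Bool × X)) := by
      refine Cardinal.mk_le_of_surjective (f := fun l : List (Bool × X) =>
        (⟨((l.map (fun p => (p.1, p.2.1))).map vv).sum, mem_GG (by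
          intro p hp
          obtain ⟨q, -, rfl⟩ := List.mem_map.1 hp
          exact q.2.2)⟩ : GG X)) ?_
      intro g
      obtain ⟨l, hl, hlg⟩ := exists_list g.2
      refine ⟨l.attach.map (fun p => (p.1.1, ⟨p.1.2, hl p.1 p.2⟩)), ?_⟩
      apply Subtype.ext
      rw [← hlg]
      simp only [List.map_map]
      congr 1
      conv_rhs => rw [← List.attach_map_subtype_val l]
      rw [List.map_map]
      rfl
    refine h1.trans ((mk_list_le_max _).trans (max_le aleph0_lt_dnum.le ?_))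
    rw [mk_prod, lift_id, lift_id, hXc]
    refine mul_le_of_le aleph0_lt_dnum.le ?_ le_rfl
    exact (mk_le_aleph0).trans aleph0_lt_dnum.le
  · rw [← hXc]
    refine Cardinal.mk_le_of_injective
      (f := fun c : X => (⟨psi c.1, AddSubgroup.subset_closure ⟨c.1, c.2, rfl⟩⟩ : GG X)) ?_
    intro a b h
    exact Subtype.ext (psi_inj (congrArg Subtype.val h))

end Pool.Agent.H42R3.Sel
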