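import Mathlib

set_option autoImplicit false

namespace Pool.Agent.H42R3.TwoSided

/-! ### The free group and the side of an edge -/

/-- The last letter of the reduced word of `y` is the generator number `k`. -/
def Last (k : ℕ) (y : FreeGroup ℕ) : Prop := y.toWord.getLast? = some (k, true)

lemma toWord_letter_mul (l : ℕ × Bool) (y : FreeGroup ℕ) :
    (FreeGroup.mk [l] * y).toWord = (match y.toWord with
      | [] => [l]
      | hd :: tl => if l.1 = hd.1 ∧ l.2 = !hd.2 then tl else l :: hd :: tl) := by
  rw [FreeGroup.toWord_mul, FreeGroup.toWord_mk, FreeGroup.reduce_singleton,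
    List.singleton_append, FreeGroup.reduce.cons, FreeGroup.reduce_toWord]
  cases y.toWord <;> rfl

lemma last_mul_letter (k : ℕ) (l : ℕ × Bool) (y : FreeGroup ℕ)
    (h : l.1 ≠ k ∨ (y ≠ 1 ∧ l = (k, true))) :
    Last k (FreeGroup.mk [l] * y) ↔ Last k y := by
  unfold Last
  rw [toWord_letter_mul]
  rcases hy : y.toWord with _ | ⟨hd, tl⟩
  · have hy1 : y = 1 := FreeGroup.toWord_eq_nil_iff.1 hy
    have hl : l.1 ≠ k := by
      rcases h with h | h
      · exact h
      · exact absurd hy1 h.1
    simp only [List.getLast?_singleton, List.getLast?_nil]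
    constructor
    · intro h1
      exfalso
      apply hl
      rw [Option.some.injEq] at h1
      rw [h1]
    · intro h1
      cases h1
  · by_cases hc : l.1 = hd.1 ∧ l.2 = !hd.2
    · simp only [if_pos hc]
      rcases tl with _ | ⟨hd2, tl2⟩
      · simp only [List.getLast?_singleton, List.getLast?_nil]
        constructor
        · intro h1; cases h1
        · intro h1
          exfalso
          rw [Option.some.injEq] at h1
          rcases h with h | h
          · apply h
            rw [hc.1, h1]
          · have h2 := hc.2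
            rw [h.2, h1] at h2
            simp at h2
      · rw [List.getLast?_cons_cons]
    · simp only [if_neg hc]
      rw [List.getLast?_cons_cons]

lemma last_mul_mk (k : ℕ) (L : List (ℕ × Bool)) (hL : ∀ p ∈ L, p.1 < k) (y : FreeGroup ℕ) :
    Last k (FreeGroup.mk L * y) ↔ Last k y := by
  induction L with
  | nil =>
    have : (FreeGroup.mk [] : FreeGroup ℕ) = 1 := rfl
    rw [this, one_mul]
  | cons l L ih =>
    have h1 : (FreeGroup.mk (l :: L) : FreeGroup ℕ) = FreeGroup.mk [l] * FreeGroup.mk L := by
      rw [FreeGroup.mul_mk]; rfl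
    rw [h1, mul_assoc, last_mul_letter]
    · exact ih (fun p hp => hL p (List.mem_cons_of_mem _ hp))
    · left
      exact (hL l List.mem_cons_self).ne

/-- All letters of `f` have number `< k`. -/
def Low (k : ℕ) (f : FreeGroup ℕ) : Prop := ∀ p ∈ f.toWord, p.1 < k

lemma last_low_mul (k : ℕ) (f y : FreeGroup ℕ) (hf : Low k f) : Last k (f * y) ↔ Last k y := by
  conv_lhs => rw [← FreeGroup.mk_toWord (x := f)]
  exact last_mul_mk k f.toWord hf y

lemma not_last_one (k : ℕ) : ¬ Last k 1 := by
  unfold Last
  rw [FreeGroup.toWord_one]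
  intro h
  cases h

lemma last_of (k : ℕ) : Last k (FreeGroup.of k) := by
  unfold Last
  rw [FreeGroup.toWord_of]
  rfl

/-! ### Weights -/

/-- The weight of a set of `k` forbidden colors. -/
def phi (k : ℕ) : ℕ := if k = 0 then 0 else 3 ^ (k - 1) * 2 ^ (11 - k)

lemma phi_step : ∀ k < 12, ∀ k' < 12, (k' = k ∨ k' = k + 1) → 2 * phi k' ≤ 3 * phi k + 2048 := by
  decide

lemma phi_same (k : ℕ) : 2 * phi k ≤ 3 * phi k := by omega

lemma phi_insert (s : Finset (Fin 11)) (i : Fin 11) :
    2 * phi (insert i s).card ≤ 3 * phi s.card + 2048 := by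
  have h1 : s.card < 12 := by
    have := s.card_le_univ
    rw [Fintype.card_fin] at this
    omega
  have h2 : (insert i s).card < 12 := by
    have := (insert i s).card_le_univ
    rw [Fintype.card_fin] at this
    omega
  apply phi_step _ h1 _ h2
  by_cases hi : i ∈ s
  · left; rw [Finset.insert_eq_of_mem hi]
  · right; rw [Finset.card_insert_of_notMem hi]

lemma exists_color (s : Finset (Fin 11)) (h : phi s.card < 59049) : ∃ i, i ∉ s := by
  by_contra hc
  push Not at hc
  have : s = Finset.univ := Finset.eq_univ_iff_forall.2 hc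
  rw [this, Finset.card_univ, Fintype.card_fin] at h
  revert h
  decide

/-! ### The finite colouring lemma -/

section main
open Classical in
theorem main_aux (col : ℕ → Fin 11) (X Y : ℕ → Finset (FreeGroup ℕ))
    (hXc : ∀ k, (X k).card ≤ 11) (hYc : ∀ k, (Y k).card ≤ 11)
    (hX : ∀ k, ∀ f ∈ X k, Low k f) (hY : ∀ k, ∀ f ∈ Y k, Low k f) (n : ℕ) :
    ∀ (E : Finset (FreeGroup ℕ × ℕ)) (T : Finset (FreeGroup ℕ))
      (r : FreeGroup ℕ → Finset (Fin 11)), E.card = n →
      (∑ x ∈ T, phi (r x).card < 59049) → (∀ x, x ∉ T → r x = ∅) →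
      (∀ e ∈ E, (∀ f ∈ X e.2, f * (FreeGroup.of e.2 * e.1) ∈ T) ∧ ∀ f ∈ Y e.2, f * e.1 ∈ T) →
      ∃ c : FreeGroup ℕ → Fin 11, (∀ x, c x ∉ r x) ∧
        ∀ e ∈ E, ∀ x ∈ X e.2, ∀ y ∈ Y e.2,
          ¬ (c (x * (FreeGroup.of e.2 * e.1)) = col e.2 ∧ c (y * e.1) = col e.2) := by
  induction n using Nat.strong_induction_on with
  | _ n ih =>
  intro E T r hn hr hT hE
  rcases E.eq_empty_or_nonempty with hE0 | hne
  · -- no constraints
    have : ∀ x, ∃ i, i ∉ r x := by
      intro x
      apply exists_color
      by_cases hx : x ∈ T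
      · exact lt_of_le_of_lt (Finset.single_le_sum (f := fun x => phi (r x).card)
          (fun _ _ => Nat.zero_le _) hx) hr
      · rw [hT x hx]
        decide
    choose c hc using this
    refine ⟨c, hc, ?_⟩
    intro e he
    rw [hE0] at he
    simp at he
  · obtain ⟨e, he, hmax⟩ := Finset.exists_max_image E (fun e => e.2) hne
    obtain ⟨g, k⟩ := e
    set i := col k with hi
    -- the side of the edge
    set S : FreeGroup ℕ → Prop := fun x => Last k (x * g⁻¹) with hS
    have S_head : ∀ f ∈ X k, S (f * (FreeGroup.of k * g)) := by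
      intro f hf
      have h1 : f * (FreeGroup.of k * g) * g⁻¹ = f * FreeGroup.of k := by group
      simp only [hS, h1]
      rw [last_low_mul k f _ (hX k f hf)]
      exact last_of k
    have S_tail : ∀ f ∈ Y k, ¬ S (f * g) := by
      intro f hf h
      simp only [hS, mul_inv_cancel_right] at h
      rw [← mul_one f, last_low_mul k f 1 (hY k f hf)] at h
      exact not_last_one k h
    have S_other_tail : ∀ e' ∈ E, ∀ f ∈ Y e'.2, (S (f * e'.1) ↔ S e'.1) := by
      intro e' he' f hf
      simp only [hS, mul_assoc]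
      apply last_low_mul
      intro p hp
      exact lt_of_lt_of_le (hY _ f hf p hp) (hmax e' he')
    have S_other_head : ∀ e' ∈ E, e' ≠ (g, k) → ∀ f ∈ X e'.2,
        (S (f * (FreeGroup.of e'.2 * e'.1)) ↔ S e'.1) := by
      intro e' he' hne' f hf
      simp only [hS, mul_assoc]
      rw [last_low_mul]
      swap
      · intro p hp
        exact lt_of_lt_of_le (hX _ f hf p hp) (hmax e' he')
      have : (FreeGroup.of e'.2 : FreeGroup ℕ) = FreeGroup.mk [(e'.2, true)] := rfl
      rw [this]
      apply last_mul_letter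
      by_cases hk : e'.2 = k
      · right
        refine ⟨?_, by rw [hk]⟩
        intro h1
        apply hne'
        have h2 : e'.1 = g := by
          rwa [mul_inv_eq_one] at h1
        exact Prod.ext h2 hk
      · left; exact hk
    -- splitting the constraints
    set E1 := E.filter (fun e' => e' ≠ (g, k) ∧ ¬ S e'.1) with hE1
    set E2 := E.filter (fun e' => e' ≠ (g, k) ∧ S e'.1) with hE2
    have hE1c : E1.card < n := by
      rw [← hn]
      apply Finset.card_lt_card
      refine ⟨Finset.filter_subset _ _, ?_⟩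
      intro hsub
      have := hsub he
      rw [hE1, Finset.mem_filter] at this
      exact this.2.1 rfl
    have hE2c : E2.card < n := by
      rw [← hn]
      apply Finset.card_lt_card
      refine ⟨Finset.filter_subset _ _, ?_⟩
      intro hsub
      have := hsub he
      rw [hE2, Finset.mem_filter] at this
      exact this.2.1 rfl
    set Y' : Finset (FreeGroup ℕ) := (Y k).image (fun f => f * g) with hY'
    have hY'c : Y'.card ≤ 11 := Finset.card_image_le.trans (hYc k)
    set X' : Finset (FreeGroup ℕ) := (X k).image (fun f => f * (FreeGroup.of k * g)) with hX'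
    have hX'c : X'.card ≤ 11 := Finset.card_image_le.trans (hXc k)
    set r1 : FreeGroup ℕ → Finset (Fin 11) := fun x => if S x then ∅ else r x with hr1
    set r2 : FreeGroup ℕ → Finset (Fin 11) := fun x => if S x then r x else ∅ with hr2
    set r1' : FreeGroup ℕ → Finset (Fin 11) := fun x => if x ∈ Y' then insert i (r1 x) else r1 x
      with hr1'
    set r2' : FreeGroup ℕ → Finset (Fin 11) := fun x => if x ∈ X' then insert i (r2 x) else r2 x
      with hr2'
    have hsum : ∑ x ∈ T, phi (r1 x).card + ∑ x ∈ T, phi (r2 x).card = ∑ x ∈ T, phi (r x).card := by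
      rw [← Finset.sum_add_distrib]
      apply Finset.sum_congr rfl
      intro x _
      by_cases hSx : S x
      · simp only [hr1, hr2, if_pos hSx, Finset.card_empty]
        simp [phi]
      · simp only [hr1, hr2, if_neg hSx, Finset.card_empty]
        simp [phi]
    have hw : ∀ (q q' : FreeGroup ℕ → Finset (Fin 11)) (Z : Finset (FreeGroup ℕ)),
        Z.card ≤ 11 → (q' = fun x => if x ∈ Z then insert i (q x) else q x) →
        2 * ∑ x ∈ T, phi (q' x).card ≤ 3 * ∑ x ∈ T, phi (q x).card + 22528 := by
      intro q q' Z hZ hq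
      rw [Finset.mul_sum, Finset.mul_sum]
      calc ∑ x ∈ T, 2 * phi (q' x).card
          ≤ ∑ x ∈ T, (3 * phi (q x).card + if x ∈ Z then 2048 else 0) := by
            apply Finset.sum_le_sum
            intro x _
            by_cases hx : x ∈ Z
            · simp only [hq, if_pos hx]
              exact phi_insert _ _
            · simp only [hq, if_neg hx]
              exact phi_same _
        _ = ∑ x ∈ T, 3 * phi (q x).card + ∑ x ∈ T, (if x ∈ Z then 2048 else 0) :=
            Finset.sum_add_distrib
        _ ≤ ∑ x ∈ T, 3 * phi (q x).card + 22528 := by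
            apply Nat.add_le_add_left
            rw [← Finset.sum_filter, Finset.sum_const, smul_eq_mul]
            have : (T.filter (fun x => x ∈ Z)).card ≤ Z.card := by
              apply Finset.card_le_card
              intro x hx
              exact (Finset.mem_filter.1 hx).2
            omega
    have hw1 := hw r1 r1' Y' hY'c hr1'
    have hw2 := hw r2 r2' X' hX'c hr2'
    have hT1 : ∀ x, x ∉ T → r1 x = ∅ := by
      intro x hx
      simp only [hr1, hT x hx, ite_self]
    have hT2 : ∀ x, x ∉ T → r2 x = ∅ := by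
      intro x hx
      simp only [hr2, hT x hx, ite_self]
    have hT1' : ∀ x, x ∉ T → r1' x = ∅ := by
      intro x hx
      have : x ∉ Y' := by
        intro hxF
        rw [hY', Finset.mem_image] at hxF
        obtain ⟨f, hf, rfl⟩ := hxF
        exact hx ((hE _ he).2 f hf)
      simp only [hr1', if_neg this]
      exact hT1 x hx
    have hT2' : ∀ x, x ∉ T → r2' x = ∅ := by
      intro x hx
      have : x ∉ X' := by
        intro hxF
        rw [hX', Finset.mem_image] at hxF
        obtain ⟨f, hf, rfl⟩ := hxF
        exact hx ((hE _ he).1 f hf)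
      simp only [hr2', if_neg this]
      exact hT2 x hx
    have hEE1 : ∀ e ∈ E1, (∀ f ∈ X e.2, f * (FreeGroup.of e.2 * e.1) ∈ T) ∧
        ∀ f ∈ Y e.2, f * e.1 ∈ T :=
      fun e' he' => hE e' (Finset.mem_filter.1 he').1
    have hEE2 : ∀ e ∈ E2, (∀ f ∈ X e.2, f * (FreeGroup.of e.2 * e.1) ∈ T) ∧
        ∀ f ∈ Y e.2, f * e.1 ∈ T :=
      fun e' he' => hE e' (Finset.mem_filter.1 he').1
    -- gluing
    have glue : ∀ c1 c2 : FreeGroup ℕ → Fin 11, (∀ x, c1 x ∉ r1 x) → (∀ x, c2 x ∉ r2 x) →
        (∀ e ∈ E1, ∀ x ∈ X e.2, ∀ y ∈ Y e.2,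
          ¬ (c1 (x * (FreeGroup.of e.2 * e.1)) = col e.2 ∧ c1 (y * e.1) = col e.2)) →
        (∀ e ∈ E2, ∀ x ∈ X e.2, ∀ y ∈ Y e.2,
          ¬ (c2 (x * (FreeGroup.of e.2 * e.1)) = col e.2 ∧ c2 (y * e.1) = col e.2)) →
        ((∀ f ∈ X k, c2 (f * (FreeGroup.of k * g)) ≠ i) ∨ ∀ f ∈ Y k, c1 (f * g) ≠ i) →
        ∃ c : FreeGroup ℕ → Fin 11, (∀ x, c x ∉ r x) ∧
          ∀ e ∈ E, ∀ x ∈ X e.2, ∀ y ∈ Y e.2,
            ¬ (c (x * (FreeGroup.of e.2 * e.1)) = col e.2 ∧ c (y * e.1) = col e.2) := by
      intro c1 c2 h1 h2 hc1 hc2 hlast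
      refine ⟨fun x => if S x then c2 x else c1 x, ?_, ?_⟩
      · intro x
        by_cases hSx : S x
        · have := h2 x
          simp only [hr2, if_pos hSx] at this
          simp only [if_pos hSx]
          exact this
        · have := h1 x
          simp only [hr1, if_neg hSx] at this
          simp only [if_neg hSx]
          exact this
      · intro e' he' x hx y hy
        by_cases hee : e' = (g, k)
        · subst hee
          rintro ⟨h3, h4⟩
          simp only [if_pos (S_head x hx)] at h3
          simp only [if_neg (S_tail y hy)] at h4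
          rcases hlast with h5 | h5
          · exact h5 x hx h3
          · exact h5 y hy h4
        · by_cases hSe : S e'.1
          · have hmem : e' ∈ E2 := Finset.mem_filter.2 ⟨he', hee, hSe⟩
            have ha := (S_other_head e' he' hee x hx).2 hSe
            have hb := (S_other_tail e' he' y hy).2 hSe
            simp only [if_pos ha, if_pos hb]
            exact hc2 e' hmem x hx y hy
          · have hmem : e' ∈ E1 := Finset.mem_filter.2 ⟨he', hee, hSe⟩
            have ha := fun h => hSe ((S_other_head e' he' hee x hx).1 h)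
            have hb := fun h => hSe ((S_other_tail e' he' y hy).1 h)
            simp only [if_neg ha, if_neg hb]
            exact hc1 e' hmem x hx y hy
    by_cases hcase : ∑ x ∈ T, phi (r2' x).card < 59049
    · -- pay at the head
      obtain ⟨c1, h1, hc1⟩ := ih _ hE1c E1 T r1 rfl (by omega) hT1 hEE1
      obtain ⟨c2, h2, hc2⟩ := ih _ hE2c E2 T r2' rfl hcase hT2' hEE2
      refine glue c1 c2 h1 ?_ hc1 hc2 (Or.inl ?_)
      · intro x hx
        apply h2 x
        simp only [hr2']
        split_ifs
        · exact Finset.mem_insert_of_mem hx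
        · exact hx
      · intro f hf hc
        apply h2 (f * (FreeGroup.of k * g))
        have hm : f * (FreeGroup.of k * g) ∈ X' :=
          Finset.mem_image_of_mem (fun f => f * (FreeGroup.of k * g)) hf
        simp only [hr2', if_pos hm]
        rw [hc]
        exact Finset.mem_insert_self _ _
    · -- pay at the tail
      have hlt : ∑ x ∈ T, phi (r1' x).card < 59049 := by omega
      obtain ⟨c1, h1, hc1⟩ := ih _ hE1c E1 T r1' rfl hlt hT1' hEE1
      obtain ⟨c2, h2, hc2⟩ := ih _ hE2c E2 T r2 rfl (by omega) hT2 hEE2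
      refine glue c1 c2 ?_ h2 hc1 hc2 (Or.inr ?_)
      · intro x hx
        apply h1 x
        simp only [hr1']
        split_ifs
        · exact Finset.mem_insert_of_mem hx
        · exact hx
      · intro f hf hc
        apply h1 (f * g)
        have hm : f * g ∈ Y' := Finset.mem_image_of_mem (fun f => f * g) hf
        simp only [hr1', if_pos hm]
        rw [hc]
        exact Finset.mem_insert_self _ _

end main

/-! ### Compactness -/

theorem exists_coloring (col : ℕ → Fin 11) (X Y : ℕ → Finset (FreeGroup ℕ))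
    (hXc : ∀ k, (X k).card ≤ 11) (hYc : ∀ k, (Y k).card ≤ 11)
    (hX : ∀ k, ∀ f ∈ X k, Low k f) (hY : ∀ k, ∀ f ∈ Y k, Low k f) :
    ∃ c : FreeGroup ℕ → Fin 11, ∀ (g : FreeGroup ℕ) (k : ℕ), ∀ x ∈ X k, ∀ y ∈ Y k,
      ¬ (c (x * (FreeGroup.of k * g)) = col k ∧ c (y * g) = col k) := by
  classical
  set t : FreeGroup ℕ × ℕ → Set (FreeGroup ℕ → Fin 11) := fun e =>
    {c | ∀ x ∈ X e.2, ∀ y ∈ Y e.2,
      ¬ (c (x * (FreeGroup.of e.2 * e.1)) = col e.2 ∧ c (y * e.1) = col e.2)} with ht
  have hclosed : ∀ e, IsClosed (t e) := by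
    intro e
    have : t e = ⋂ x ∈ X e.2, ⋂ y ∈ Y e.2, {c : FreeGroup ℕ → Fin 11 |
        ¬ (c (x * (FreeGroup.of e.2 * e.1)) = col e.2 ∧ c (y * e.1) = col e.2)} := by
      ext c
      simp only [ht, Set.mem_ofPred_eq, Set.mem_iInter]
    rw [this]
    apply isClosed_biInter
    intro x _
    apply isClosed_biInter
    intro y _
    apply isClosed_compl_iff.2
    have h0 : ∀ x : FreeGroup ℕ, IsOpen {c : FreeGroup ℕ → Fin 11 | c x = col e.2} := by
      intro x
      have hx : Continuous (fun c : FreeGroup ℕ → Fin 11 => c x) := continuous_apply x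
      exact (isOpen_discrete ({col e.2} : Set (Fin 11))).preimage hx
    exact (h0 (x * (FreeGroup.of e.2 * e.1))).inter (h0 (y * e.1))
  have hne := isCompact_univ.inter_iInter_nonempty (X := FreeGroup ℕ → Fin 11) t hclosed (by
    intro E
    obtain ⟨c, _, hc⟩ := main_aux col X Y hXc hYc hX hY _ E
      (E.biUnion (fun e => (X e.2).image (fun f => f * (FreeGroup.of e.2 * e.1))) ∪
        E.biUnion (fun e => (Y e.2).image (fun f => f * e.1))) (fun _ => ∅) rfl
      (by simp [phi]) (fun _ _ => rfl) (by
        intro e he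
        refine ⟨?_, ?_⟩
        · intro f hf
          apply Finset.mem_union_left
          rw [Finset.mem_biUnion]
          exact ⟨e, he, Finset.mem_image_of_mem (fun f => f * (FreeGroup.of e.2 * e.1)) hf⟩
        · intro f hf
          apply Finset.mem_union_right
          rw [Finset.mem_biUnion]
          exact ⟨e, he, Finset.mem_image_of_mem (fun f => f * e.1) hf⟩)
    refine ⟨c, Set.mem_univ _, ?_⟩
    simp only [Set.mem_iInter]
    intro e he
    exact hc e he)
  obtain ⟨c, _, hc⟩ := hne
  refine ⟨c, ?_⟩
  intro g k x hx y hy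
  exact (Set.mem_iInter.1 hc (g, k)) x hx y hy

lemma exists_low_bound (F : Finset (FreeGroup ℕ)) : ∃ K, ∀ k ≥ K, ∀ f ∈ F, Low k f := by
  classical
  induction F using Finset.induction_on with
  | empty => exact ⟨0, fun _ _ f hf => absurd hf (Finset.notMem_empty f)⟩
  | insert a s _ ih =>
    obtain ⟨K, hK⟩ := ih
    have : ∃ K', ∀ p ∈ a.toWord, p.1 < K' := by
      induction a.toWord with
      | nil => exact ⟨0, fun p hp => absurd hp List.not_mem_nil⟩
      | cons l L ih2 =>
        obtain ⟨K', hK'⟩ := ih2
        refine ⟨max K' (l.1 + 1), ?_⟩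
        intro p hp
        rcases List.mem_cons.1 hp with rfl | hp
        · exact lt_of_lt_of_le (Nat.lt_succ_self _) (le_max_right _ _)
        · exact lt_of_lt_of_le (hK' p hp) (le_max_left _ _)
    obtain ⟨K', hK'⟩ := this
    refine ⟨max K K', ?_⟩
    intro k hk f hf
    rcases Finset.mem_insert.1 hf with rfl | hf
    · intro p hp
      exact lt_of_lt_of_le (hK' p hp) ((le_max_right _ _).trans hk)
    · exact hK k ((le_max_left _ _).trans hk) f hf

/-- There is a colouring of the free group with eleven colours such that for every colour and any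
two sets of at most eleven elements some generator `t` works as a two-sided separating witness. -/
theorem exists_good : ∃ c : FreeGroup ℕ → Fin 11, ∀ (i : Fin 11) (X Y : Finset (FreeGroup ℕ)),
    X.card ≤ 11 → Y.card ≤ 11 →
    ∃ t : FreeGroup ℕ, ∀ g, ∀ x ∈ X, ∀ y ∈ Y, ¬ (c (x * (t * g)) = i ∧ c (y * g) = i) := by
  classical
  have : Encodable (Fin 11 × Finset (FreeGroup ℕ) × Finset (FreeGroup ℕ)) := Encodable.ofCountable _
  set ν : ℕ → Option (Fin 11 × Finset (FreeGroup ℕ) × Finset (FreeGroup ℕ)) := fun k =>
    Encodable.decode (Nat.unpair k).1 with hν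
  set col : ℕ → Fin 11 := fun k => ((ν k).getD (0, ∅, ∅)).1 with hcol
  set X0 : ℕ → Finset (FreeGroup ℕ) := fun k => ((ν k).getD (0, ∅, ∅)).2.1 with hX0
  set Y0 : ℕ → Finset (FreeGroup ℕ) := fun k => ((ν k).getD (0, ∅, ∅)).2.2 with hY0
  set X : ℕ → Finset (FreeGroup ℕ) := fun k =>
    if (X0 k).card ≤ 11 ∧ ∀ f ∈ X0 k, Low k f then X0 k else ∅ with hX
  set Y : ℕ → Finset (FreeGroup ℕ) := fun k =>
    if (Y0 k).card ≤ 11 ∧ ∀ f ∈ Y0 k, Low k f then Y0 k else ∅ with hY
  obtain ⟨c, hc⟩ := exists_coloring col X Y
    (by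
      intro k
      simp only [hX]
      split_ifs with h
      · exact h.1
      · simp)
    (by
      intro k
      simp only [hY]
      split_ifs with h
      · exact h.1
      · simp)
    (by
      intro k f hf
      simp only [hX] at hf
      split_ifs at hf with h
      · exact h.2 f hf
      · exact absurd hf (Finset.notMem_empty f))
    (by
      intro k f hf
      simp only [hY] at hf
      split_ifs at hf with h
      · exact h.2 f hf
      · exact absurd hf (Finset.notMem_empty f))
  refine ⟨c, ?_⟩
  intro i A B hA hB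
  obtain ⟨K1, hK1⟩ := exists_low_bound A
  obtain ⟨K2, hK2⟩ := exists_low_bound B
  set K := max K1 K2 with hK
  set k := Nat.pair (Encodable.encode (i, A, B)) K with hk
  have hkK : K ≤ k := Nat.right_le_pair _ _
  have hνk : ν k = some (i, A, B) := by
    simp only [hν, hk, Nat.unpair_pair, Encodable.encodek]
  have hcolk : col k = i := by simp only [hcol, hνk, Option.getD_some]
  have hX0k : X0 k = A := by simp only [hX0, hνk, Option.getD_some]
  have hY0k : Y0 k = B := by simp only [hY0, hνk, Option.getD_some]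
  have hXk : X k = A := by
    simp only [hX]
    rw [if_pos]
    · exact hX0k
    · rw [hX0k]
      exact ⟨hA, hK1 k ((le_max_left _ _).trans hkK)⟩
  have hYk : Y k = B := by
    simp only [hY]
    rw [if_pos]
    · exact hY0k
    · rw [hY0k]
      exact ⟨hB, hK2 k ((le_max_right _ _).trans hkK)⟩
  refine ⟨FreeGroup.of k, ?_⟩
  intro g x hx y hy
  have := hc g k x (by rw [hXk]; exact hx) y (by rw [hYk]; exact hy)
  rwa [hcolk] at this

end Pool.Agent.H42R3.TwoSided
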